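import Pool.Agent.H766Z.AspTree

set_option autoImplicit false

namespace Pool.Agent.H766Z.Asp

open Set Filter Topology Cardinal
open scoped BoundedContinuousFunction

abbrev X := ℕ →ᵇ ℝ

noncomputable def th (t : ℝ) : ℝ := Real.arctan t / 2

theorem th_abs (t : ℝ) : |th t| ≤ 1 := by
  have h1 := Real.arctan_lt_pi_div_two t
  have h2 := Real.neg_pi_div_two_lt_arctan t
  have h3 := Real.pi_le_four
  unfold th
  rw [abs_le]
  constructor <;> linarith

theorem th_inj : Function.Injective th := by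
  intro a b h
  apply Real.arctan_injective
  unfold th at h
  linarith

theorem th_cont : Continuous th := Real.continuous_arctan.div_const _

noncomputable def z (t : ℝ) : X :=
  BoundedContinuousFunction.ofNormedAddCommGroupDiscrete (fun n => th t ^ n / ((n : ℝ) + 1)) 1
    (fun n => by
      have h0 : (1 : ℝ) ≤ (n : ℝ) + 1 := by
        have : (0 : ℝ) ≤ n := Nat.cast_nonneg n
        linarith
      rw [Real.norm_eq_abs, abs_div, abs_pow, abs_of_pos (by linarith : (0 : ℝ) < (n : ℝ) + 1),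
        div_le_one (by linarith)]
      exact (pow_le_one₀ (abs_nonneg _) (th_abs t)).trans h0)

theorem z_apply (t : ℝ) (n : ℕ) : z t n = th t ^ n / ((n : ℝ) + 1) := rfl

theorem z_dist (a b : ℝ) : dist (z a) (z b) ≤ dist (th a) (th b) := by
  rw [BoundedContinuousFunction.dist_le dist_nonneg]
  intro n
  have h0 : (0 : ℝ) ≤ n := Nat.cast_nonneg n
  rw [z_apply, z_apply, Real.dist_eq, Real.dist_eq, ← sub_div, abs_div,
    abs_of_pos (by linarith : (0 : ℝ) < (n : ℝ) + 1), div_le_iff₀ (by linarith)]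
  have h1 := abs_pow_sub_pow_le (th a) (th b) n
  have h2 : max |th a| |th b| ^ (n - 1) ≤ 1 :=
    pow_le_one₀ (le_max_of_le_left (abs_nonneg _)) (max_le (th_abs a) (th_abs b))
  have h3 : 0 ≤ |th a - th b| := abs_nonneg _
  calc |th a ^ n - th b ^ n| ≤ |th a - th b| * n * max |th a| |th b| ^ (n - 1) := h1
    _ ≤ |th a - th b| * n * 1 := by gcongr
    _ ≤ |th a - th b| * (n + 1) := by nlinarith

theorem z_cont : Continuous z := by
  rw [Metric.continuous_iff]
  intro b ε hε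
  obtain ⟨δ, hδ, h⟩ := Metric.continuous_iff.1 th_cont b ε hε
  exact ⟨δ, hδ, fun a ha => (z_dist a b).trans_lt (h a ha)⟩

theorem z_indep : LinearIndependent ℝ z := by
  let L : X →ₗ[ℝ] (Multiplicative ℕ → ℝ) :=
    { toFun := fun x n => ((Multiplicative.toAdd n : ℕ) + 1 : ℝ) * x (Multiplicative.toAdd n)
      map_add' := fun x y => by ext n; simp [mul_add]
      map_smul' := fun c x => by ext n; simp; ring }
  apply LinearIndependent.of_comp L
  have h := (linearIndependent_monoidHom (Multiplicative ℕ) ℝ).comp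
    (fun t : ℝ => powersHom ℝ (th t)) ((powersHom ℝ).injective.comp th_inj)
  have e : L ∘ z = ((fun f : Multiplicative ℕ →* ℝ => (f : Multiplicative ℕ → ℝ)) ∘
      fun t : ℝ => powersHom ℝ (th t)) := by
    ext t n
    have h0 : (0 : ℝ) ≤ (Multiplicative.toAdd n : ℕ) := Nat.cast_nonneg _
    simp only [Function.comp, L, LinearMap.coe_mk, AddHom.coe_mk, z_apply, powersHom_apply]
    field_simp
  rw [e]
  exact h

variable {B : Type}

abbrev Box (B : Type) := (X × ℝ) × ℝ × List (B × ℝ)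

def cb (b : Box B) : Set ((X × ℝ) × (B → ℝ)) :=
  {q | dist q.1 b.1 ≤ b.2.1 ∧ ∀ e ∈ b.2.2, |q.2 e.1 - e.2| ≤ b.2.1}

def toBox (s : St X B) : Box B := (s.1.1, s.2.1, s.2.2.map fun β => (β, s.1.2 β))

theorem cb_toBox (s : St X B) : cb (toBox s) = cbS s := by
  ext q
  simp [cb, toBox, cbS]

abbrev Code (B : Type) := ℝ × (List Bool → Box B)

def C (k : Code B) : Set (X × (B → ℝ)) :=
  {q | ∃ (p : X × (B → ℝ)) (t : ℝ),
    (∀ n, ∃ l : List Bool, l.length = n ∧ ((p.1, t), p.2) ∈ cb (k.2 l)) ∧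
      (q = p ∨ q = (p.1 + k.1 • z t, p.2))}

def ment (k : Code B) : Set B := ⋃ l : List Bool, {β | ∃ e ∈ (k.2 l).2.2, e.1 = β}

theorem ment_countable (k : Code B) : (ment k).Countable := by
  refine countable_iUnion fun l => ?_
  exact ((List.finite_toSet (k.2 l).2.2).image Prod.fst).countable

theorem C_congr {k : Code B} {q : X × (B → ℝ)} (hq : q ∈ C k) (y : B → ℝ)
    (hy : ∀ β ∈ ment k, y β = q.2 β) : (q.1, y) ∈ C k := by
  obtain ⟨p, t, h1, h2⟩ := hq
  have hp : q.2 = p.2 := by rcases h2 with rfl | rfl <;> rfl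
  refine ⟨(p.1, y), t, fun n => ?_, ?_⟩
  · obtain ⟨l, hl, h3, h4⟩ := h1 n
    refine ⟨l, hl, h3, fun e he => ?_⟩
    have := hy e.1 (mem_iUnion.2 ⟨l, e, he, rfl⟩)
    simp only
    rw [this, hp]
    exact h4 e he
  · rcases h2 with rfl | rfl
    · exact Or.inl rfl
    · exact Or.inr rfl

def Active (S : Set (X × (B → ℝ))) : Prop :=
  ∀ W : Set X, #W < continuum → ∃ q ∈ S, q.1 ∉ Submodule.span ℝ W

theorem not_all {ι : Type} (hι : #ι = continuum) {τ : ι → ℝ} (hτ : Function.Injective τ)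
    {W : Set X} (hW : #W < continuum) : ∃ i, z (τ i) ∉ Submodule.span ℝ W := by
  by_contra hcon
  push Not at hcon
  have h1 : LinearIndependent ℝ (fun i => (⟨z (τ i), hcon i⟩ : Submodule.span ℝ W)) :=
    LinearIndependent.of_comp (Submodule.span ℝ W).subtype (z_indep.comp τ hτ)
  have h2 := h1.cardinal_le_rank.trans (rank_span_le W)
  rw [hι] at h2
  exact absurd hW (not_lt.2 h2)

theorem active_univ : Active (univ : Set (X × (B → ℝ))) := by
  intro W hW
  obtain ⟨i, hi⟩ := not_all (τ := id) mk_real Function.injective_id hW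
  exact ⟨(z i, 0), trivial, hi⟩

noncomputable def shift (δ : ℝ) : ((X × ℝ) × (B → ℝ)) ≃ₜ ((X × ℝ) × (B → ℝ)) where
  toFun q := ((q.1.1 + δ • z q.1.2, q.1.2), q.2)
  invFun q := ((q.1.1 - δ • z q.1.2, q.1.2), q.2)
  left_inv q := by simp
  right_inv q := by simp
  continuous_toFun := by
    have := z_cont
    fun_prop
  continuous_invFun := by
    have := z_cont
    fun_prop

def prj (q : (X × ℝ) × (B → ℝ)) : X × (B → ℝ) := (q.1.1, q.2)

theorem prj_cont : Continuous (prj (B := B)) := by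
  unfold prj
  fun_prop

theorem prj_open : IsOpenMap (prj (B := B)) := isOpenMap_fst.prodMap IsOpenMap.id

theorem exists_code (G : ℕ → Set (X × (B → ℝ))) (hG : ∀ n, IsOpen (G n)) (hd : ∀ n, Dense (G n))
    {U : Set (X × (B → ℝ))} (hU : IsOpen U) (hne : U.Nonempty) :
    ∃ k : Code B, Active (C k) ∧ C k ⊆ U ∧ ∀ n, C k ⊆ G n := by
  obtain ⟨p0, hp0⟩ := hne
  obtain ⟨δ, hδU, hδ⟩ : ∃ δ : ℝ, (p0.1 + δ • z 0, p0.2) ∈ U ∧ 0 < δ := by
    have hc : Continuous fun δ : ℝ => (p0.1 + δ • z 0, p0.2) := by fun_prop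
    have h1 : ∀ᶠ δ in 𝓝 (0 : ℝ), (p0.1 + δ • z 0, p0.2) ∈ U :=
      hc.continuousAt.preimage_mem_nhds (hU.mem_nhds (by simpa using hp0))
    have h2 : ∀ᶠ δ in 𝓝[>] (0 : ℝ), (p0.1 + δ • z 0, p0.2) ∈ U :=
      mem_nhdsWithin_of_mem_nhds h1
    exact (h2.and self_mem_nhdsWithin).exists
  have hop : ∀ S : Set (X × (B → ℝ)), IsOpen S →
      IsOpen (prj ⁻¹' S ∩ shift δ ⁻¹' (prj ⁻¹' S)) := fun S hS =>
    (hS.preimage prj_cont).inter ((hS.preimage prj_cont).preimage (shift δ).continuous)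
  obtain ⟨node, h0, h1, P, hP, hinj⟩ := tree
    (fun n => prj ⁻¹' (G n) ∩ shift δ ⁻¹' (prj ⁻¹' (G n))) (fun n => hop _ (hG n))
    (fun n => Dense.inter_of_isOpen_left ((hd n).preimage prj_open)
      (((hd n).preimage prj_open).preimage (shift δ).isOpenMap) ((hG n).preimage prj_cont))
    (hop U hU) ⟨((p0.1, 0), p0.2), hp0, hδU⟩
  refine ⟨(δ, fun l => toBox (node l)), ?_, ?_, ?_⟩
  · intro W hW
    obtain ⟨σ, hσ⟩ := not_all (ι := ℕ → Bool) (by simp) hinj hW
    have hm : ∀ n, ∃ l : List Bool, l.length = n ∧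
        (((prj (P σ)).1, (P σ).1.2), (prj (P σ)).2) ∈ cb (toBox (node l)) := fun n =>
      ⟨pre σ n, pre_length σ n, by rw [cb_toBox]; exact hP σ n⟩
    by_contra hcon
    push Not at hcon
    have a1 := hcon _ ⟨prj (P σ), (P σ).1.2, hm, Or.inl rfl⟩
    have a2 := hcon _ ⟨prj (P σ), (P σ).1.2, hm, Or.inr rfl⟩
    have a3 := Submodule.smul_mem _ δ⁻¹ (Submodule.sub_mem _ a2 a1)
    simp only [add_sub_cancel_left, smul_smul, inv_mul_cancel₀ hδ.ne', one_smul] at a3
    exact hσ a3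
  · rintro q ⟨p, t, h2, h3⟩
    obtain ⟨l, hl, h4⟩ := h2 0
    rw [List.length_eq_zero_iff] at hl
    subst hl
    simp only [cb_toBox] at h4
    have := h0 h4
    rcases h3 with rfl | rfl
    · exact this.1
    · exact this.2
  · rintro n q ⟨p, t, h2, h3⟩
    obtain ⟨l, hl, h4⟩ := h2 (n + 1)
    obtain ⟨b, l', rfl⟩ := List.exists_cons_of_length_eq_add_one hl
    simp only [cb_toBox] at h4
    have := h1 b l' h4
    have hn : l'.length = n := by simpa using hl
    rw [hn] at this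
    rcases h3 with rfl | rfl
    · exact this.1
    · exact this.2

theorem transversal {A : Type} (hA : #A ≤ continuum) (S : A → Set (X × (B → ℝ)))
    (hS : ∀ a, Active (S a)) :
    ∃ q : A → X × (B → ℝ), (∀ a, q a ∈ S a) ∧ LinearIndependent ℝ fun a => (q a).1 := by
  classical
  obtain ⟨_, _, hord⟩ := exists_ord_eq_type_lt A
  have key : ∀ (a : A) (f : ∀ b, b < a → X × (B → ℝ)), ∃ q ∈ S a,
      q.1 ∉ Submodule.span ℝ (range fun b : Iio a => (f b.1 b.2).1) := by
    intro a f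
    exact hS a _ (mk_range_le.trans_lt ((mk_Iio_lt a hord).trans_le hA))
  choose g hg1 hg2 using key
  let q : A → X × (B → ℝ) := (wellFounded_lt (α := A)).fix g
  have hq : ∀ a, q a = g a fun b _ => q b := fun a => WellFounded.fix_eq _ _ _
  refine ⟨q, fun a => by rw [hq]; exact hg1 _ _, ?_⟩
  rw [linearIndependent_iff']
  intro s c hs
  by_contra hcon
  push Not at hcon
  obtain ⟨i0, hi0, hc0⟩ := hcon
  obtain ⟨i, hi, hmax⟩ := Finset.exists_max_image (s.filter fun i => c i ≠ 0) id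
    ⟨i0, by simp [hi0, hc0]⟩
  simp only [Finset.mem_filter, id] at hi hmax
  have h1 := hg2 i fun b _ => q b
  rw [← hq] at h1
  apply h1
  rw [← Finset.add_sum_erase _ _ hi.1] at hs
  have h2 : (q i).1 = -(c i)⁻¹ • ∑ j ∈ s.erase i, c j • (q j).1 := by
    rw [eq_neg_of_add_eq_zero_right hs, neg_smul_neg, smul_smul, inv_mul_cancel₀ hi.2, one_smul]
  rw [h2]
  refine Submodule.smul_mem _ _ (Submodule.sum_mem _ fun j hj => ?_)
  by_cases hcj : c j = 0
  · simp [hcj]
  · rw [Finset.mem_erase] at hj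
    have : j < i := lt_of_le_of_ne (hmax j ⟨hj.2, hcj⟩) hj.1
    exact Submodule.smul_mem _ _ (Submodule.subset_span ⟨⟨j, this⟩, rfl⟩)

end Pool.Agent.H766Z.Asp
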