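import Mathlib

set_option autoImplicit false

namespace Pool.Agent.H766Z.Asp

open Set

variable {E : Type} [AddCommGroup E] [Module ℝ E] [TopologicalSpace E]

/-- `f` is Frechet differentiable at `x₀`: there is a continuous linear functional `φ` such that for
every bounded set `B` and every `ε > 0` there is `δ > 0` with
`|(f (x₀ + t x) - f x₀) / t - φ x| < ε` for all `x ∈ B` and all `0 < |t| < δ`. -/
def FrechetDiffAt (f : E → ℝ) (x₀ : E) : Prop :=
  ∃ φ : E →L[ℝ] ℝ, ∀ B : Set E, Bornology.IsVonNBounded ℝ B → ∀ ε : ℝ, 0 < ε →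
    ∃ δ : ℝ, 0 < δ ∧ ∀ t : ℝ, 0 < |t| → |t| < δ →
      ∀ x ∈ B, |(f (x₀ + t • x) - f x₀) / t - φ x| < ε

/-- `f` is Gateaux differentiable at `x₀`: the same condition with `B` ranging over singletons. -/
def GateauxDiffAt (f : E → ℝ) (x₀ : E) : Prop :=
  ∃ φ : E →L[ℝ] ℝ, ∀ x : E, ∀ ε : ℝ, 0 < ε →
    ∃ δ : ℝ, 0 < δ ∧ ∀ t : ℝ, 0 < |t| → |t| < δ →
      |(f (x₀ + t • x) - f x₀) / t - φ x| < ε

variable (E) in
/-- `E` is Asplund: for every nonempty open convex `D` and every function `f` continuous and convex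
on `D` there is a `G_δ` set `G ⊆ D`, dense in `D`, at each point of which `f` is Frechet
differentiable. -/
def IsAsplund : Prop :=
  ∀ D : Set E, D.Nonempty → IsOpen D → Convex ℝ D → ∀ f : E → ℝ, ConvexOn ℝ D f →
    ContinuousOn f D → ∃ G : Set E, G ⊆ D ∧ IsGδ G ∧ D ⊆ closure G ∧ ∀ x ∈ G, FrechetDiffAt f x

end Pool.Agent.H766Z.Asp
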