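import Pool.Agent.H766Z.AspCode

set_option autoImplicit false

namespace Pool.Agent.H766Z.Asp

open Set Filter Topology
open scoped BoundedContinuousFunction

noncomputable def ls (x : X) : ℝ := limsup (fun n => x n) atTop

theorem bdd_up (x : X) : IsBoundedUnder (· ≤ ·) atTop fun n => x n :=
  isBoundedUnder_of ⟨‖x‖, fun n => (le_abs_self _).trans (x.norm_coe_le_norm n)⟩

theorem bdd_lo (x : X) : IsBoundedUnder (· ≥ ·) atTop fun n => x n :=
  isBoundedUnder_of ⟨-‖x‖, fun n => (abs_le.1 (x.norm_coe_le_norm n)).1⟩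

theorem ev_lt (x : X) {ε : ℝ} (hε : 0 < ε) : ∀ᶠ n in atTop, x n < ls x + ε :=
  eventually_lt_of_limsup_lt (lt_add_of_pos_right _ hε) (bdd_up x)

theorem fr_lt (x : X) {ε : ℝ} (hε : 0 < ε) : ∃ᶠ n in atTop, ls x - ε < x n :=
  frequently_lt_of_lt_limsup (bdd_lo x).isCoboundedUnder_le (sub_lt_self _ hε)

theorem ls_le {x : X} {c : ℝ} (h : ∀ ε > 0, ∀ᶠ n in atTop, x n ≤ c + ε) : ls x ≤ c := by
  refine le_of_forall_pos_le_add fun ε hε => ?_
  exact limsup_le_of_le (bdd_lo x).isCoboundedUnder_le (h ε hε)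

theorem le_ls {x : X} {c : ℝ} (h : ∀ ε > 0, ∃ᶠ n in atTop, c - ε ≤ x n) : c ≤ ls x := by
  refine le_of_forall_pos_le_add fun ε hε => ?_
  obtain ⟨n, h1, h2⟩ := ((h (ε / 2) (half_pos hε)).and_eventually (ev_lt x (half_pos hε))).exists
  linarith

theorem ls_lip (x y : X) : ls x ≤ ls y + dist x y := by
  refine ls_le fun ε hε => ?_
  filter_upwards [ev_lt y hε] with n hn
  have := BoundedContinuousFunction.dist_coe_le_dist (f := x) (g := y) n
  rw [Real.dist_eq] at this
  have := (abs_le.1 this).2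
  linarith

theorem ls_cont : Continuous ls := by
  refine (LipschitzWith.of_le_add ls_lip).continuous

theorem ls_convex : ConvexOn ℝ univ ls := by
  refine ⟨convex_univ, fun x _ y _ a b ha hb hab => ?_⟩
  refine ls_le fun ε hε => ?_
  filter_upwards [ev_lt x hε, ev_lt y hε] with n h1 h2
  simp only [BoundedContinuousFunction.coe_add, BoundedContinuousFunction.coe_smul, Pi.add_apply,
    smul_eq_mul]
  have e : ε = a * ε + b * ε := by rw [← add_mul, hab, one_mul]
  nlinarith [mul_le_mul_of_nonneg_left h1.le ha, mul_le_mul_of_nonneg_left h2.le hb]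

theorem ls_kink (x : X) : ∃ v : X, ∀ w : X, dist w v ≤ 1 / 2 → ∀ t : ℝ,
    ls x + |t| / 2 ≤ ls (x + t • w) := by
  classical
  obtain ⟨φ, hφ, hP⟩ := extraction_forall_of_frequently
    (P := fun n k => ls x - 1 / ((n : ℝ) + 1) < x k) fun n => fr_lt x Nat.one_div_pos_of_nat
  let v : X := BoundedContinuousFunction.ofNormedAddCommGroupDiscrete
    (fun k => if k ∈ range (fun j => φ (2 * j)) then 1 else -1) 1
    (fun k => by split_ifs <;> simp)
  have hv0 : ∀ j, v (φ (2 * j)) = 1 := fun j => if_pos ⟨j, rfl⟩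
  have hv1 : ∀ j, v (φ (2 * j + 1)) = -1 := fun j => if_neg (by
    rintro ⟨i, hi⟩
    have := hφ.injective hi
    omega)
  have key : ∀ t : ℝ, ls x + |t| ≤ ls (x + t • v) := by
    intro t
    refine le_ls fun ε hε => ?_
    rw [frequently_atTop]
    intro N
    obtain ⟨m, hm⟩ := exists_nat_one_div_lt hε
    have hb : ∀ n, m ≤ n → ls x - ε ≤ x (φ n) := by
      intro n hn
      have h1 := hP n
      have h2 : 1 / ((n : ℝ) + 1) ≤ 1 / ((m : ℝ) + 1) := Nat.one_div_le_one_div hn
      linarith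
    rcases le_total 0 t with ht | ht
    · refine ⟨φ (2 * (N + m)), le_trans (by omega) hφ.le_apply, ?_⟩
      have := hb (2 * (N + m)) (by omega)
      simp only [BoundedContinuousFunction.coe_add, BoundedContinuousFunction.coe_smul,
        Pi.add_apply, smul_eq_mul, hv0, abs_of_nonneg ht]
      linarith
    · refine ⟨φ (2 * (N + m) + 1), le_trans (by omega) hφ.le_apply, ?_⟩
      have := hb (2 * (N + m) + 1) (by omega)
      simp only [BoundedContinuousFunction.coe_add, BoundedContinuousFunction.coe_smul,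
        Pi.add_apply, smul_eq_mul, hv1, abs_of_nonpos ht]
      linarith
  refine ⟨v, fun w hw t => ?_⟩
  have h1 := ls_lip (x + t • v) (x + t • w)
  have h0 : dist (t • v) (t • w) = ‖t‖ * dist v w := dist_smul₀ t v w
  rw [dist_add_left, h0, dist_comm, Real.norm_eq_abs] at h1
  have h2 := mul_le_mul_of_nonneg_left hw (abs_nonneg t)
  have := key t
  linarith

end Pool.Agent.H766Z.Asp
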