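import Pool.Agent.H766Z.AspLimsup
import Pool.Agent.H766Z.AspDefs

set_option autoImplicit false

namespace Pool.Agent.H766Z.Asp

open Set Filter Topology Cardinal
open scoped BoundedContinuousFunction

abbrev Om : Type := (Cardinal.aleph.{0} 1).ord.ToType

abbrev I : Type := Om × ℝ

theorem mk_Om : #Om = ℵ₁ := mk_ord_toType _

theorem exists_above {S : Set Om} (hS : S.Countable) : ∃ ρ : Om, ∀ a ∈ S, a < ρ := by
  by_contra hcon
  push Not at hcon
  have h1 : (⋃ a ∈ S, Iic a).Countable := by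
    refine hS.biUnion fun a _ => ?_
    rw [← Iio_insert]
    refine Countable.insert _ ?_
    rw [← le_aleph0_iff_set_countable, ← lt_aleph_one_iff]
    exact (mk_Iio_lt a (by simp)).trans_eq mk_Om
  have h2 : (⋃ a ∈ S, Iic a) = Set.univ := by
    refine eq_univ_of_forall fun ρ => ?_
    obtain ⟨a, ha, h⟩ := hcon ρ
    exact mem_biUnion ha h
  rw [h2, ← le_aleph0_iff_set_countable, ← lt_aleph_one_iff, mk_univ, mk_Om] at h1
  exact lt_irrefl _ h1

theorem le_prod {α β : Type} (ha : #α ≤ 𝔠) (hb : #β ≤ 𝔠) : #(α × β) ≤ 𝔠 := by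
  rw [mk_prod, lift_id, lift_id]
  exact (mul_le_mul' ha hb).trans continuum_mul_self.le

theorem le_list {α : Type} (ha : #α ≤ 𝔠) : #(List α) ≤ 𝔠 :=
  (mk_list_le_max α).trans (max_le aleph0_le_continuum ha)

theorem le_fun {ι α : Type} [Countable ι] (ha : #α ≤ 𝔠) : #(ι → α) ≤ 𝔠 := by
  rw [mk_arrow, lift_id, lift_id]
  refine (power_le_power_right ha).trans ?_
  refine (power_le_power_left continuum_ne_zero (mk_le_aleph0 (α := ι))).trans ?_
  exact continuum_power_aleph0.le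

theorem mk_I : #I ≤ 𝔠 := le_prod (mk_Om.le.trans aleph_one_le_continuum) mk_real.le

theorem mk_X : #X ≤ 𝔠 :=
  (mk_le_of_injective (f := fun x : X => (x : ℕ → ℝ)) DFunLike.coe_injective).trans
    (le_fun mk_real.le)

theorem mk_Code : #(Code I) ≤ 𝔠 :=
  le_prod mk_real.le (le_fun (le_prod (le_prod mk_X mk_real.le)
    (le_prod mk_real.le (le_list (le_prod mk_I mk_real.le)))))

theorem mk_Seq : #(ℕ → (I →₀ ℝ)) ≤ 𝔠 := by
  have : Nonempty Om := by
    rw [← mk_ne_zero_iff, mk_Om]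
    exact (aleph_pos 1).ne'
  refine le_fun ?_
  rw [mk_finsupp_of_infinite']
  exact max_le mk_I mk_real.le

theorem exists_surj {α : Type} [Nonempty α] (h : #α ≤ 𝔠) : ∃ e : ℝ → α, Function.Surjective e := by
  rw [← mk_real] at h
  obtain ⟨f⟩ := (le_def _ _).1 h
  exact ⟨_, Function.invFun_surjective f.injective⟩

theorem exists_functional {V : Type} [AddCommGroup V] [Module ℝ V] (u : ℕ → V) :
    ∃ ψ : V →ₗ[ℝ] ℝ, LinearIndependent ℝ u → ∀ n, ψ (u n) = n := by
  by_cases h : LinearIndependent ℝ u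
  · obtain ⟨g, hg⟩ := LinearMap.exists_extend
      ((Finsupp.linearCombination ℝ fun n : ℕ => (n : ℝ)) ∘ₗ h.repr)
    refine ⟨g, fun _ n => ?_⟩
    have h1 := LinearMap.congr_fun hg ⟨u n, Submodule.subset_span ⟨n, rfl⟩⟩
    simp only [LinearMap.comp_apply, Submodule.subtype_apply] at h1
    rw [h1, h.repr_eq_single n _ rfl]
    simp
  · exact ⟨0, fun h' => absurd h' h⟩

abbrev Z : Type := X × (I → ℝ)

theorem exists_family : ∃ P : I → Z,
    (∀ (G : ℕ → Set Z), (∀ n, IsOpen (G n)) → (∀ n, Dense (G n)) → ∀ U : Set Z, IsOpen U →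
      U.Nonempty → ∃ α, P α ∈ U ∧ ∀ n, P α ∈ G n) ∧
    (LinearIndependent ℝ fun α => (P α).1) ∧
    ∀ u : ℕ → (I →₀ ℝ), LinearIndependent ℝ u →
      ∃ β, ∀ n, (Finsupp.linearCombination ℝ P (u n)).2 β = n := by
  classical
  obtain ⟨eA, heA⟩ := exists_surj mk_Code
  obtain ⟨eB, heB⟩ := exists_surj mk_Seq
  choose ψ hψ using exists_functional (V := I →₀ ℝ)
  obtain ⟨q, hq, hind⟩ := transversal mk_I
    (fun α : I => if Active (C (eA α.2)) then C (eA α.2) else Set.univ) (fun α => by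
      split_ifs with h
      · exact h
      · exact active_univ)
  refine ⟨fun α => ((q α).1, fun β => if β.1 < α.1 then (q α).2 β
    else ψ (eB β.2) (Finsupp.single α 1)), ?_, hind, ?_⟩
  · intro G hG hd U hU hne
    obtain ⟨k, hk, hkU, hkG⟩ := exists_code G hG hd hU hne
    obtain ⟨ρ, hρ⟩ := exists_above ((ment_countable k).image Prod.fst)
    obtain ⟨s, rfl⟩ := heA k
    have h1 := hq (ρ, s)
    simp only [if_pos hk] at h1
    have h2 := C_congr h1 (fun β => if β.1 < ρ then (q (ρ, s)).2 β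
      else ψ (eB β.2) (Finsupp.single (ρ, s) 1)) fun β hβ => if_pos (hρ _ ⟨β, hβ, rfl⟩)
    exact ⟨(ρ, s), hkU h2, fun n => hkG n h2⟩
  · intro u hu
    obtain ⟨ρ, hρ⟩ := exists_above (S := Prod.fst '' ⋃ n, ((u n).support : Set I))
      ((countable_iUnion fun n => (u n).support.countable_toSet).image _)
    obtain ⟨s, rfl⟩ := heB u
    refine ⟨(ρ, s), fun n => ?_⟩
    rw [← hψ _ hu n]
    conv_rhs => rw [← Finsupp.sum_single (eB s n)]
    rw [Finsupp.linearCombination_apply, Finsupp.sum, Finsupp.sum, Prod.snd_sum, Finset.sum_apply,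
      map_sum]
    refine Finset.sum_congr rfl fun α hα => ?_
    have h1 : ¬ ρ < α.1 := not_lt.2 (hρ _ ⟨α, mem_iUnion.2 ⟨n, hα⟩, rfl⟩).le
    simp only [Prod.smul_snd, Pi.smul_apply, if_neg h1]
    rw [← map_smul, Finsupp.smul_single, smul_eq_mul, mul_one]

section final

variable {Y : Type} [AddCommGroup Y] [Module ℝ Y] [TopologicalSpace Y]

theorem bounded_finite {A B : Type} (P : A → Y) (φ : B → Y →L[ℝ] ℝ)
    (h3 : ∀ u : ℕ → (A →₀ ℝ), LinearIndependent ℝ u →
      ∃ β, ∀ n, φ β (Finsupp.linearCombination ℝ P (u n)) = n)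
    (S : Set (LinearMap.range (Finsupp.linearCombination ℝ P)))
    (hS : Bornology.IsVonNBounded ℝ S) : FiniteDimensional ℝ (Submodule.span ℝ S) := by
  obtain ⟨b, hbS, hspan, hb⟩ := exists_linearIndependent ℝ S
  rw [← hspan]
  by_cases hfin : b.Finite
  · exact FiniteDimensional.span_of_finite ℝ hfin
  exfalso
  let j := Set.Infinite.natEmbedding b hfin
  have h5 : ∀ n, ∃ u, Finsupp.linearCombination ℝ P u = (j n).1.1 := fun n => (j n).1.2
  choose u hu using h5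
  have h6 : LinearIndependent ℝ u := by
    apply LinearIndependent.of_comp (Finsupp.linearCombination ℝ P)
    have h7 := (hb.comp j j.injective).map' (Submodule.subtype _) (Submodule.ker_subtype _)
    have e : (Finsupp.linearCombination ℝ P) ∘ u =
        (Submodule.subtype _) ∘ (Subtype.val ∘ j) := funext hu
    rw [e]
    exact h7
  obtain ⟨β, hβ⟩ := h3 u h6
  let ψ : LinearMap.range (Finsupp.linearCombination ℝ P) →L[ℝ] ℝ :=
    (φ β).comp (Submodule.subtypeL _)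
  obtain ⟨r, hr⟩ := (NormedSpace.isVonNBounded_iff' ℝ).1 (hS.image ψ)
  obtain ⟨n, hn⟩ := exists_nat_gt r
  have h8 := hr _ ⟨(j n).1, hbS (j n).2, rfl⟩
  have h9 : ψ (j n).1 = n := by
    rw [← hβ n, hu n]
    rfl
  rw [h9, Real.norm_natCast] at h8
  linarith

theorem dual_separable [IsTopologicalAddGroup Y] [ContinuousSMul ℝ Y] (π : ℕ → Y →L[ℝ] ℝ)
    (hπ : ∀ y, (∀ n, π n y = 0) → y = 0)
    (hb : ∀ S : Set Y, Bornology.IsVonNBounded ℝ S → FiniteDimensional ℝ (Submodule.span ℝ S)) :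
    TopologicalSpace.SeparableSpace (StrongDual ℝ Y) := by
  have h1 : TopologicalSpace.IsSeparable
      (Submodule.span ℝ (range π) : Set (StrongDual ℝ Y)) :=
    (countable_range π).isSeparable.span
  have h2 : Dense (Submodule.span ℝ (range π) : Set (StrongDual ℝ Y)) := by
    intro φ
    rw [mem_closure_iff_nhds]
    intro t ht
    rw [← map_add_left_nhds_zero, mem_map] at ht
    obtain ⟨⟨S, V⟩, ⟨hS, hV⟩, hSV⟩ := ContinuousLinearMap.hasBasis_nhds_zero.mem_iff.1 ht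
    have := hb S hS
    have h3 : (φ : Y →ₗ[ℝ] ℝ) ∘ₗ (Submodule.span ℝ S).subtype ∈ Submodule.span ℝ
        (range fun n => (π n : Y →ₗ[ℝ] ℝ) ∘ₗ (Submodule.span ℝ S).subtype) := by
      refine FiniteDimensional.mem_span_of_iInf_ker_le_ker fun x hx => ?_
      simp only [Submodule.mem_iInf, LinearMap.mem_ker] at hx ⊢
      have : x.1 = 0 := hπ _ hx
      simp [this]
    obtain ⟨c, hc⟩ := Finsupp.mem_span_range_iff_exists_finsupp.1 h3
    have h4 : c.sum (fun n a => a • π n) ∈ Submodule.span ℝ (range π) :=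
      Finsupp.mem_span_range_iff_exists_finsupp.2 ⟨c, rfl⟩
    refine ⟨c.sum fun n a => a • π n, ?_, h4⟩
    have h5 : c.sum (fun n a => a • π n) - φ ∈
        {f : Y →L[ℝ] ℝ | ∀ x ∈ S, f x ∈ V} := by
      intro x hx
      have h6 := LinearMap.congr_fun hc ⟨x, Submodule.subset_span hx⟩
      simp only [Finsupp.sum, LinearMap.sum_apply, LinearMap.smul_apply, LinearMap.comp_apply,
        Submodule.subtype_apply, ContinuousLinearMap.coe_coe] at h6
      simp only [Finsupp.sum, ContinuousLinearMap.sub_apply, ContinuousLinearMap.sum_apply,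
        ContinuousLinearMap.smul_apply, h6, sub_self]
      exact mem_of_mem_nhds hV
    have h7 := hSV h5
    simpa using h7
  rw [← TopologicalSpace.isSeparable_univ_iff, ← h2.closure_eq]
  exact h1.closure

theorem baire_of_meets (E : Set Y)
    (h : ∀ (G : ℕ → Set Y), (∀ n, IsOpen (G n)) → (∀ n, Dense (G n)) → ∀ U : Set Y, IsOpen U →
      U.Nonempty → ∃ e ∈ E, e ∈ U ∧ ∀ n, e ∈ G n) : Dense E ∧ BaireSpace E := by
  have hE : Dense E := by
    rw [dense_iff_inter_open]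
    intro U hU hne
    obtain ⟨e, h1, h2, _⟩ := h (fun _ => Set.univ) (fun _ => isOpen_univ) (fun _ => dense_univ) U
      hU hne
    exact ⟨e, h2, h1⟩
  refine ⟨hE, ⟨fun G hG hd => ?_⟩⟩
  have h1 : ∀ n, ∃ G' : Set Y, IsOpen G' ∧ Subtype.val ⁻¹' G' = G n := fun n =>
    isOpen_induced_iff.1 (hG n)
  choose G' hG' hG'' using h1
  have h2 : ∀ n, Dense (G' n) := by
    intro n
    rw [dense_iff_inter_open]
    intro U hU hne
    obtain ⟨e, he1, he2⟩ := hE.inter_open_nonempty U hU hne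
    obtain ⟨x, hx1, hx2⟩ := (hd n).inter_open_nonempty (Subtype.val ⁻¹' U)
      (hU.preimage continuous_subtype_val) ⟨⟨e, he2⟩, he1⟩
    rw [← hG''] at hx2
    exact ⟨x.1, hx1, hx2⟩
  rw [dense_iff_inter_open]
  rintro U hU ⟨x, hx⟩
  obtain ⟨U', hU', rfl⟩ := isOpen_induced_iff.1 hU
  obtain ⟨e, he1, he2, he3⟩ := h G' hG' h2 U' hU' ⟨x.1, hx⟩
  refine ⟨⟨e, he1⟩, he2, mem_iInter.2 fun n => ?_⟩
  rw [← hG'']
  exact he3 n

theorem not_gateaux {f : Y → ℝ} {x w : Y} (h : ∀ t : ℝ, f x + |t| / 2 ≤ f (x + t • w)) :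
    ¬ GateauxDiffAt f x := by
  rintro ⟨φ, hφ⟩
  obtain ⟨δ, hδ, h1⟩ := hφ w (1 / 2) (by norm_num)
  have hp : 0 < δ / 2 := half_pos hδ
  have a1 := h1 (δ / 2) (by rwa [abs_of_pos hp]) (by rw [abs_of_pos hp]; linarith)
  have a2 := h1 (-(δ / 2)) (by rwa [abs_neg, abs_of_pos hp])
    (by rw [abs_neg, abs_of_pos hp]; linarith)
  have b1 := h (δ / 2)
  have b2 := h (-(δ / 2))
  rw [abs_of_pos hp] at b1
  rw [abs_neg, abs_of_pos hp] at b2
  have c1 : 1 / 2 ≤ (f (x + (δ / 2) • w) - f x) / (δ / 2) := by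
    rw [le_div_iff₀ hp]
    linarith
  have c2 : (f (x + (-(δ / 2)) • w) - f x) / (-(δ / 2)) ≤ -(1 / 2) := by
    rw [div_neg, neg_le_neg_iff, le_div_iff₀ hp]
    linarith
  have := (abs_lt.1 a1).2
  have := (abs_lt.1 a2).1
  linarith

theorem not_asplund [IsTopologicalAddGroup Y] [ContinuousSMul ℝ Y] {f : Y → ℝ} (hc : Continuous f) (hf : ConvexOn ℝ Set.univ f)
    (h : ∀ x, ¬ GateauxDiffAt f x) : ¬ IsAsplund Y := by
  intro hA
  obtain ⟨G, -, -, h1, h2⟩ := hA Set.univ univ_nonempty isOpen_univ convex_univ f hf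
    hc.continuousOn
  obtain ⟨x, hx⟩ := closure_nonempty_iff.1 ⟨0, h1 trivial⟩
  obtain ⟨φ, hφ⟩ := h2 x hx
  refine h x ⟨φ, fun w ε hε => ?_⟩
  obtain ⟨δ, hδ, h3⟩ := hφ {w} (Bornology.isVonNBounded_singleton w) ε hε
  exact ⟨δ, hδ, fun t a b => h3 t a b w rfl⟩

theorem final [IsTopologicalAddGroup Y] [ContinuousSMul ℝ Y] [T2Space Y] [LocallyConvexSpace ℝ Y]
    {A B : Type} (P : A → Y) (π : ℕ → Y →L[ℝ] ℝ) (φ : B → Y →L[ℝ] ℝ) (f : Y → ℝ)
    (h1 : ∀ (G : ℕ → Set Y), (∀ n, IsOpen (G n)) → (∀ n, Dense (G n)) → ∀ U : Set Y, IsOpen U →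
      U.Nonempty → ∃ α, P α ∈ U ∧ ∀ n, P α ∈ G n)
    (h2 : ∀ u, (∀ n, π n (Finsupp.linearCombination ℝ P u) = 0) → u = 0)
    (h3 : ∀ u : ℕ → (A →₀ ℝ), LinearIndependent ℝ u →
      ∃ β, ∀ n, φ β (Finsupp.linearCombination ℝ P (u n)) = n)
    (hc : Continuous f) (hf : ConvexOn ℝ Set.univ f)
    (hk : ∀ x, ∃ U : Set Y, IsOpen U ∧ U.Nonempty ∧
      ∀ w ∈ U, ∀ t : ℝ, f x + |t| / 2 ≤ f (x + t • w)) :
    ∃ (E : Type) (_ : AddCommGroup E) (_ : Module ℝ E) (_ : TopologicalSpace E)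
      (_ : IsTopologicalAddGroup E) (_ : ContinuousSMul ℝ E),
      T2Space E ∧ LocallyConvexSpace ℝ E ∧ BaireSpace E ∧
      TopologicalSpace.SeparableSpace (StrongDual ℝ E) ∧ ¬ IsAsplund E ∧
      ∃ g : E → ℝ, Continuous g ∧ ConvexOn ℝ Set.univ g ∧ ∀ x, ¬ GateauxDiffAt g x := by
  let E : Submodule ℝ Y := LinearMap.range (Finsupp.linearCombination ℝ P)
  obtain ⟨hd, hB⟩ := baire_of_meets (E : Set Y) (fun G hG hd U hU hne => by
    obtain ⟨α, a1, a2⟩ := h1 G hG hd U hU hne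
    exact ⟨P α, ⟨Finsupp.single α 1, by simp⟩, a1, a2⟩)
  have hgc : Continuous fun e : E => f e.1 := hc.comp continuous_subtype_val
  have hgf : ConvexOn ℝ Set.univ fun e : E => f e.1 :=
    ⟨convex_univ, fun x _ y _ a b ha hb hab => hf.2 trivial trivial ha hb hab⟩
  have hng : ∀ x, ¬ GateauxDiffAt (fun e : E => f e.1) x := by
    intro x
    obtain ⟨U, hU, hne, hw⟩ := hk x.1
    obtain ⟨w, hw1, hw2⟩ := hd.inter_open_nonempty U hU hne
    exact not_gateaux (w := ⟨w, hw2⟩) fun t => hw w hw1 t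
  refine ⟨E, inferInstance, inferInstance, inferInstance, inferInstance, inferInstance,
    inferInstance, inferInstance, hB, ?_, not_asplund hgc hgf hng, _, hgc, hgf, hng⟩
  refine dual_separable (fun n => (π n).comp E.subtypeL) ?_ (bounded_finite P φ h3)
  rintro ⟨_, u, rfl⟩ h
  have := h2 u h
  subst this
  exact Subtype.ext (map_zero _)

end final

theorem counterexample :
    ∃ (E : Type) (_ : AddCommGroup E) (_ : Module ℝ E) (_ : TopologicalSpace E)
      (_ : IsTopologicalAddGroup E) (_ : ContinuousSMul ℝ E),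
      T2Space E ∧ LocallyConvexSpace ℝ E ∧ BaireSpace E ∧
      TopologicalSpace.SeparableSpace (StrongDual ℝ E) ∧ ¬ IsAsplund E ∧
      ∃ g : E → ℝ, Continuous g ∧ ConvexOn ℝ Set.univ g ∧ ∀ x, ¬ GateauxDiffAt g x := by
  obtain ⟨P, h1, h2, h3⟩ := exists_family
  refine final (Y := Z) P
    (fun n => (BoundedContinuousFunction.evalCLM ℝ n).comp (ContinuousLinearMap.fst ℝ X (I → ℝ)))
    (fun β => (ContinuousLinearMap.proj β).comp (ContinuousLinearMap.snd ℝ X (I → ℝ)))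
    (fun p => ls p.1) h1 ?_ h3 (ls_cont.comp continuous_fst) ?_ ?_
  · intro u hu
    refine linearIndependent_iff.1 h2 u ?_
    have h4 : Finsupp.linearCombination ℝ (fun α => (P α).1) u =
        (Finsupp.linearCombination ℝ P u).1 := by
      rw [Finsupp.linearCombination_apply, Finsupp.linearCombination_apply, Finsupp.sum,
        Finsupp.sum, Prod.fst_sum]
      rfl
    rw [h4]
    ext n
    exact hu n
  · exact ⟨convex_univ, fun x _ y _ a b ha hb hab => ls_convex.2 trivial trivial ha hb hab⟩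
  · intro x
    obtain ⟨v, hv⟩ := ls_kink x.1
    refine ⟨Prod.fst ⁻¹' Metric.ball v (1 / 2), Metric.isOpen_ball.preimage continuous_fst,
      ⟨(v, 0), Metric.mem_ball_self (by norm_num)⟩, fun w hw t => hv w.1 (le_of_lt hw) t⟩

end Pool.Agent.H766Z.Asp
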