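import Mathlib

set_option autoImplicit false

namespace Pool.Agent.H766Z.Asp

open Set Filter Topology

section tree

variable {M B : Type} [MetricSpace M]

/-- state: centre, radius, list of controlled coordinates -/
abbrev St (M B : Type) := ((M × ℝ) × (B → ℝ)) × ℝ × List B

def cbS (s : St M B) : Set ((M × ℝ) × (B → ℝ)) :=
  {q | dist q.1 s.1.1 ≤ s.2.1 ∧ ∀ β ∈ s.2.2, |q.2 β - s.1.2 β| ≤ s.2.1}

theorem exists_cbS {O : Set ((M × ℝ) × (B → ℝ))} (hO : IsOpen O) {q : (M × ℝ) × (B → ℝ)}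
    (hq : q ∈ O) {ε : ℝ} (hε : 0 < ε) :
    ∃ s : St M B, 0 < s.2.1 ∧ s.2.1 ≤ ε ∧ cbS s ⊆ O := by
  classical
  have h1 := hO.mem_nhds hq
  rw [← Prod.mk.eta (p := q), mem_nhds_prod_iff] at h1
  obtain ⟨u, hu, v, hv, huv⟩ := h1
  obtain ⟨r1, hr1, hu1⟩ := Metric.nhds_basis_closedBall.mem_iff.1 hu
  rw [nhds_pi, Filter.mem_pi] at hv
  obtain ⟨I, hI, t, ht, htv⟩ := hv
  have h2 : ∀ β, ∃ r > 0, Metric.closedBall (q.2 β) r ⊆ t β := fun β =>
    Metric.nhds_basis_closedBall.mem_iff.1 (ht β)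
  choose r hr hrt using h2
  obtain ⟨r2, hr2, hr2'⟩ : ∃ r2 > 0, ∀ β ∈ I, r2 ≤ r β := by
    have : ∀ᶠ x in 𝓝[>] (0 : ℝ), ∀ β ∈ I, x ≤ r β := by
      rw [eventually_all_finite hI]
      intro β _
      exact mem_nhdsWithin_of_mem_nhds (Iic_mem_nhds (hr β))
    obtain ⟨x, hx1, hx2⟩ := (this.and self_mem_nhdsWithin).exists
    exact ⟨x, hx2, hx1⟩
  refine ⟨(q, min ε (min r1 r2), hI.toFinset.toList), by positivity, min_le_left _ _, ?_⟩
  intro p hp
  apply huv
  refine ⟨hu1 ?_, htv ?_⟩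
  · exact hp.1.trans ((min_le_right _ _).trans (min_le_left _ _))
  · intro β hβ
    apply hrt β
    have := hp.2 β (by simpa using hβ)
    rw [Metric.mem_closedBall, Real.dist_eq]
    exact this.trans ((min_le_right _ _).trans ((min_le_right _ _).trans (hr2' β hβ)))

theorem center_mem {s : St M B} (hs : 0 < s.2.1) : s.1 ∈ cbS s :=
  ⟨by simpa using hs.le, fun β _ => by simpa using hs.le⟩

theorem step {H : Set ((M × ℝ) × (B → ℝ))} (hH : IsOpen H) (hd : Dense H) (s : St M B) (b : Bool)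
    (hs : 0 < s.2.1) :
    ∃ s' : St M B, 0 < s'.2.1 ∧ s'.2.1 ≤ s.2.1 / 2 ∧ cbS s' ⊆ cbS s ∧ cbS s' ⊆ H ∧
      ∀ q ∈ cbS s', (b = true → s.1.1.2 < q.1.2) ∧ (b = false → q.1.2 < s.1.1.2) := by
  let O : Set ((M × ℝ) × (B → ℝ)) :=
    {q | dist q.1 s.1.1 < s.2.1} ∩ (⋂ β ∈ {β | β ∈ s.2.2}, {q | |q.2 β - s.1.2 β| < s.2.1}) ∩
      {q | 0 < (if b then 1 else -1) * (q.1.2 - s.1.1.2)}
  have hO : IsOpen O := by
    refine (IsOpen.inter ?_ ?_).inter ?_
    · exact isOpen_lt (by fun_prop) continuous_const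
    · refine Set.Finite.isOpen_biInter (List.finite_toSet _) fun β _ => ?_
      exact isOpen_lt (by fun_prop) continuous_const
    · exact isOpen_lt continuous_const (by fun_prop)
  have hne : O.Nonempty := by
    refine ⟨((s.1.1.1, s.1.1.2 + (if b then 1 else -1) * (s.2.1 / 2)), s.1.2), ⟨?_, ?_⟩, ?_⟩
    · simp only [mem_ofPred_eq, Prod.dist_eq, dist_self, Real.dist_eq]
      refine max_lt hs ?_
      cases b <;> simp [abs_of_pos hs, abs_div] <;> linarith
    · simp [hs]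
    · cases b <;> simp <;> linarith
  obtain ⟨q, hqO, hqH⟩ := hd.inter_open_nonempty O hO hne
  obtain ⟨s', h1, h2, h3⟩ := exists_cbS (hO.inter hH) ⟨hqO, hqH⟩ (half_pos hs)
  refine ⟨s', h1, h2, ?_, fun p hp => (h3 hp).2, ?_⟩
  · intro p hp
    obtain ⟨⟨⟨a1, a2⟩, _⟩, _⟩ := h3 hp
    refine ⟨le_of_lt a1, fun β hβ => ?_⟩
    simp only [mem_iInter, mem_ofPred_eq] at a2
    exact (a2 β hβ).le
  · intro p hp
    obtain ⟨⟨_, a3⟩, _⟩ := h3 hp
    simp only [mem_ofPred_eq] at a3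
    constructor
    · rintro rfl
      simp at a3
      linarith
    · rintro rfl
      simp at a3
      linarith

theorem limit [CompleteSpace M] (s : ℕ → St M B) (hpos : ∀ n, 0 < (s n).2.1)
    (hhalf : ∀ n, (s (n + 1)).2.1 ≤ (s n).2.1 / 2) (hsub : ∀ n, cbS (s (n + 1)) ⊆ cbS (s n)) :
    ∃ q, ∀ n, q ∈ cbS (s n) := by
  have hanti : Antitone fun n => cbS (s n) := antitone_nat_of_succ_le hsub
  have hmem : ∀ m n, m ≤ n → (s n).1 ∈ cbS (s m) := fun m n h => hanti h (center_mem (hpos n))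
  have hr : ∀ n, (s n).2.1 ≤ (s 0).2.1 / 2 ^ n := by
    intro n
    induction n with
    | zero => simp
    | succ n ih =>
      refine (hhalf n).trans ?_
      rw [pow_succ, ← div_div]
      linarith
  have hc : CauchySeq fun n => (s n).1.1 := by
    refine cauchySeq_of_le_geometric_two (C := 2 * (s 0).2.1) fun n => ?_
    rw [dist_comm]
    refine (hmem n (n + 1) (by omega)).1.trans ((hr n).trans (le_of_eq ?_))
    ring
  obtain ⟨a, ha⟩ := cauchySeq_tendsto_of_complete hc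
  have h2 : ∀ β : B, ∃ y : ℝ, ∀ m, β ∈ (s m).2.2 → |y - (s m).1.2 β| ≤ (s m).2.1 := by
    intro β
    by_cases h : ∃ m, β ∈ (s m).2.2
    · obtain ⟨m0, hm0⟩ := h
      have hev : ∀ m, β ∈ (s m).2.2 → ∀ᶠ n in (hyperfilter ℕ : Filter ℕ),
          (s n).1.2 β ∈ Metric.closedBall ((s m).1.2 β) (s m).2.1 := by
        intro m hm
        refine (Nat.hyperfilter_le_atTop) ?_
        filter_upwards [eventually_ge_atTop m] with n hn
        rw [Metric.mem_closedBall, Real.dist_eq]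
        exact (hmem m n hn).2 β hm
      obtain ⟨y, _, hy⟩ := (isCompact_closedBall ((s m0).1.2 β) (s m0).2.1).ultrafilter_le_nhds
        ((hyperfilter ℕ).map fun n => (s n).1.2 β) (by
          rw [le_principal_iff]
          exact hev m0 hm0)
      refine ⟨y, fun m hm => ?_⟩
      have := Metric.isClosed_closedBall.mem_of_tendsto (f := fun n => (s n).1.2 β)
        (b := (hyperfilter ℕ : Filter ℕ)) hy (hev m hm)
      rwa [Metric.mem_closedBall, Real.dist_eq] at this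
    · exact ⟨0, fun m hm => absurd ⟨m, hm⟩ h⟩
  choose y hy using h2
  refine ⟨(a, y), fun n => ⟨?_, fun β hβ => hy β n hβ⟩⟩
  have : ∀ᶠ k in atTop, (s k).1.1 ∈ Metric.closedBall (s n).1.1 (s n).2.1 := by
    filter_upwards [eventually_ge_atTop n] with k hk
    exact (hmem n k hk).1
  exact Metric.isClosed_closedBall.mem_of_tendsto ha this

def pre (σ : ℕ → Bool) : ℕ → List Bool
  | 0 => []
  | n + 1 => σ n :: pre σ n

theorem pre_length (σ : ℕ → Bool) (n : ℕ) : (pre σ n).length = n := by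
  induction n with
  | zero => rfl
  | succ n ih => simp [pre, ih]

theorem pre_congr {σ τ : ℕ → Bool} {n : ℕ} (h : ∀ i < n, σ i = τ i) : pre σ n = pre τ n := by
  induction n with
  | zero => rfl
  | succ n ih =>
    simp only [pre]
    rw [h n (by omega), ih fun i hi => h i (by omega)]

theorem tree [CompleteSpace M] (H : ℕ → Set ((M × ℝ) × (B → ℝ))) (hH : ∀ n, IsOpen (H n))
    (hd : ∀ n, Dense (H n)) {V : Set ((M × ℝ) × (B → ℝ))} (hV : IsOpen V) (hne : V.Nonempty) :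
    ∃ node : List Bool → St M B, cbS (node []) ⊆ V ∧
      (∀ b l, cbS (node (b :: l)) ⊆ H l.length) ∧
      ∃ P : (ℕ → Bool) → (M × ℝ) × (B → ℝ), (∀ σ n, P σ ∈ cbS (node (pre σ n))) ∧
        Function.Injective fun σ => (P σ).1.2 := by
  obtain ⟨q0, hq0⟩ := hne
  obtain ⟨s0, hs0, -, hs0V⟩ := exists_cbS hV hq0 one_pos
  have hstep : ∀ (n : ℕ) (b : Bool) (s : {s : St M B // 0 < s.2.1}),
      ∃ s' : {s : St M B // 0 < s.2.1}, s'.1.2.1 ≤ s.1.2.1 / 2 ∧ cbS s'.1 ⊆ cbS s.1 ∧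
        cbS s'.1 ⊆ H n ∧ ∀ q ∈ cbS s'.1,
          (b = true → s.1.1.1.2 < q.1.2) ∧ (b = false → q.1.2 < s.1.1.1.2) := by
    intro n b s
    obtain ⟨s', h1, h2⟩ := step (hH n) (hd n) s.1 b s.2
    exact ⟨⟨s', h1⟩, h2⟩
  choose nx hnx using hstep
  let node : List Bool → {s : St M B // 0 < s.2.1} := fun l =>
    List.rec ⟨s0, hs0⟩ (fun b l s => nx l.length b s) l
  have hcons : ∀ b l, node (b :: l) = nx l.length b (node l) := fun _ _ => rfl
  have hP : ∀ σ : ℕ → Bool, ∃ q, ∀ n, q ∈ cbS (node (pre σ n)).1 := by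
    intro σ
    refine limit (fun n => (node (pre σ n)).1) (fun n => (node (pre σ n)).2) (fun n => ?_)
      fun n => ?_
    · simp only [pre, hcons]
      exact (hnx _ _ _).1
    · simp only [pre, hcons]
      exact (hnx _ _ _).2.1
  choose P hP using hP
  refine ⟨fun l => (node l).1, hs0V, fun b l => ?_, P, hP, ?_⟩
  · simp only [hcons]
    exact (hnx _ _ _).2.2.1
  · intro σ τ hστ
    by_contra hne
    have hex : ∃ n, σ n ≠ τ n := Function.ne_iff.1 hne
    have hn := Nat.find_spec hex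
    have hpre : pre σ (Nat.find hex) = pre τ (Nat.find hex) :=
      pre_congr fun i hi => by simpa using Nat.find_min hex hi
    have h1 := hP σ (Nat.find hex + 1)
    have h2 := hP τ (Nat.find hex + 1)
    simp only [pre, hcons] at h1 h2
    rw [← hpre] at h2
    have h3 := (hnx _ _ _).2.2.2 _ h1
    have h4 := (hnx _ _ _).2.2.2 _ h2
    simp only at hστ
    cases hσ : σ (Nat.find hex) <;> cases hτ : τ (Nat.find hex)
    · exact hn (hσ.trans hτ.symm)
    · have := h3.2 hσ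
      have := h4.1 hτ
      linarith
    · have := h3.1 hσ
      have := h4.2 hτ
      linarith
    · exact hn (hσ.trans hτ.symm)

end tree

end Pool.Agent.H766Z.Asp
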