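import Mathlib

set_option autoImplicit false

namespace Pool.Agent.H766Z.Lift2

/-- The 4-cycle `0 1 2 3` with pendant edges `2 4` and `3 5`. -/
def gE (u v : Fin 6) : Bool :=
  decide ((u, v) ∈ ([(0, 1), (1, 2), (2, 3), (3, 0), (2, 4), (3, 5),
    (1, 0), (2, 1), (3, 2), (0, 3), (4, 2), (5, 3)] : List (Fin 6 × Fin 6)))

def G : SimpleGraph (Fin 6) where
  Adj u v := gE u v = true
  symm := ⟨by decide⟩
  loopless := ⟨by decide⟩

instance : DecidableRel G.Adj := fun u v => inferInstanceAs (Decidable (gE u v = true))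

def sg (u v : Fin 6) : Bool := decide ((u = 0 ∧ v = 1) ∨ (u = 1 ∧ v = 0))

def H : SimpleGraph (Fin 6 × Bool) where
  Adj x y := gE x.1 y.1 = true ∧ y.2 = xor x.2 (sg x.1 y.1)
  symm := ⟨by decide⟩
  loopless := ⟨by decide⟩

instance : DecidableRel H.Adj := fun x y =>
  inferInstanceAs (Decidable (gE x.1 y.1 = true ∧ y.2 = xor x.2 (sg x.1 y.1)))

def An (i j : Fin 3) : ℕ := ![![22, 25, 0], ![25, 28, 1], ![0, 1, 1]] i j

theorem An_symm : ∀ i j, An i j = An j i := by decide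

def A (z : Sym2 (Fin 3)) : ℝ := ((Sym2.lift ⟨An, An_symm⟩ z : ℕ) : ℝ)

theorem A_mk (i j : Fin 3) : A s(i, j) = (An i j : ℝ) := by simp [A]

theorem G_col : G.Colorable 2 :=
  ⟨SimpleGraph.Coloring.mk (fun v => (![0, 1, 0, 1, 1, 0] : Fin 6 → Fin 2) v) (by decide)⟩

theorem G_edges : G.edgeFinset =
    {s(0, 1), s(1, 2), s(2, 3), s(3, 0), s(2, 4), s(3, 5)} := by decide

theorem H_edges : H.edgeFinset =
    {s((0, false), (1, true)), s((0, true), (1, false)),
     s((1, false), (2, false)), s((2, false), (3, false)), s((3, false), (0, false)),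
     s((2, false), (4, false)), s((3, false), (5, false)),
     s((1, true), (2, true)), s((2, true), (3, true)), s((3, true), (0, true)),
     s((2, true), (4, true)), s((3, true), (5, true))} := by decide

def R (f : Fin 6 → Fin 3) : ℕ :=
  An (f 1) (f 2) * An (f 2) (f 3) * An (f 3) (f 0) * An (f 2) (f 4) * An (f 3) (f 5)

theorem prodG (φ : Fin 6 → Fin 3) :
    ∏ e ∈ G.edgeFinset, A (Sym2.map φ e) = ((An (φ 0) (φ 1) * R φ : ℕ) : ℝ) := by
  rw [G_edges]
  repeat rw [Finset.prod_insert (by decide)]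
  rw [Finset.prod_singleton]
  simp only [Sym2.map_mk, A_mk, R]
  push_cast
  ring

theorem prodH (φ : Fin 6 × Bool → Fin 3) :
    ∏ e ∈ H.edgeFinset, A (Sym2.map φ e) =
      ((R (fun v => φ (v, false)) * (R (fun v => φ (v, true)) *
        (An (φ (0, false)) (φ (1, true)) * An (φ (0, true)) (φ (1, false)))) : ℕ) : ℝ) := by
  rw [H_edges]
  repeat rw [Finset.prod_insert (by decide)]
  rw [Finset.prod_singleton]
  simp only [Sym2.map_mk, A_mk, R]
  push_cast
  ring

def e6 : (Fin 3 × Fin 3 × Fin 3 × Fin 3 × Fin 3 × Fin 3) ≃ (Fin 6 → Fin 3) where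
  toFun x := ![x.1, x.2.1, x.2.2.1, x.2.2.2.1, x.2.2.2.2.1, x.2.2.2.2.2]
  invFun f := (f 0, f 1, f 2, f 3, f 4, f 5)
  left_inv x := by simp
  right_inv f := by
    funext i
    fin_cases i <;> rfl

theorem sum6 (F : (Fin 6 → Fin 3) → ℕ) :
    ∑ f, F f = ∑ a, ∑ b, ∑ c, ∑ d, ∑ e, ∑ g, F ![a, b, c, d, e, g] := by
  rw [← e6.sum_comp F]
  simp only [Fintype.sum_prod_type]
  rfl

def e2 : ((Fin 6 → Fin 3) × (Fin 6 → Fin 3)) ≃ (Fin 6 × Bool → Fin 3) where
  toFun x := fun y => if y.2 = true then x.2 y.1 else x.1 y.1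
  invFun φ := (fun v => φ (v, false), fun v => φ (v, true))
  left_inv x := by simp
  right_inv φ := by
    funext y
    rcases y with ⟨v, b⟩
    cases b <;> simp

def T (a b : Fin 3) : ℕ := ∑ g : Fin 6 → Fin 3, R g * (An a (g 1) * An (g 0) b)

def Tn (i j : Fin 3) : ℕ := ![![363266634338, 409638057900, 8330896000], ![409638057900, 461928849404, 9394344840], ![8330896000, 9394344840, 191054762]] i j

theorem T_eq : ∀ a b, T a b = Tn a b := by
  intro a b
  unfold T
  rw [sum6]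
  revert a b
  decide +kernel

theorem ZG : ∑ φ : Fin 6 → Fin 3, An (φ 0) (φ 1) * R φ = 16444998284 := by
  rw [sum6]
  decide +kernel

theorem ZH : ∑ φ : Fin 6 × Bool → Fin 3,
    R (fun v => φ (v, false)) * (R (fun v => φ (v, true)) *
        (An (φ (0, false)) (φ (1, true)) * An (φ (0, true)) (φ (1, false)))) =
      270437968638124124768 := by
  rw [← e2.sum_comp, Fintype.sum_prod_type]
  have h : ∀ f : Fin 6 → Fin 3, ∑ g : Fin 6 → Fin 3,
      R (fun v => e2 (f, g) (v, false)) * (R (fun v => e2 (f, g) (v, true)) *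
        (An (e2 (f, g) (0, false)) (e2 (f, g) (1, true)) *
          An (e2 (f, g) (0, true)) (e2 (f, g) (1, false)))) = R f * Tn (f 0) (f 1) := by
    intro f
    rw [← T_eq, T, Finset.mul_sum]
    rfl
  simp only [h]
  rw [sum6]
  decide +kernel

theorem main : (∑ φ : Fin 6 → Fin 3, ∏ e ∈ G.edgeFinset, A (Sym2.map φ e)) ^ 2 <
    ∑ φ : Fin 6 × Bool → Fin 3, ∏ e ∈ H.edgeFinset, A (Sym2.map φ e) := by
  simp only [prodG, prodH]
  rw [← Nat.cast_sum, ← Nat.cast_sum, ZG, ZH]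
  norm_num

end Pool.Agent.H766Z.Lift2
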