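import Pool.Agent.H766Z.AspDefs

set_option autoImplicit false

namespace Pool.Agent.H766Z.Asp

/-- `E` is weak Asplund: for every nonempty open convex `D` and every function `f` continuous and
convex on `D` there is a `G_δ` set `G ⊆ D`, dense in `D`, at each point of which `f` is Gateaux
differentiable. -/
def IsWeakAsplund (E : Type) [AddCommGroup E] [Module ℝ E] [TopologicalSpace E] : Prop :=
  ∀ D : Set E, D.Nonempty → IsOpen D → Convex ℝ D → ∀ f : E → ℝ, ConvexOn ℝ D f →
    ContinuousOn f D → ∃ G : Set E, G ⊆ D ∧ IsGδ G ∧ D ⊆ closure G ∧ ∀ x ∈ G, GateauxDiffAt f x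

end Pool.Agent.H766Z.Asp
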