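import Pool.Agent.H766Z.PrSub
import Pool.Agent.H766Z.PrDefs

set_option autoImplicit false

namespace Pool.Agent.H766Z.Pr

open Set Filter Topology
open Pool.Agent.H766Z.Asp

theorem convex_ext {W : Type} [NormedAddCommGroup W] [NormedSpace ℝ W] {B : Set W}
    (hne : B.Nonempty) {h : W → ℝ} (hc : ConvexOn ℝ B h) {K : ℝ} (hK : 0 ≤ K)
    (hl : ∀ x ∈ B, ∀ y ∈ B, h x - h y ≤ K * ‖x - y‖) : ∃ g, CL g K ∧ EqOn g h B := by
  obtain ⟨y0, hy0⟩ := hne
  let g : W → ℝ := fun x => sInf ((fun y => h y + K * ‖x - y‖) '' B)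
  have hb : ∀ x, BddBelow ((fun y => h y + K * ‖x - y‖) '' B) := by
    intro x
    refine ⟨h y0 - K * ‖x - y0‖, ?_⟩
    rintro _ ⟨y, hy, rfl⟩
    have h1 := hl y0 hy0 y hy
    have h2 : ‖y0 - y‖ ≤ ‖x - y0‖ + ‖x - y‖ := by
      have := norm_sub_le (x - y) (x - y0)
      rw [show x - y - (x - y0) = y0 - y by abel] at this
      linarith
    have h3 := mul_le_mul_of_nonneg_left h2 hK
    simp only
    linarith
  have hle : ∀ x, ∀ y ∈ B, g x ≤ h y + K * ‖x - y‖ := fun x y hy => csInf_le (hb x) ⟨y, hy, rfl⟩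
  have hge : ∀ x c, (∀ y ∈ B, c ≤ h y + K * ‖x - y‖) → c ≤ g x := by
    intro x c hc
    refine le_csInf ⟨_, y0, hy0, rfl⟩ ?_
    rintro _ ⟨y, hy, rfl⟩
    exact hc y hy
  have hex : ∀ x, ∀ ε > 0, ∃ y ∈ B, h y + K * ‖x - y‖ < g x + ε := by
    intro x ε hε
    by_contra hcon
    push Not at hcon
    linarith [hge x _ hcon]
  refine ⟨g, ⟨⟨convex_univ, fun x _ x' _ a b ha hb hab => ?_⟩, hK, fun x x' => ?_⟩,
    fun x hx => le_antisymm ?_ ?_⟩
  · refine le_of_forall_pos_le_add fun ε hε => ?_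
    obtain ⟨y, hy, h1⟩ := hex x ε hε
    obtain ⟨y', hy', h2⟩ := hex x' ε hε
    have h3 := hle (a • x + b • x') _ (hc.1 hy hy' ha hb hab)
    have h4 := hc.2 hy hy' ha hb hab
    have h5 : ‖a • x + b • x' - (a • y + b • y')‖ ≤ a * ‖x - y‖ + b * ‖x' - y'‖ := by
      rw [show a • x + b • x' - (a • y + b • y') = a • (x - y) + b • (x' - y') by module]
      refine (norm_add_le _ _).trans ?_
      rw [norm_smul, norm_smul, Real.norm_eq_abs, Real.norm_eq_abs, abs_of_nonneg ha,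
        abs_of_nonneg hb]
    have h6 := mul_le_mul_of_nonneg_left h5 hK
    have h7 := mul_le_mul_of_nonneg_left h1.le ha
    have h8 := mul_le_mul_of_nonneg_left h2.le hb
    have e : ε = a * ε + b * ε := by rw [← add_mul, hab, one_mul]
    simp only [smul_eq_mul] at h4 ⊢
    nlinarith
  · have := hge x' (g x - K * ‖x - x'‖) fun y hy => by
      have h1 := hle x y hy
      have h2 : ‖x - y‖ ≤ ‖x - x'‖ + ‖x' - y‖ := norm_sub_le_norm_sub_add_norm_sub _ _ _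
      have h3 := mul_le_mul_of_nonneg_left h2 hK
      linarith
    linarith
  · simpa using hle x x hx
  · exact hge x _ fun y hy => by linarith [hl x hx y hy]

theorem tb_of_fd {W : Type} [NormedAddCommGroup W] [NormedSpace ℝ W] (V : Submodule ℝ W)
    [FiniteDimensional ℝ V] {S : Set W} (hS : S ⊆ V) {R : ℝ} (hR : ∀ x ∈ S, ‖x‖ ≤ R) :
    TotallyBounded S := by
  refine ((isCompact_closedBall (0 : V) R).image continuous_subtype_val).totallyBounded.subset ?_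
  intro x hx
  exact ⟨⟨x, hS hx⟩, mem_closedBall_zero_iff.2 (hR x hx), rfl⟩

variable {Y : Type} [AddCommGroup Y] [Module ℝ Y] [TopologicalSpace Y]

theorem ker_inv [IsTopologicalAddGroup Y] [ContinuousSMul ℝ Y] {D : Set Y} (hD : IsOpen D)
    {f : Y → ℝ} (hf : ConvexOn ℝ D f) (N : Submodule ℝ Y) {z0 : Y} {M : ℝ}
    (h0 : ∀ u ∈ N, z0 + u ∈ D ∧ f (z0 + u) ≤ M) {z : Y} (hz : z ∈ D) :
    ∀ u ∈ N, z + u ∈ D ∧ f (z + u) = f z := by
  have key : ∀ z ∈ D, ∃ C, ∀ u ∈ N, z + u ∈ D ∧ f (z + u) ≤ C := by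
    intro z hz
    obtain ⟨s, hsD, hs⟩ : ∃ s : ℝ, z + s • (z - z0) ∈ D ∧ 0 < s := by
      have hc : Continuous fun t : ℝ => z + t • (z - z0) := by fun_prop
      have h1 : ∀ᶠ t in 𝓝 (0 : ℝ), z + t • (z - z0) ∈ D :=
        hc.continuousAt.preimage_mem_nhds (hD.mem_nhds (by simpa using hz))
      have h2 : ∀ᶠ t in 𝓝[>] (0 : ℝ), z + t • (z - z0) ∈ D := mem_nhdsWithin_of_mem_nhds h1
      exact (h2.and self_mem_nhdsWithin).exists
    refine ⟨1 / (1 + s) * f (z + s • (z - z0)) + s / (1 + s) * M, fun u hu => ?_⟩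
    obtain ⟨a1, a2⟩ := h0 _ (N.smul_mem ((1 + s) / s) hu)
    have p1 : 0 ≤ 1 / (1 + s) := by positivity
    have p2 : 0 ≤ s / (1 + s) := by positivity
    have p3 : 1 / (1 + s) + s / (1 + s) = 1 := by field_simp
    have e : (1 / (1 + s)) • (z + s • (z - z0)) + (s / (1 + s)) • (z0 + ((1 + s) / s) • u) =
        z + u := by
      match_scalars <;> field_simp
      ring
    have b1 := hf.1 hsD a1 p1 p2 p3
    have b2 := hf.2 hsD a1 p1 p2 p3
    rw [e] at b1 b2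
    refine ⟨b1, b2.trans ?_⟩
    simp only [smul_eq_mul]
    gcongr
  have key2 : ∀ z ∈ D, ∀ u ∈ N, f (z + u) ≤ f z := by
    intro z hz u hu
    obtain ⟨C, hC⟩ := key z hz
    have : f (z + u) - f z ≤ 0 := by
      refine le_zero_of_le_one_div (C := C - f z) (N := 0) fun n _ => ?_
      have hn : (0 : ℝ) < (n : ℝ) + 1 := by positivity
      obtain ⟨a1, a2⟩ := hC _ (N.smul_mem ((n : ℝ) + 1) hu)
      have p1 : 0 ≤ 1 - 1 / ((n : ℝ) + 1) := by
        rw [sub_nonneg, div_le_one hn]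
        linarith [(Nat.cast_nonneg n : (0 : ℝ) ≤ n)]
      have p2 : 0 ≤ 1 / ((n : ℝ) + 1) := by positivity
      have b2 := hf.2 hz a1 p1 p2 (by ring)
      have e : (1 - 1 / ((n : ℝ) + 1)) • z + (1 / ((n : ℝ) + 1)) • (z + ((n : ℝ) + 1) • u) =
          z + u := by
        match_scalars <;> field_simp
        ring
      rw [e] at b2
      simp only [smul_eq_mul] at b2
      nlinarith [mul_le_mul_of_nonneg_left a2 p2]
    linarith
  intro u hu
  obtain ⟨C, hC⟩ := key z hz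
  refine ⟨(hC u hu).1, le_antisymm (key2 z hz u hu) ?_⟩
  simpa using key2 _ (hC u hu).1 (-u) (N.neg_mem hu)

theorem frechet_of {W : Type} [NormedAddCommGroup W] [NormedSpace ℝ W] (π : Y →L[ℝ] W)
    (hπ : ∀ B : Set Y, Bornology.IsVonNBounded ℝ B → TotallyBounded (π '' B)) {f : Y → ℝ} {y : Y}
    {g : W → ℝ} {L r : ℝ} (hg : CL g L) (hr : 0 < r)
    (he : ∀ y', dist (π y') (π y) < r → f y' = g (π y')) (hs : ∀ v, sym g (π y) v ≤ 0) :
    FrechetDiffAt f y := by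
  obtain ⟨φ, hφ⟩ := hg.gateaux hs
  refine ⟨φ.comp π, fun B hB ε hε => ?_⟩
  have hL := hg.pos
  obtain ⟨t, ht, hcov⟩ := Metric.totallyBounded_iff.1 (hπ B hB) (ε / (2 * (L + ‖φ‖ + 1)))
    (by positivity)
  obtain ⟨R, hR0, hR⟩ := (hπ B hB).isBounded.exists_pos_norm_le
  choose δ hδ hδ' using fun v => hφ v (ε / 2) (half_pos hε)
  obtain ⟨d, hd1, hd2, hd3⟩ : ∃ d : ℝ, (∀ v ∈ t, d ≤ δ v) ∧ d < r / R ∧ 0 < d := by
    have h1 : ∀ᶠ x in 𝓝[>] (0 : ℝ), ∀ v ∈ t, x ≤ δ v := by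
      rw [eventually_all_finite ht]
      intro v _
      exact mem_nhdsWithin_of_mem_nhds (Iic_mem_nhds (hδ v))
    have h2 : ∀ᶠ x in 𝓝[>] (0 : ℝ), x < r / R :=
      mem_nhdsWithin_of_mem_nhds (Iio_mem_nhds (by positivity))
    exact (h1.and (h2.and self_mem_nhdsWithin)).exists
  refine ⟨d, hd3, fun τ h1 h2 x hx => ?_⟩
  obtain ⟨v, hv, hxv⟩ := mem_iUnion₂.1 (hcov ⟨x, hx, rfl⟩)
  have a1 := hδ' v τ h1 (h2.trans_le (hd1 v hv))
  have a2 : f (y + τ • x) = g (π y + τ • π x) := by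
    rw [he, map_add, map_smul]
    rw [map_add, map_smul, dist_self_add_left, norm_smul, Real.norm_eq_abs]
    have := hR _ ⟨x, hx, rfl⟩
    rw [lt_div_iff₀ hR0] at hd2
    nlinarith [norm_nonneg (π x)]
  have a3 : f y = g (π y) := he y (by simpa using hr)
  rw [Metric.mem_ball, dist_eq_norm] at hxv
  have a4 : |(g (π y + τ • π x) - g (π y + τ • v)) / τ| ≤ L * ‖π x - v‖ := by
    have b1 := hg.lip (π y + τ • π x) (π y + τ • v)
    have b2 := hg.lip (π y + τ • v) (π y + τ • π x)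
    rw [norm_sub_rev] at b2
    rw [add_sub_add_left_eq_sub, ← smul_sub, norm_smul, Real.norm_eq_abs] at b1 b2
    rw [abs_div, div_le_iff₀ h1, abs_le]
    constructor <;> nlinarith
  have a5 : |φ (π x) - φ v| ≤ ‖φ‖ * ‖π x - v‖ := by
    rw [← map_sub]
    exact φ.le_opNorm _
  have a6 : (L + ‖φ‖) * ‖π x - v‖ ≤ ε / 2 := by
    rw [lt_div_iff₀ (by positivity)] at hxv
    nlinarith [norm_nonneg (π x - v)]
  rw [a2, a3, ContinuousLinearMap.comp_apply]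
  have e : (g (π y + τ • π x) - g (π y)) / τ - φ (π x) =
      (g (π y + τ • π x) - g (π y + τ • v)) / τ + ((g (π y + τ • v) - g (π y)) / τ - φ v) -
        (φ (π x) - φ v) := by ring
  rw [e, abs_lt]
  rw [abs_lt] at a1
  rw [abs_le] at a4 a5
  constructor <;> nlinarith [a1.1, a1.2, a4.1, a4.2, a5.1, a5.2]

theorem asplund_of [IsTopologicalAddGroup Y] [ContinuousSMul ℝ Y] {Z ι : Type}
    [NormedAddCommGroup Z] [NormedSpace ℝ Z] {T : Y →L[ℝ] Z} {Φ : ι → Y →L[ℝ] ℝ} (hG : Good T Φ)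
    (gds : ∀ (J : Finset ι) (g : Z × (J → ℝ) → ℝ) (L : ℝ), CL g L → ∀ U, IsOpen U → U.Nonempty →
      ∃ x ∈ U, ∀ v, sym g x v ≤ 0)
    (i : ℕ → ι) (hi : Function.Injective i) (hi0 : ∀ y, ∀ᶠ k in atTop, Φ (i k) y = 0)
    (u : Y × Finset ι → Z)
    (hu : ∀ ρ : ℝ, 0 < ρ → (∀ j, ‖ρ • u j‖ ≤ ρ) ∧
      ∀ j j', j ≠ j' → ρ ≤ ‖T j.1 + ρ • u j - (T j'.1 + ρ • u j')‖) : IsAsplund Y := by
  classical
  rintro D ⟨z0, hz0⟩ hD - f hf hc
  have hsh : ∀ (y : Y) (O : Set Y), O ∈ 𝓝 y → {w | y + w ∈ O} ∈ 𝓝 (0 : Y) := by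
    intro y O hO
    exact (continuous_const.add continuous_id).continuousAt.preimage_mem_nhds (by simpa using hO)
  obtain ⟨r0, hr0, J, hJ⟩ := hG.basis _ (hsh z0 (D ∩ {y | f y < f z0 + 1})
    (inter_mem (hD.mem_nhds hz0)
      ((hc.continuousAt (hD.mem_nhds hz0)).eventually (gt_mem_nhds (lt_add_one _)))))
  let π : Y →L[ℝ] Z × (J → ℝ) := T.prod (ContinuousLinearMap.pi fun j : J => Φ j)
  have hsmall : ∀ w, ‖π w‖ < r0 → z0 + w ∈ D ∧ f (z0 + w) ≤ f z0 + 1 := by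
    intro w hw
    have := hJ w ((norm_fst_le (π w)).trans_lt hw) fun j hj =>
      ((norm_le_pi_norm (π w).2 ⟨j, hj⟩).trans (norm_snd_le _)).trans_lt hw
    exact ⟨this.1, le_of_lt this.2⟩
  have hopen : ∀ U ∈ 𝓝 (0 : Y), ∃ r > 0, ∀ x : Z × (J → ℝ), ‖x‖ < r → ∃ w ∈ U, π w = x := by
    intro U hU
    obtain ⟨r, hr, J', h1⟩ := hG.basis U hU
    refine ⟨r, hr, fun x hx => ?_⟩
    obtain ⟨w, w1, w2⟩ := hG.surj (J ∪ J') x.1 fun a => if h : a ∈ J then x.2 ⟨a, h⟩ else 0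
    refine ⟨w, h1 w (by rw [w1]; exact (norm_fst_le x).trans_lt hx) fun a ha => ?_,
      Prod.ext w1 (funext fun j => ?_)⟩
    · rw [w2 a (Finset.mem_union_right _ ha)]
      split_ifs with h
      · exact ((norm_le_pi_norm x.2 ⟨a, h⟩).trans (norm_snd_le _)).trans_lt hx
      · simpa using hr
    · have := w2 j (Finset.mem_union_left _ j.2)
      rw [dif_pos j.2] at this
      exact this
  obtain ⟨s, hs⟩ := (π : Y →ₗ[ℝ] Z × (J → ℝ)).exists_rightInverse_of_surjective (by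
    rw [LinearMap.range_eq_top]
    intro x
    obtain ⟨w, w1, w2⟩ := hG.surj J x.1 fun a => if h : a ∈ J then x.2 ⟨a, h⟩ else 0
    refine ⟨w, Prod.ext w1 (funext fun j => ?_)⟩
    have := w2 j j.2
    rw [dif_pos j.2] at this
    exact this)
  have hs' : ∀ x, π (s x) = x := fun x => LinearMap.congr_fun hs x
  have hker : ∀ y ∈ D, ∀ y', π y' = π y → y' ∈ D ∧ f y' = f y := by
    intro y hy y' h
    have := ker_inv hD hf (LinearMap.ker (π : Y →ₗ[ℝ] Z × (J → ℝ)))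
      (fun w hw => hsmall w (by
        rw [show π w = 0 from hw, norm_zero]
        exact hr0)) hy (y' - y) (by simp [h])
    rwa [add_sub_cancel] at this
  have himg : ∀ (y : Y) (O : Set Y), O ∈ 𝓝 y → ∃ r > 0, ∀ x ∈ Metric.ball (π y) r,
      ∃ y' ∈ O, π y' = x := by
    intro y O hO
    obtain ⟨r, hr, h1⟩ := hopen _ (hsh y O hO)
    refine ⟨r, hr, fun x hx => ?_⟩
    obtain ⟨w, w1, w2⟩ := h1 (x - π y) (by rwa [Metric.mem_ball, dist_eq_norm] at hx)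
    exact ⟨y + w, w1, by rw [map_add, w2, add_sub_cancel]⟩
  have hD' : IsOpen (s ⁻¹' D) := by
    rw [Metric.isOpen_iff]
    intro x hx
    obtain ⟨r, hr, h1⟩ := himg (s x) D (hD.mem_nhds hx)
    rw [hs'] at h1
    refine ⟨r, hr, fun x' hx' => ?_⟩
    obtain ⟨y', a1, a2⟩ := h1 x' hx'
    exact (hker y' a1 (s x') (by rw [hs', a2])).1
  have hf' : ConvexOn ℝ (s ⁻¹' D) (f ∘ s) := hf.comp_linearMap s
  have hz0' : π z0 ∈ s ⁻¹' D := (hker z0 hz0 _ (hs' _)).1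
  have hlip : LocallyLipschitzOn (s ⁻¹' D) (f ∘ s) := by
    have h30 : (∃ x₀ ∈ s ⁻¹' D, (𝓝 x₀).IsBoundedUnder (· ≤ ·) (f ∘ s)) ↔
        LocallyLipschitzOn (s ⁻¹' D) (f ∘ s) := (hf'.continuousOn_tfae hD' ⟨_, hz0'⟩).out 3 0
    refine h30.1 ⟨π z0, hz0', f z0 + 1, ?_⟩
    rw [eventually_map]
    filter_upwards [Metric.ball_mem_nhds (π z0) hr0] with x hx
    have := (hsmall (s x - z0) (by
      rwa [map_sub, hs', ← dist_eq_norm])).2
    rwa [add_sub_cancel] at this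
  let S : Set (Z × (J → ℝ)) := {x | ∀ y, π y = x → y ∈ D ∧ FrechetDiffAt f y}
  have hS : ∀ O : Set Y, IsOpen O → O.Nonempty → O ⊆ D → ∃ z ∈ O, π z ∈ S := by
    rintro O hO ⟨y, hy⟩ hOD
    have hy' : π y ∈ s ⁻¹' D := (hker y (hOD hy) _ (hs' _)).1
    obtain ⟨K, t, ht, hK⟩ := hlip hy'
    rw [nhdsWithin_eq_nhds.2 (hD'.mem_nhds hy')] at ht
    obtain ⟨r1, hr1, h1⟩ := himg y O (hO.mem_nhds hy)
    obtain ⟨r, hr, h2⟩ := Metric.mem_nhds_iff.1
      (inter_mem (inter_mem ht (hD'.mem_nhds hy')) (Metric.ball_mem_nhds _ hr1))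
    obtain ⟨g, hg, he⟩ := convex_ext (B := Metric.ball (π y) r) ⟨_, Metric.mem_ball_self hr⟩
      (hf'.subset (fun x hx => (h2 hx).1.2) (convex_ball _ _)) K.2 fun a ha b hb => by
        have := hK.dist_le_mul a (h2 ha).1.1 b (h2 hb).1.1
        rw [Real.dist_eq, dist_eq_norm] at this
        exact (le_abs_self _).trans this
    obtain ⟨x, hx, hx'⟩ := gds J g K hg _ Metric.isOpen_ball ⟨_, Metric.mem_ball_self hr⟩
    obtain ⟨z, z1, z2⟩ := h1 x (h2 hx).2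
    refine ⟨z, z1, fun y' hy' => ⟨(hker z (hOD z1) y' hy').1, ?_⟩⟩
    rw [z2] at hy'
    obtain ⟨r2, hr2, h3⟩ := Metric.isOpen_iff.1 Metric.isOpen_ball x hx
    refine frechet_of π (fun B hB => ?_) hg hr2 (fun w hw => ?_) (by rwa [hy'])
    · obtain ⟨V, v1, v2⟩ := hG.bdd B hB
      obtain ⟨R, hR⟩ := (NormedSpace.isVonNBounded_iff' ℝ).1 (hB.image π)
      refine tb_of_fd (V.map (LinearMap.inl ℝ Z (J → ℝ)) ⊔
        (⊤ : Submodule ℝ (J → ℝ)).map (LinearMap.inr ℝ Z (J → ℝ))) ?_ hR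
      rintro _ ⟨b, hb, rfl⟩
      exact Submodule.mem_sup.2 ⟨(T b, 0), ⟨T b, v2 b hb, rfl⟩, (0, (π b).2),
        ⟨(π b).2, trivial, rfl⟩, Prod.ext (add_zero _) (zero_add _)⟩
    · rw [hy'] at hw
      have a1 := h3 hw
      rw [he a1]
      exact (hker _ (h2 a1).1.2 w (hs' _).symm).2
  let N : ℕ → Set Y := fun k => ⋂ m ≥ k, {y | Φ (i m) y = 0}
  have hN : ∀ k, IsClosed (N k) := fun k =>
    isClosed_biInter fun m _ => isClosed_eq (Φ (i m)).continuous continuous_const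
  let Bx : ℕ → Y × Finset ι → Set Y := fun n j => {y | ‖T y - T j.1‖ < 1 / ((n : ℝ) + 1)} ∩
    ⋂ a ∈ j.2, {y | |Φ a y - Φ a j.1| < 1 / ((n : ℝ) + 1)}
  have hz : ∀ n j, Bx n j ⊆ D → ∃ z, π z ∈ S ∧ z ∈ Bx n j ∧ z ∉ N n ∧
      ‖T z - (T j.1 + (1 / ((n : ℝ) + 1) / 2) • u j)‖ < 1 / ((n : ℝ) + 1) / 8 := by
    intro n j hj
    have hε : (0 : ℝ) < 1 / ((n : ℝ) + 1) := Nat.one_div_pos_of_nat
    have hB : IsOpen (Bx n j) := by
      refine IsOpen.inter (isOpen_lt (by fun_prop) continuous_const) ?_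
      exact isOpen_biInter_finset fun a _ => isOpen_lt (by fun_prop) continuous_const
    obtain ⟨m, hm1, hm2⟩ : ∃ m, n ≤ m ∧ i m ∉ j.2 := by
      have h1 : ∀ᶠ m in cofinite, i m ∉ j.2 := hi.tendsto_cofinite j.2.eventually_cofinite_notMem
      rw [Nat.cofinite_eq_atTop] at h1
      exact ((eventually_ge_atTop n).and h1).exists
    obtain ⟨y, y1, y2⟩ := hG.surj (insert (i m) j.2) (T j.1 + (1 / ((n : ℝ) + 1) / 2) • u j)
      fun a => if a = i m then 1 else Φ a j.1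
    refine (hS (Bx n j ∩ (N n)ᶜ ∩
      {z | ‖T z - (T j.1 + (1 / ((n : ℝ) + 1) / 2) • u j)‖ < 1 / ((n : ℝ) + 1) / 8})
      ((hB.inter (hN n).isOpen_compl).inter (isOpen_lt (by fun_prop) continuous_const))
      ⟨y, ⟨⟨?_, ?_⟩, ?_⟩, ?_⟩ fun z hz => hj hz.1.1).imp
        fun z hz => ⟨hz.2, hz.1.1.1, hz.1.1.2, hz.1.2⟩
    · simp only [mem_ofPred_eq, y1, add_sub_cancel_left]
      exact ((hu _ (half_pos hε)).1 j).trans_lt (half_lt_self hε)
    · refine mem_iInter₂.2 fun a ha => ?_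
      have hne : a ≠ i m := fun h => hm2 (h ▸ ha)
      simp only [mem_ofPred_eq, y2 a (Finset.mem_insert_of_mem ha), if_neg hne, sub_self, abs_zero]
      exact hε
    · intro h
      have h1 : Φ (i m) y = 0 := mem_iInter₂.1 h m hm1
      rw [y2 _ (Finset.mem_insert_self _ _), if_pos rfl] at h1
      exact one_ne_zero h1
    · simp only [mem_ofPred_eq, y1, sub_self, norm_zero]
      positivity
  choose! z hz1 hz2 hz3 hz4 using hz
  let C : ℕ → Set (Z × (J → ℝ)) := fun n => (fun j => π (z n j)) '' {j | Bx n j ⊆ D}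
  have hC : ∀ n, IsClosed (C n) := by
    intro n
    have hε : (0 : ℝ) < 1 / ((n : ℝ) + 1) := Nat.one_div_pos_of_nat
    refine Metric.isClosed_of_pairwise_le_dist (ε := 1 / ((n : ℝ) + 1) / 4) (by positivity) ?_
    rintro _ ⟨j, hj, rfl⟩ _ ⟨j', hj', rfl⟩ hne
    have a1 := (hu _ (half_pos hε)).2 j j' fun h => hne (by rw [h])
    have a2 := hz4 n j hj
    have a3 := hz4 n j' hj'
    refine le_trans ?_ (le_max_left (dist (T (z n j)) (T (z n j'))) _)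
    rw [← dist_eq_norm] at a1 a2 a3
    have a4 := dist_triangle4 (T j.1 + (1 / ((n : ℝ) + 1) / 2) • u j) (T (z n j)) (T (z n j'))
      (T j'.1 + (1 / ((n : ℝ) + 1) / 2) • u j')
    rw [dist_comm] at a2
    linarith
  let G : ℕ → Set Y := fun n => π ⁻¹' C n ∩ (N n)ᶜ
  have hGS : ∀ n, ∀ y ∈ G n, y ∈ D ∧ FrechetDiffAt f y := by
    rintro n y ⟨⟨j, hj, h⟩, -⟩
    exact hz1 n j hj y h.symm
  refine ⟨⋃ n, G n, iUnion_subset fun n y hy => (hGS n y hy).1, ?_, fun y hy => ?_, fun y hy => ?_⟩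
  · have e : ⋃ n, G n = ⋂ k, ((N k)ᶜ ∪ ⋃ n ∈ Iio k, G n) := by
      apply Subset.antisymm
      · refine iUnion_subset fun n y hy => mem_iInter.2 fun k => ?_
        rcases lt_or_ge n k with h | h
        · exact Or.inr (mem_biUnion h hy)
        · exact Or.inl fun h' => hy.2 (mem_iInter₂.2 fun m hm => mem_iInter₂.1 h' m (h.trans hm))
      · intro y hy
        obtain ⟨k, hk⟩ := eventually_atTop.1 (hi0 y)
        rcases mem_iInter.1 hy k with h | h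
        · exact (h (mem_iInter₂.2 fun m hm => hk m hm)).elim
        · obtain ⟨n, -, hn⟩ := mem_iUnion₂.1 h
          exact mem_iUnion.2 ⟨n, hn⟩
    rw [e]
    refine IsGδ.iInter fun k => (hN k).isOpen_compl.isGδ.union
      (IsGδ.biUnion (finite_Iio k) fun n _ => ?_)
    exact ((hC n).isGδ.preimage π.continuous).inter (hN n).isOpen_compl.isGδ
  · rw [mem_closure_iff_nhds]
    intro O hO
    obtain ⟨r, hr, J', h1⟩ := hG.basis _ (hsh y (O ∩ D) (inter_mem hO (hD.mem_nhds hy)))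
    obtain ⟨n, hn⟩ := exists_nat_one_div_lt hr
    have h2 : Bx n (y, J') ⊆ O ∩ D := by
      intro w hw
      have := h1 (w - y) (by rw [map_sub]; exact lt_trans hw.1 hn) fun a ha => by
        rw [map_sub]
        exact lt_trans (mem_iInter₂.1 hw.2 a ha) hn
      simpa using this
    have h3 : Bx n (y, J') ⊆ D := h2.trans inter_subset_right
    exact ⟨z n (y, J'), (h2 (hz2 n _ h3)).1, mem_iUnion.2 ⟨n, ⟨_, h3, rfl⟩, hz3 n _ h3⟩⟩
  · obtain ⟨n, hn⟩ := mem_iUnion.1 hy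
    exact (hGS n y hn).2

end Pool.Agent.H766Z.Pr
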