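import Mathlib

set_option autoImplicit false

namespace Pool.Agent.H766Z.Pr

open Set Filter Topology

variable {Y : Type} [NormedAddCommGroup Y] [NormedSpace ℝ Y]

/-- convex and Lipschitz -/
structure CL (g : Y → ℝ) (L : ℝ) : Prop where
  conv : ConvexOn ℝ univ g
  pos : 0 ≤ L
  lip : ∀ x y, g x - g y ≤ L * ‖x - y‖

noncomputable def dq (g : Y → ℝ) (x v : Y) (t : ℝ) : ℝ := (g (x + t • v) - g x) / t

noncomputable def dd (g : Y → ℝ) (x v : Y) : ℝ := sInf (dq g x v '' Ioi 0)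

variable {g : Y → ℝ} {L : ℝ}

theorem CL.cont (h : CL g L) : Continuous g := by
  have : LipschitzWith (Real.toNNReal L) g := by
    refine LipschitzWith.of_le_add_mul _ fun x y => ?_
    have := h.lip x y
    rw [Real.coe_toNNReal _ h.pos, dist_eq_norm]
    linarith
  exact this.continuous

theorem CL.dq_abs (h : CL g L) (x v : Y) {t : ℝ} (ht : 0 < t) : |dq g x v t| ≤ L * ‖v‖ := by
  have h1 := h.lip (x + t • v) x
  have h2 := h.lip x (x + t • v)
  rw [norm_sub_rev] at h2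
  rw [add_sub_cancel_left, norm_smul, Real.norm_eq_abs, abs_of_pos ht] at h1 h2
  unfold dq
  rw [abs_div, abs_of_pos ht, div_le_iff₀ ht, abs_le]
  constructor <;> nlinarith

theorem CL.bdd (h : CL g L) (x v : Y) : BddBelow (dq g x v '' Ioi 0) := by
  refine ⟨-(L * ‖v‖), ?_⟩
  rintro _ ⟨t, ht, rfl⟩
  exact (abs_le.1 (h.dq_abs x v ht)).1

theorem CL.dd_le (h : CL g L) (x v : Y) {t : ℝ} (ht : 0 < t) : dd g x v ≤ dq g x v t :=
  csInf_le (h.bdd x v) ⟨t, ht, rfl⟩

theorem le_dd {x v : Y} {a : ℝ} (ha : ∀ t, 0 < t → a ≤ dq g x v t) : a ≤ dd g x v := by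
  refine le_csInf ⟨_, 1, mem_Ioi.2 one_pos, rfl⟩ ?_
  rintro _ ⟨t, ht, rfl⟩
  exact ha t ht

theorem exists_dq_lt {x v : Y} {a : ℝ} (ha : dd g x v < a) : ∃ t, 0 < t ∧ dq g x v t < a := by
  by_contra hcon
  push Not at hcon
  exact absurd (le_dd hcon) (not_le.2 ha)

theorem CL.dq_mono (h : CL g L) (x v : Y) {s t : ℝ} (hs : 0 < s) (hst : s ≤ t) :
    dq g x v s ≤ dq g x v t := by
  have ht : 0 < t := hs.trans_le hst
  have h1 := h.conv.2 (mem_univ x) (mem_univ (x + t • v))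
    (show 0 ≤ 1 - s / t by rw [sub_nonneg, div_le_one ht]; exact hst)
    (show 0 ≤ s / t by positivity) (by ring)
  have e : (1 - s / t) • x + (s / t) • (x + t • v) = x + s • v := by
    rw [smul_add, smul_smul, div_mul_cancel₀ _ ht.ne', ← add_assoc, ← add_smul]
    simp
  rw [e, smul_eq_mul, smul_eq_mul] at h1
  unfold dq
  rw [div_le_div_iff₀ hs ht]
  have h2 : (g (x + s • v) - g x) ≤ s / t * (g (x + t • v) - g x) := by linarith
  have h3 := mul_le_mul_of_nonneg_right h2 ht.le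
  have e2 : s / t * (g (x + t • v) - g x) * t = (g (x + t • v) - g x) * s := by
    field_simp
  linarith

theorem CL.dd_abs (h : CL g L) (x v : Y) : |dd g x v| ≤ L * ‖v‖ := by
  rw [abs_le]
  exact ⟨le_dd fun t ht => (abs_le.1 (h.dq_abs x v ht)).1,
    (h.dd_le x v one_pos).trans (abs_le.1 (h.dq_abs x v one_pos)).2⟩

theorem CL.dd_add (h : CL g L) (x v w : Y) : dd g x (v + w) ≤ dd g x v + dd g x w := by
  refine le_of_forall_pos_le_add fun ε hε => ?_
  obtain ⟨s, hs, h1⟩ := exists_dq_lt (lt_add_of_pos_right (dd g x v) (half_pos hε))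
  obtain ⟨t, ht, h2⟩ := exists_dq_lt (lt_add_of_pos_right (dd g x w) (half_pos hε))
  have hr : 0 < min s t := lt_min hs ht
  have h3 := h.dq_mono x v hr (min_le_left _ _)
  have h4 := h.dq_mono x w hr (min_le_right _ _)
  have h5 := h.dd_le x (v + w) (half_pos hr)
  generalize min s t = r at *
  have h6 := h.conv.2 (mem_univ (x + r • v)) (mem_univ (x + r • w))
    (show (0 : ℝ) ≤ 1 / 2 by norm_num) (show (0 : ℝ) ≤ 1 / 2 by norm_num) (by norm_num)
  have e : (1 / 2 : ℝ) • (x + r • v) + (1 / 2 : ℝ) • (x + r • w) = x + (r / 2) • (v + w) := by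
    module
  rw [e, smul_eq_mul, smul_eq_mul] at h6
  have h7 : dq g x (v + w) (r / 2) ≤ dq g x v r + dq g x w r := by
    unfold dq
    rw [← add_div, div_le_div_iff₀ (half_pos hr) hr]
    nlinarith
  linarith

theorem dq_smul (x v : Y) {c t : ℝ} (hc : 0 < c) (ht : 0 < t) :
    dq g x (c • v) t = c * dq g x v (t * c) := by
  unfold dq
  rw [smul_smul]
  field_simp

theorem CL.dd_smul (h : CL g L) (x v : Y) {c : ℝ} (hc : 0 < c) :
    dd g x (c • v) = c * dd g x v := by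
  apply le_antisymm
  · rw [mul_comm, ← div_le_iff₀ hc]
    refine le_dd fun t ht => ?_
    have := h.dd_le x (c • v) (div_pos ht hc)
    rw [dq_smul x v hc (div_pos ht hc), div_mul_cancel₀ _ hc.ne'] at this
    rw [div_le_iff₀ hc, mul_comm]
    exact this
  · refine le_dd fun t ht => ?_
    rw [dq_smul x v hc ht]
    exact mul_le_mul_of_nonneg_left (h.dd_le x v (mul_pos ht hc)) hc.le

theorem CL.dd_zero (h : CL g L) (x : Y) : dd g x 0 = 0 := by
  have := h.dd_abs x 0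
  simpa using this

theorem CL.isOpen_lt (h : CL g L) (v : Y) (a : ℝ) : IsOpen {x | dd g x v < a} := by
  have e : {x | dd g x v < a} = ⋃ t ∈ Ioi (0 : ℝ), {x | dq g x v t < a} := by
    ext x
    simp only [mem_ofPred_eq, mem_iUnion, mem_Ioi, exists_prop]
    exact ⟨exists_dq_lt, fun ⟨t, ht, h1⟩ => (h.dd_le x v ht).trans_lt h1⟩
  rw [e]
  refine isOpen_biUnion fun t _ => _root_.isOpen_lt ?_ continuous_const
  have := h.cont
  unfold dq
  fun_prop

theorem CL.minimal (h : CL g L) {U : Set Y} (hU : IsOpen U) {x v : Y} (hx : x ∈ U) {a : ℝ}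
    (ha : a < dd g x v) :
    ∃ V : Set Y, V ⊆ U ∧ IsOpen V ∧ V.Nonempty ∧ ∀ z ∈ V, dd g z (-v) < -a := by
  obtain ⟨t, htU, ht⟩ : ∃ t : ℝ, x + t • v ∈ U ∧ 0 < t := by
    have hc : Continuous fun t : ℝ => x + t • v := by fun_prop
    have h1 : ∀ᶠ t in 𝓝 (0 : ℝ), x + t • v ∈ U :=
      hc.continuousAt.preimage_mem_nhds (hU.mem_nhds (by simpa using hx))
    have h2 : ∀ᶠ t in 𝓝[>] (0 : ℝ), x + t • v ∈ U := mem_nhdsWithin_of_mem_nhds h1
    exact (h2.and self_mem_nhdsWithin).exists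
  refine ⟨U ∩ {z | dd g z (-v) < -a}, inter_subset_left, hU.inter (h.isOpen_lt _ _),
    ⟨x + t • v, htU, ?_⟩, fun z hz => hz.2⟩
  have h1 := h.dd_le x v ht
  have h2 := h.dd_le (x + t • v) (-v) ht
  have e : dq g (x + t • v) (-v) t = -dq g x v t := by
    unfold dq
    rw [smul_neg, add_neg_cancel_right]
    ring
  simp only [mem_ofPred_eq]
  linarith

noncomputable def sym (g : Y → ℝ) (x v : Y) : ℝ := dd g x v + dd g x (-v)

theorem CL.sym_nonneg (h : CL g L) (x v : Y) : 0 ≤ sym g x v := by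
  have := h.dd_add x v (-v)
  rwa [add_neg_cancel, h.dd_zero] at this

theorem CL.sym_add (h : CL g L) (x v w : Y) : sym g x (v + w) ≤ sym g x v + sym g x w := by
  have h1 := h.dd_add x v w
  have h2 := h.dd_add x (-v) (-w)
  rw [← neg_add] at h2
  unfold sym
  linarith

theorem CL.sym_le (h : CL g L) (x v : Y) : sym g x v ≤ 2 * L * ‖v‖ := by
  have h1 := (abs_le.1 (h.dd_abs x v)).2
  have h2 := (abs_le.1 (h.dd_abs x (-v))).2
  rw [norm_neg] at h2
  unfold sym
  linarith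

theorem CL.sym_smul (h : CL g L) (x v : Y) (c : ℝ) : sym g x (c • v) = |c| * sym g x v := by
  unfold sym
  rcases lt_trichotomy c 0 with hc | rfl | hc
  · have h1 := h.dd_smul x v (neg_pos.2 hc)
    have h2 := h.dd_smul x (-v) (neg_pos.2 hc)
    rw [neg_smul] at h1
    rw [neg_smul_neg] at h2
    rw [h1, h2, abs_of_neg hc]
    ring
  · simp [h.dd_zero]
  · rw [← smul_neg, h.dd_smul x v hc, h.dd_smul x (-v) hc, abs_of_pos hc]
    ring

theorem CL.stab (h : CL g L) {U : Set Y} (hU : IsOpen U) (hne : U.Nonempty) (v : Y) {ε : ℝ}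
    (hε : 0 < ε) : ∃ V : Set Y, V ⊆ U ∧ IsOpen V ∧ V.Nonempty ∧ ∀ z ∈ V, sym g z v ≤ ε := by
  have hb : BddAbove ((fun z => dd g z v) '' U) := by
    refine ⟨L * ‖v‖, ?_⟩
    rintro _ ⟨z, _, rfl⟩
    exact (abs_le.1 (h.dd_abs z v)).2
  obtain ⟨_, ⟨x, hx, rfl⟩, h1⟩ := exists_lt_of_lt_csSup (hne.image fun z => dd g z v)
    (sub_lt_self _ hε)
  obtain ⟨V, a1, a2, a3, a4⟩ := h.minimal hU hx h1
  refine ⟨V, a1, a2, a3, fun z hz => ?_⟩
  have h2 := le_csSup hb ⟨z, a1 hz, rfl⟩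
  have h3 := a4 z hz
  unfold sym
  simp only at h2
  linarith

theorem CL.stab_list (h : CL g L) (l : List Y) {ε : ℝ} (hε : 0 < ε) {U : Set Y} (hU : IsOpen U)
    (hne : U.Nonempty) :
    ∃ V : Set Y, V ⊆ U ∧ IsOpen V ∧ V.Nonempty ∧ ∀ z ∈ V, ∀ v ∈ l, sym g z v ≤ ε := by
  induction l with
  | nil => exact ⟨U, subset_rfl, hU, hne, by simp⟩
  | cons v l ih =>
    obtain ⟨V, a1, a2, a3, a4⟩ := ih
    obtain ⟨W, b1, b2, b3, b4⟩ := h.stab a2 a3 v hε
    refine ⟨W, b1.trans a1, b2, b3, fun z hz w hw => ?_⟩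
    rcases List.mem_cons.1 hw with rfl | hw
    · exact b4 z hz
    · exact a4 z (b1 hz) w hw

theorem CL.stab_hilbert (h : CL g L) {H : Type} [NormedAddCommGroup H] [InnerProductSpace ℝ H]
    (j : H →L[ℝ] Y) {U : Set Y} (hU : IsOpen U) (hne : U.Nonempty) {ε : ℝ} (hε : 0 < ε) :
    ∃ V : Set Y, V ⊆ U ∧ IsOpen V ∧ V.Nonempty ∧
      ∀ z ∈ V, ∀ w : H, ‖w‖ ≤ 1 → sym g z (j w) ≤ ε := by
  let S : Set ℝ := {r | ∃ z ∈ U, ∃ w : H, ‖w‖ ≤ 1 ∧ r = dd g z (j w)}
  have hb : BddAbove S := by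
    refine ⟨L * ‖j‖, ?_⟩
    rintro _ ⟨z, _, w, hw, rfl⟩
    refine (abs_le.1 (h.dd_abs z (j w))).2.trans (mul_le_mul_of_nonneg_left ?_ h.pos)
    exact (j.le_opNorm w).trans (mul_le_of_le_one_right (norm_nonneg _) hw)
  obtain ⟨x0, hx0⟩ := hne
  have h0 : (0 : ℝ) ∈ S := ⟨x0, hx0, 0, by simp, by rw [map_zero, h.dd_zero]⟩
  have hm0 : 0 ≤ sSup S := le_csSup hb h0
  have hm : ∀ z ∈ U, ∀ w : H, dd g z (j w) ≤ sSup S * ‖w‖ := by
    intro z hz w
    by_cases hw : w = 0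
    · simp [hw, h.dd_zero]
    · have hn : 0 < ‖w‖ := norm_pos_iff.2 hw
      have h1 : dd g z (j (‖w‖⁻¹ • w)) ≤ sSup S :=
        le_csSup hb ⟨z, hz, _, by rw [norm_smul, norm_inv, norm_norm, inv_mul_cancel₀ hn.ne'], rfl⟩
      rw [map_smul, h.dd_smul _ _ (inv_pos.2 hn), inv_mul_le_iff₀ hn] at h1
      linarith
  generalize hM : sSup S = m at *
  let s : ℝ := ε / (2 * (m + 1))
  have hs : 0 < s := by positivity
  have hη : 0 < s * ε / 4 := by positivity
  obtain ⟨_, ⟨x, hx, w0, hw0, rfl⟩, h1⟩ := exists_lt_of_lt_csSup ⟨0, h0⟩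
    (show m - s * ε / 4 < sSup S by rw [hM]; linarith)
  obtain ⟨V, a1, a2, a3, a4⟩ := h.minimal hU hx h1
  refine ⟨V, a1, a2, a3, fun z hz w hw => ?_⟩
  have b1 := h.dd_add z (j (w0 + s • w)) (-j w0)
  have b2 := h.dd_add z (j (w0 - s • w)) (-j w0)
  have e1 : j (w0 + s • w) + -j w0 = s • j w := by simp
  have e2 : j (w0 - s • w) + -j w0 = s • -j w := by
    rw [map_sub, map_smul]
    module
  rw [e1, h.dd_smul _ _ hs] at b1
  rw [e2, h.dd_smul _ _ hs] at b2
  have b3 := hm z (a1 hz) (w0 + s • w)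
  have b4 := hm z (a1 hz) (w0 - s • w)
  have b5 := a4 z hz
  have b6 : ‖w0 + s • w‖ + ‖w0 - s • w‖ ≤ 2 + s ^ 2 := by
    have p := parallelogram_law_with_norm ℝ w0 (s • w)
    have q1 : ‖s • w‖ ≤ s := by
      rw [norm_smul, Real.norm_eq_abs, abs_of_pos hs]
      exact mul_le_of_le_one_right hs.le hw
    have q2 : ‖w0‖ ^ 2 ≤ 1 := pow_le_one₀ (norm_nonneg _) hw0
    have q3 : ‖s • w‖ ^ 2 ≤ s ^ 2 := pow_le_pow_left₀ (norm_nonneg _) q1 2
    refine le_of_sq_le_sq ?_ (by positivity)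
    nlinarith [sq_nonneg (‖w0 + s • w‖ - ‖w0 - s • w‖), sq_nonneg (s ^ 2)]
  have b7 : m * s ≤ ε / 2 := by
    have : m * s = ε / 2 * (m / (m + 1)) := by
      simp only [s]
      field_simp
    rw [this]
    exact mul_le_of_le_one_right (by positivity) ((div_le_one (by positivity)).2 (by linarith))
  have b8 : s * sym g z (j w) ≤ s * ε := by
    unfold sym
    have := mul_le_mul_of_nonneg_left b6 hm0
    nlinarith
  exact le_of_mul_le_mul_left b8 hs

theorem CL.gateaux (h : CL g L) {x : Y} (hx : ∀ v, sym g x v ≤ 0) :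
    ∃ φ : Y →L[ℝ] ℝ, ∀ v, ∀ ε > 0, ∃ δ > 0, ∀ t : ℝ, 0 < |t| → |t| < δ →
      |(g (x + t • v) - g x) / t - φ v| < ε := by
  have hneg : ∀ v, dd g x (-v) = -dd g x v := by
    intro v
    have h1 := hx v
    have h2 := h.sym_nonneg x v
    unfold sym at h1 h2
    linarith
  let φ : Y →ₗ[ℝ] ℝ :=
    { toFun := dd g x
      map_add' := fun v w => by
        have h1 := h.dd_add x v w
        have h2 := h.dd_add x (-v) (-w)
        rw [← neg_add, hneg, hneg, hneg] at h2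
        linarith
      map_smul' := fun c v => by
        rcases lt_trichotomy c 0 with hc | rfl | hc
        · have h1 := h.dd_smul x v (neg_pos.2 hc)
          rw [neg_smul, hneg] at h1
          simp only [RingHom.id_apply, smul_eq_mul]
          linarith
        · simp [h.dd_zero]
        · simpa using h.dd_smul x v hc }
  refine ⟨φ.mkContinuous L fun v => h.dd_abs x v, fun v ε hε => ?_⟩
  obtain ⟨s, hs, h1⟩ := exists_dq_lt (lt_add_of_pos_right (dd g x v) hε)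
  obtain ⟨r, hr, h2⟩ := exists_dq_lt (lt_add_of_pos_right (dd g x (-v)) hε)
  refine ⟨min s r, lt_min hs hr, fun t ht htδ => ?_⟩
  change |dq g x v t - dd g x v| < ε
  rcases lt_or_gt_of_ne (abs_pos.1 ht) with h0 | h0
  · rw [abs_of_neg h0] at htδ ht
    have e : dq g x v t = -dq g x (-v) (-t) := by
      unfold dq
      rw [neg_smul_neg, div_neg, neg_neg]
    have a1 := h.dd_le x (-v) ht
    have a2 := h.dq_mono x (-v) ht (htδ.le.trans (min_le_right _ _))
    rw [hneg] at a1 h2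
    rw [e, abs_lt]
    constructor <;> linarith
  · rw [abs_of_pos h0] at htδ
    have a1 := h.dd_le x v h0
    have a2 := h.dq_mono x v h0 (htδ.le.trans (min_le_left _ _))
    rw [abs_lt]
    constructor <;> linarith

end Pool.Agent.H766Z.Pr
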