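import Mathlib

set_option autoImplicit false

namespace Pool.Agent.H766Z.Pr

open Set Filter Topology

def iv (I : ℚ × ℚ) : Set ℝ := Icc (I.1 : ℝ) (I.2 : ℝ)

def Rg (s : Finset (ℚ × ℚ)) : Set ℝ := ⋃ I ∈ s, iv I

theorem Rg_closed (s : Finset (ℚ × ℚ)) : IsClosed (Rg s) :=
  s.finite_toSet.isClosed_biUnion fun _ _ => isClosed_Icc

theorem mem_Rg {s : Finset (ℚ × ℚ)} {t : ℝ} : t ∈ Rg s ↔ ∃ I ∈ s, t ∈ iv I := by
  simp [Rg]

def PD (s : Finset (ℚ × ℚ)) : Prop := ∀ I ∈ s, ∀ J ∈ s, I ≠ J → Disjoint (iv I) (iv J)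

theorem small_iv {O : Set ℝ} (hO : IsOpen O) {t : ℝ} (ht : t ∈ O) {δ : ℝ} (hδ : 0 < δ) :
    ∃ I : ℚ × ℚ, (I.1 : ℝ) < t ∧ t < I.2 ∧ (I.2 : ℝ) - I.1 ≤ δ ∧ iv I ⊆ O := by
  obtain ⟨r, hr, h⟩ := Metric.isOpen_iff.1 hO t ht
  have hm : 0 < min r (δ / 2) := lt_min hr (half_pos hδ)
  obtain ⟨q, h1, h2⟩ := exists_rat_btwn (show t - min r (δ / 2) < t by linarith)
  obtain ⟨q', h3, h4⟩ := exists_rat_btwn (show t < t + min r (δ / 2) by linarith)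
  have a1 := min_le_left r (δ / 2)
  have a2 := min_le_right r (δ / 2)
  refine ⟨(q, q'), h2, h3, by simp only; linarith, fun x hx => h ?_⟩
  rw [Real.ball_eq_Ioo]
  exact ⟨by linarith [hx.1], by linarith [hx.2]⟩

theorem exists_last (P : ℕ → Prop) (k : ℕ) (h0 : P 0) (hk : ∀ n, P n → n ≤ k) :
    ∃ n, P n ∧ ¬ P (n + 1) := by
  by_contra hcon
  push Not at hcon
  have : ∀ n, P n := fun n => Nat.rec h0 hcon n
  have := hk _ (this (k + 1))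
  omega

theorem PD.insert {s : Finset (ℚ × ℚ)} (hs : PD s) {I : ℚ × ℚ} (hI : iv I ⊆ (Rg s)ᶜ) :
    PD (insert I s) := by
  have key : ∀ J ∈ s, Disjoint (iv I) (iv J) := fun J hJ =>
    Set.disjoint_left.2 fun x hx hx' => hI hx (mem_Rg.2 ⟨J, hJ, hx'⟩)
  intro J hJ K hK hne
  rcases Finset.mem_insert.1 hJ with h1 | h1 <;> rcases Finset.mem_insert.1 hK with h2 | h2
  · exact absurd (h1.trans h2.symm) hne
  · exact h1 ▸ key K h2
  · exact h2 ▸ (key J h1).symm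
  · exact hs J h1 K h2 hne

variable {R : Type} [Preorder R]

structure Cap (Fx : R → ℚ × ℚ → Prop) (k : ℕ) : Prop where
  mono : ∀ {U V : R} {I : ℚ × ℚ}, V ≤ U → Fx U I → Fx V I
  bound : ∀ (U : R) (s : Finset (ℚ × ℚ)), PD s → (∀ I ∈ s, Fx U I) → s.card ≤ k

def Heavy (Fx : R → ℚ × ℚ → Prop) (U : R) : Set ℝ :=
  {t | ∀ I : ℚ × ℚ, (I.1 : ℝ) < t → t < I.2 → ∃ V ≤ U, Fx V I}

variable {Fx : R → ℚ × ℚ → Prop} {k : ℕ}

theorem Heavy_mono {U V : R} (h : V ≤ U) : Heavy Fx V ⊆ Heavy Fx U := by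
  intro t ht I h1 h2
  obtain ⟨W, h3, h4⟩ := ht I h1 h2
  exact ⟨W, h3.trans h, h4⟩

theorem Cap.cover (h : Cap Fx k) (U : R) {δ : ℝ} (hδ : 0 < δ) :
    ∃ V ≤ U, ∃ s : Finset (ℚ × ℚ), s.card ≤ k ∧ (∀ I ∈ s, (I.2 : ℝ) - I.1 ≤ δ) ∧
      Heavy Fx V ⊆ Rg s := by
  obtain ⟨n, ⟨V, hV, s, hs, h1, h2, h3⟩, hn⟩ := exists_last
    (fun n => ∃ V ≤ U, ∃ s : Finset (ℚ × ℚ), s.card = n ∧ PD s ∧ (∀ I ∈ s, Fx V I) ∧
      ∀ I ∈ s, (I.2 : ℝ) - I.1 ≤ δ) k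
    ⟨U, le_rfl, ∅, rfl, by simp [PD], by simp, by simp⟩
    (by
      rintro n ⟨V, -, s, rfl, h1, h2, -⟩
      exact h.bound V s h1 h2)
  refine ⟨V, hV, s, h.bound V s h1 h2, h3, fun t ht => ?_⟩
  by_contra hcon
  obtain ⟨I, a1, a2, a3, a4⟩ := small_iv (Rg_closed s).isOpen_compl hcon hδ
  obtain ⟨W, b1, b2⟩ := ht I a1 a2
  refine hn ⟨W, b1.trans hV, insert I s, ?_, h1.insert a4, ?_, ?_⟩
  · rw [Finset.card_insert_of_notMem, hs]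
    exact fun hI => hcon (mem_Rg.2 ⟨I, hI, a1.le, a2.le⟩)
  · intro J hJ
    rcases Finset.mem_insert.1 hJ with rfl | hJ
    · exact b2
    · exact h.mono b1 (h2 J hJ)
  · intro J hJ
    rcases Finset.mem_insert.1 hJ with rfl | hJ
    · exact a3
    · exact h3 J hJ

def PS (Fx : R → ℚ × ℚ → Prop) (V V' : R) (s s' : Finset (ℚ × ℚ)) : Prop :=
  PD s ∧ PD s' ∧ Disjoint (Rg s) (Rg s') ∧ (∀ I ∈ s, Fx V I) ∧ ∀ I ∈ s', Fx V' I

theorem PS.symm {V V' : R} {s s' : Finset (ℚ × ℚ)} (h : PS Fx V V' s s') : PS Fx V' V s' s :=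
  ⟨h.2.1, h.1, h.2.2.1.symm, h.2.2.2.2, h.2.2.2.1⟩

theorem Rg_insert (I : ℚ × ℚ) (s : Finset (ℚ × ℚ)) : Rg (insert I s) = iv I ∪ Rg s := by
  simp [Rg]

theorem Cap.extend (h : Cap Fx k) {V V' : R} {s s' : Finset (ℚ × ℚ)} (hp : PS Fx V V' s s')
    (hT : ((Heavy Fx V ∩ Heavy Fx V') \ Rg s).Infinite) :
    ∃ W ≤ V, ∃ W' ≤ V', ∃ r r' : Finset (ℚ × ℚ), PS Fx W W' r r' ∧
      r.card + r'.card = s.card + s'.card + 1 := by
  obtain ⟨p1, p2, p3, p4, p5⟩ := hp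
  by_cases hA : ∃ t ∈ (Heavy Fx V ∩ Heavy Fx V') \ Rg s, t ∉ Rg s'
  · obtain ⟨t, ⟨⟨ht, -⟩, hts⟩, hts'⟩ := hA
    obtain ⟨I, a1, a2, -, a4⟩ := small_iv
      ((Rg_closed s).isOpen_compl.inter (Rg_closed s').isOpen_compl) ⟨hts, hts'⟩ one_pos
    obtain ⟨W, b1, b2⟩ := ht I a1 a2
    refine ⟨W, b1, V', le_rfl, insert I s, s', ⟨p1.insert fun x hx => (a4 hx).1, p2, ?_, ?_, p5⟩,
      ?_⟩
    · rw [Rg_insert, Set.disjoint_union_left]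
      exact ⟨Set.disjoint_left.2 fun x hx => (a4 hx).2, p3⟩
    · intro J hJ
      rcases Finset.mem_insert.1 hJ with rfl | hJ
      · exact b2
      · exact h.mono b1 (p4 J hJ)
    · rw [Finset.card_insert_of_notMem]
      · ring
      · exact fun hI => hts (mem_Rg.2 ⟨I, hI, a1.le, a2.le⟩)
  · push Not at hA
    obtain ⟨J, hJ, hinf⟩ : ∃ J ∈ s',
        (((Heavy Fx V ∩ Heavy Fx V') \ Rg s) ∩ iv J).Infinite := by
      by_contra hcon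
      push Not at hcon
      refine hT ((s'.finite_toSet.biUnion hcon).subset fun t ht => ?_)
      obtain ⟨J, hJ, htJ⟩ := mem_Rg.1 (hA t ht)
      exact mem_biUnion hJ ⟨ht, htJ⟩
    obtain ⟨t, ⟨⟨⟨ht, -⟩, hts⟩, htJ⟩, t', ⟨⟨⟨-, ht'⟩, hts'⟩, htJ'⟩, hne⟩ := hinf.nontrivial
    have hout : ∀ x ∈ iv J, x ∉ Rg (s'.erase J) := by
      intro x hx hx'
      obtain ⟨K, hK, hxK⟩ := mem_Rg.1 hx'
      rw [Finset.mem_erase] at hK
      exact Set.disjoint_left.1 (p2 K hK.2 J hJ hK.1) hxK hx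
    obtain ⟨u, v, hu, hv, htu, htv, huv⟩ := t2_separation hne
    have hO := (Rg_closed s).isOpen_compl.inter (Rg_closed (s'.erase J)).isOpen_compl
    obtain ⟨I, a1, a2, -, a4⟩ := small_iv (hO.inter hu) ⟨⟨hts, hout t htJ⟩, htu⟩ one_pos
    obtain ⟨I', c1, c2, -, c4⟩ := small_iv (hO.inter hv) ⟨⟨hts', hout t' htJ'⟩, htv⟩ one_pos
    obtain ⟨W, b1, b2⟩ := ht I a1 a2
    obtain ⟨W', d1, d2⟩ := ht' I' c1 c2
    have p2' : PD (s'.erase J) := fun K hK K' hK' =>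
      p2 K (Finset.mem_of_mem_erase hK) K' (Finset.mem_of_mem_erase hK')
    refine ⟨W, b1, W', d1, insert I s, insert I' (s'.erase J),
      ⟨p1.insert fun x hx => (a4 hx).1.1, p2'.insert fun x hx => (c4 hx).1.2, ?_, ?_, ?_⟩, ?_⟩
    · rw [Rg_insert, Rg_insert, Set.disjoint_union_left, Set.disjoint_union_right,
        Set.disjoint_union_right]
      refine ⟨⟨huv.mono (fun x hx => (a4 hx).2) fun x hx => (c4 hx).2,
        Set.disjoint_left.2 fun x hx => (a4 hx).1.2⟩,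
        Set.disjoint_right.2 fun x hx => (c4 hx).1.1, p3.mono_right ?_⟩
      intro x hx
      obtain ⟨K, hK, hxK⟩ := mem_Rg.1 hx
      exact mem_Rg.2 ⟨K, Finset.mem_of_mem_erase hK, hxK⟩
    · intro K hK
      rcases Finset.mem_insert.1 hK with rfl | hK
      · exact b2
      · exact h.mono b1 (p4 K hK)
    · intro K hK
      rcases Finset.mem_insert.1 hK with rfl | hK
      · exact d2
      · exact h.mono d1 (p5 K (Finset.mem_of_mem_erase hK))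
    · rw [Finset.card_insert_of_notMem, Finset.card_insert_of_notMem, Finset.card_erase_add_one hJ]
      · ring
      · exact fun hI => hout t' htJ' (mem_Rg.2 ⟨I', hI, c1.le, c2.le⟩)
      · exact fun hI => hts (mem_Rg.2 ⟨I, hI, a1.le, a2.le⟩)

theorem Cap.pair (h : Cap Fx k) (U : R) :
    ∃ V ≤ U, ∃ V' ≤ U, (Heavy Fx V ∩ Heavy Fx V').Finite := by
  obtain ⟨n, ⟨V, hV, V', hV', s, s', hp, hs⟩, hn⟩ := exists_last
    (fun n => ∃ V ≤ U, ∃ V' ≤ U, ∃ s s' : Finset (ℚ × ℚ), PS Fx V V' s s' ∧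
      s.card + s'.card = n) (k + k)
    ⟨U, le_rfl, U, le_rfl, ∅, ∅, by simp [PS, PD, Rg], rfl⟩
    (by
      rintro n ⟨V, -, V', -, s, s', hp, rfl⟩
      exact add_le_add (h.bound V s hp.1 hp.2.2.2.1) (h.bound V' s' hp.2.1 hp.2.2.2.2))
  refine ⟨V, hV, V', hV', ?_⟩
  by_contra hinf
  have hor : ((Heavy Fx V ∩ Heavy Fx V') \ Rg s).Infinite ∨
      ((Heavy Fx V' ∩ Heavy Fx V) \ Rg s').Infinite := by
    rw [← Set.infinite_union]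
    refine Set.Infinite.mono (fun t ht => ?_) hinf
    by_cases hts : t ∈ Rg s
    · exact Or.inr ⟨⟨ht.2, ht.1⟩, Set.disjoint_left.1 hp.2.2.1 hts⟩
    · exact Or.inl ⟨ht, hts⟩
  rcases hor with h1 | h1
  · obtain ⟨W, a, W', b, r, r', c, d⟩ := h.extend hp h1
    exact hn ⟨W, a.trans hV, W', b.trans hV', r, r', c, by omega⟩
  · obtain ⟨W, a, W', b, r, r', c, d⟩ := h.extend hp.symm h1
    exact hn ⟨W', b.trans hV, W, a.trans hV', r', r, c.symm, by omega⟩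

theorem finite_of_covers {B : Set ℝ} {k : ℕ}
    (h : ∀ δ > 0, ∃ s : Finset (ℚ × ℚ), s.card ≤ k ∧ (∀ I ∈ s, (I.2 : ℝ) - I.1 ≤ δ) ∧ B ⊆ Rg s) :
    B.Finite := by
  classical
  by_contra hinf
  obtain ⟨T, hT, hc⟩ := Set.Infinite.exists_subset_card_eq hinf (k + 1)
  obtain ⟨δ, hδ, hsep⟩ : ∃ δ > 0, ∀ x ∈ T, ∀ y ∈ T, x ≠ y → δ < |x - y| := by
    have : ∀ᶠ δ in 𝓝[>] (0 : ℝ), ∀ x ∈ T, ∀ y ∈ T, x ≠ y → δ < |x - y| := by
      simp only [Finset.eventually_all]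
      intro x _ y _
      by_cases hxy : x = y
      · simp [hxy]
      · have : ∀ᶠ δ in 𝓝[>] (0 : ℝ), δ < |x - y| :=
          mem_nhdsWithin_of_mem_nhds (Iio_mem_nhds (abs_pos.2 (sub_ne_zero.2 hxy)))
        exact this.mono fun _ h _ => h
    obtain ⟨δ, h1, h2⟩ := (this.and self_mem_nhdsWithin).exists
    exact ⟨δ, h2, h1⟩
  obtain ⟨s, h1, h2, h3⟩ := h δ hδ
  have h4 : ∀ x ∈ T, ∃ I ∈ s, x ∈ iv I := fun x hx => mem_Rg.1 (h3 (hT hx))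
  choose! f hf1 hf2 using h4
  obtain ⟨x, hx, y, hy, hne, hxy⟩ := Finset.exists_ne_map_eq_of_card_lt_of_maps_to
    (show s.card < T.card by omega) hf1
  have a1 := hf2 x hx
  have a2 := hf2 y hy
  rw [← hxy] at a2
  have a3 := h2 _ (hf1 x hx)
  have a4 := hsep x hx y hy hne
  have : |x - y| ≤ δ := abs_le.2 ⟨by linarith [a1.1, a2.2], by linarith [a1.2, a2.1]⟩
  linarith

end Pool.Agent.H766Z.Pr
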