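import Pool.Agent.H766Z.PrDir
import Pool.Agent.H766Z.PrHeavy
import Pool.Agent.H766Z.AspTree

set_option autoImplicit false

namespace Pool.Agent.H766Z.Pr

open Set Filter Topology
open Pool.Agent.H766Z.Asp (pre pre_length pre_congr)

def Jmp (A : Set ℝ) : Set ℝ := {a | a ∈ A ∨ ∃ q : ℚ, a = q}

structure XData (A : Set ℝ) (X : Type) [NormedAddCommGroup X] [NormedSpace ℝ X] where
  ev : ℝ → X →L[ℝ] ℝ
  e : ℝ → X
  ev_le : ∀ s x, |ev s x| ≤ ‖x‖
  norm_le : ∀ x C, 0 ≤ C → (∀ s, |ev s x| ≤ C) → ‖x‖ ≤ C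
  ev_e : ∀ a ∈ Jmp A, ∀ s, ev s (e a) = if s < a then 1 else 0
  dense : Dense (Submodule.span ℝ (e '' Jmp A) : Set X)
  rc : ∀ x s, ContinuousWithinAt (fun u => ev u x) (Ici s) s

abbrev CodeB : Type := List Bool × ℕ → Set (ℚ × ℚ)

def Hv (k : CodeB) (s : List Bool) (m : ℕ) : Set ℝ :=
  {t | ∀ I : ℚ × ℚ, (I.1 : ℝ) < t → t < I.2 → I ∈ k (s, m)}

def QQ (k : CodeB) (σ : ℕ → Bool) : Set ℝ :=
  (⋃ m, ⋂ n, Hv k (pre σ n) m) \ ⋃ n, Hv k (false :: pre σ n) n ∩ Hv k (true :: pre σ n) n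

abbrev Op (Y : Type) [TopologicalSpace Y] := {U : Set Y // IsOpen U ∧ U.Nonempty}

variable {A : Set ℝ} {X Y : Type} [NormedAddCommGroup X] [NormedSpace ℝ X]
  [NormedAddCommGroup Y] [NormedSpace ℝ Y] {g : Y → ℝ} {L : ℝ}

def Fx (D : XData A X) (jX : X →L[ℝ] Y) (g : Y → ℝ) (m : ℕ) (U : Op Y) (I : ℚ × ℚ) : Prop :=
  ∃ v : X, ‖v‖ ≤ 1 ∧ (∀ s ∉ iv I, D.ev s v = 0) ∧
    ∀ z ∈ U.1, dd g z (-jX v) < -(1 / ((m : ℝ) + 1))

theorem CL.dd_sum (h : CL g L) (z : Y) {ι : Type} (s : Finset ι) (f : ι → Y) :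
    dd g z (∑ i ∈ s, f i) ≤ ∑ i ∈ s, dd g z (f i) := by
  classical
  induction s using Finset.induction_on with
  | empty => simp [h.dd_zero]
  | insert i s hi ih =>
    rw [Finset.sum_insert hi, Finset.sum_insert hi]
    exact (h.dd_add _ _ _).trans (by linarith)

theorem cap (D : XData A X) (jX : X →L[ℝ] Y) (h : CL g L) (m : ℕ) :
    Cap (Fx D jX g m) ⌈((m : ℝ) + 1) * (L * ‖jX‖)⌉₊ := by
  constructor
  · rintro U V I hVU ⟨v, h1, h2, h3⟩
    exact ⟨v, h1, h2, fun z hz => h3 z (hVU hz)⟩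
  · intro U s hs hF
    choose! v hv1 hv2 hv3 using hF
    obtain ⟨z, hz⟩ := U.2.2
    have h1 : ‖∑ I ∈ s, v I‖ ≤ 1 := by
      refine D.norm_le _ _ zero_le_one fun u => ?_
      rw [map_sum]
      by_cases hu : ∃ I ∈ s, u ∈ iv I
      · obtain ⟨I, hI, huI⟩ := hu
        rw [Finset.sum_eq_single_of_mem I hI]
        · exact (D.ev_le _ _).trans (hv1 I hI)
        · intro J hJ hne
          exact hv2 J hJ u fun huJ => Set.disjoint_left.1 (hs J hJ I hI hne) huJ huI
      · push Not at hu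
        rw [Finset.sum_eq_zero fun I hI => hv2 I hI u (hu I hI)]
        simp
    have h2 := h.dd_sum z s fun I => -jX (v I)
    have h3 : ∑ I ∈ s, dd g z (-jX (v I)) ≤ s.card • (-(1 / ((m : ℝ) + 1))) :=
      Finset.sum_le_card_nsmul _ _ _ fun I hI => (hv3 I hI z hz).le
    rw [Finset.sum_neg_distrib, ← map_sum] at h2
    have h4 := (abs_le.1 (h.dd_abs z (-jX (∑ I ∈ s, v I)))).1
    have h5 : ‖-jX (∑ I ∈ s, v I)‖ ≤ ‖jX‖ := by
      rw [norm_neg]
      exact (jX.le_opNorm _).trans (mul_le_of_le_one_right (norm_nonneg _) h1)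
    have h6 := mul_le_mul_of_nonneg_left h5 h.pos
    rw [nsmul_eq_mul] at h3
    have h7 : (s.card : ℝ) * (1 / ((m : ℝ) + 1)) ≤ L * ‖jX‖ := by linarith
    have hm : (0 : ℝ) < (m : ℝ) + 1 := by positivity
    rw [mul_one_div, div_le_iff₀ hm, mul_comm] at h7
    exact_mod_cast h7.trans (Nat.le_ceil _)

theorem heavy_le (D : XData A X) (jX : X →L[ℝ] Y) {m n : ℕ} (hmn : m ≤ n) (U : Op Y) :
    Heavy (Fx D jX g m) U ⊆ Heavy (Fx D jX g n) U := by
  intro t ht I h1 h2
  obtain ⟨V, hV, v, a1, a2, a3⟩ := ht I h1 h2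
  refine ⟨V, hV, v, a1, a2, fun z hz => (a3 z hz).trans_le ?_⟩
  exact neg_le_neg (Nat.one_div_le_one_div hmn)

theorem gstep (D : XData A X) (jX : X →L[ℝ] Y) (h : CL g L) {H : Type} [NormedAddCommGroup H]
    [InnerProductSpace ℝ H] (jH : H →L[ℝ] Y) (w : ℕ → Y) (q : ℕ → ℝ) (n : ℕ)
    (N : Op Y × List ℝ) :
    ∃ (c : Bool → Op Y) (l' : List ℝ),
      (∀ b, closure (c b).1 ⊆ N.1.1 ∧ (∀ y ∈ (c b).1, ∀ z ∈ (c b).1, dist y z ≤ 1 / ((n : ℝ) + 1)) ∧
        (∀ z ∈ (c b).1, (∀ a ∈ N.2, sym g z (jX (D.e a)) ≤ 1 / ((n : ℝ) + 1)) ∧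
          (∀ k ≤ n, sym g z (w k) ≤ 1 / ((n : ℝ) + 1)) ∧
          ∀ u : H, ‖u‖ ≤ 1 → sym g z (jH u) ≤ 1 / ((n : ℝ) + 1)) ∧
        ∃ s : Finset (ℚ × ℚ), s.card ≤ ⌈(((Nat.unpair n).1 : ℝ) + 1) * (L * ‖jX‖)⌉₊ ∧
          (∀ I ∈ s, (I.2 : ℝ) - I.1 ≤ 1 / ((n : ℝ) + 1)) ∧
          Heavy (Fx D jX g (Nat.unpair n).1) (c b) ⊆ Rg s) ∧
      (∀ a ∈ N.2, a ∈ l') ∧ q n ∈ l' ∧
      ∀ t ∈ Heavy (Fx D jX g n) (c false) ∩ Heavy (Fx D jX g n) (c true), t ∈ l' := by
  have hε : (0 : ℝ) < 1 / ((n : ℝ) + 1) := Nat.one_div_pos_of_nat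
  obtain ⟨x, hx⟩ := N.1.2.2
  obtain ⟨r, hr, hrU⟩ := Metric.nhds_basis_closedBall.mem_iff.1 (N.1.2.1.mem_nhds hx)
  have hr' : 0 < min r (1 / ((n : ℝ) + 1) / 2) := lt_min hr (half_pos hε)
  obtain ⟨V1, a1, a2, a3, a4⟩ := h.stab_list
    (N.2.map (fun a => jX (D.e a)) ++ (List.range (n + 1)).map w) hε Metric.isOpen_ball
    ⟨x, Metric.mem_ball_self hr'⟩
  obtain ⟨V2, b1, b2, b3, b4⟩ := h.stab_hilbert jH a2 a3 hε
  obtain ⟨V3, c1, s, c2, c3, c4⟩ := (cap D jX h (Nat.unpair n).1).cover ⟨V2, b2, b3⟩ hε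
  obtain ⟨V4, d1, V5, d2, d3⟩ := (cap D jX h n).pair V3
  have hc : ∀ b : Bool, (if b then V5 else V4) ≤ V3 := fun b => by cases b <;> simpa
  refine ⟨fun b => if b then V5 else V4, q n :: (N.2 ++ d3.toFinset.toList), fun b => ?_,
    fun a ha => by simp [ha], by simp, fun t ht => ?_⟩
  · have e2 : (if b then V5 else V4).1 ⊆ V2 := (hc b).trans c1
    have e1 : (if b then V5 else V4).1 ⊆ V1 := e2.trans b1
    have e0 := e1.trans a1
    refine ⟨?_, ?_, fun z hz => ⟨fun a ha => ?_, fun k hk => ?_, b4 z (e2 hz)⟩,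
      s, c2, c3, (Heavy_mono (hc b)).trans c4⟩
    · refine (closure_minimal (e0.trans Metric.ball_subset_closedBall)
        Metric.isClosed_closedBall).trans ?_
      exact (Metric.closedBall_subset_closedBall (min_le_left _ _)).trans hrU
    · intro y hy z hz
      have f1 := Metric.mem_ball.1 (e0 hy)
      have f2 := Metric.mem_ball.1 (e0 hz)
      have f3 := dist_triangle_right y z x
      have f4 := min_le_right r (1 / ((n : ℝ) + 1) / 2)
      linarith
    · exact a4 z (e1 hz) _ (List.mem_append_left _ (List.mem_map_of_mem ha))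
    · exact a4 z (e1 hz) _ (List.mem_append_right _
        (List.mem_map_of_mem (List.mem_range.2 (by omega))))
  · have : t ∈ d3.toFinset := by simpa using ht
    simp [this]

theorem le_zero_of_le_one_div {x C : ℝ} {N : ℕ} (h : ∀ n ≥ N, x ≤ C * (1 / ((n : ℝ) + 1))) :
    x ≤ 0 := by
  have h1 : Tendsto (fun n : ℕ => C * (1 / ((n : ℝ) + 1))) atTop (𝓝 (C * 0)) :=
    tendsto_one_div_add_atTop_nhds_zero_nat.const_mul C
  rw [mul_zero] at h1
  exact ge_of_tendsto h1 (eventually_atTop.2 ⟨N, h⟩)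

def CL.ker (h : CL g L) (x : Y) : Submodule ℝ Y where
  carrier := {v | sym g x v ≤ 0}
  add_mem' := fun {a b} ha hb => by
    have := h.sym_add x a b
    simp only [mem_ofPred_eq] at *
    linarith
  zero_mem' := by simpa using h.sym_le x 0
  smul_mem' := fun c v hv => by
    simp only [mem_ofPred_eq] at *
    rw [h.sym_smul]
    exact mul_nonpos_of_nonneg_of_nonpos (abs_nonneg c) hv

theorem CL.ker_closed (h : CL g L) (x : Y) : IsClosed (h.ker x : Set Y) := by
  have : LipschitzWith (Real.toNNReal (2 * L)) (sym g x) := by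
    refine LipschitzWith.of_le_add_mul _ fun v w => ?_
    have h1 := h.sym_add x w (v - w)
    have h2 := h.sym_le x (v - w)
    rw [add_sub_cancel] at h1
    rw [Real.coe_toNNReal _ (by linarith [h.pos]), dist_eq_norm]
    linarith
  exact isClosed_le this.continuous continuous_const

theorem gds_global [CompleteSpace Y] (D : XData A X)
    (hA : ∀ k : CodeB, (∀ σ, (QQ k σ).Countable) → (∀ t, {σ | t ∈ QQ k σ}.Countable) →
      ∃ σ, Disjoint (QQ k σ) A)
    {H W : Type} [NormedAddCommGroup H] [InnerProductSpace ℝ H] [NormedAddCommGroup W]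
    [NormedSpace ℝ W] [TopologicalSpace.SeparableSpace W]
    (jX : X →L[ℝ] Y) (jH : H →L[ℝ] Y) (jW : W →L[ℝ] Y)
    (hsum : ∀ y, ∃ x u w, y = jX x + jH u + jW w) (h : CL g L) {U : Set Y} (hU : IsOpen U)
    (hne : U.Nonempty) : ∃ x ∈ U, ∀ v, sym g x v ≤ 0 := by
  obtain ⟨q, hq⟩ := exists_surjective_nat ℚ
  choose c l' hc hl1 hl2 hl3 using gstep D jX h jH
    (fun k => jW (TopologicalSpace.denseSeq W k)) (fun n => (q n : ℝ))
  let node : List Bool → Op Y × List ℝ := fun s =>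
    List.rec (⟨U, hU, hne⟩, []) (fun b s N => (c s.length N b, l' s.length N)) s
  have hcons : ∀ b s, node (b :: s) = (c s.length (node s) b, l' s.length (node s)) :=
    fun _ _ => rfl
  have hnext : ∀ (σ : ℕ → Bool) n, node (pre σ (n + 1)) =
      (c n (node (pre σ n)) (σ n), l' n (node (pre σ n))) := by
    intro σ n
    simp only [pre, hcons, pre_length]
  let k : CodeB := fun p => {I | ∃ V ≤ (node p.1).1, Fx D jX g p.2 V I}
  have hk : ∀ s m, Hv k s m = Heavy (Fx D jX g m) (node s).1 := fun _ _ => rfl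
  obtain ⟨σ, hσ⟩ := hA k
    (by
      intro σ
      refine Countable.mono diff_subset (countable_iUnion fun m => Finite.countable ?_)
      refine finite_of_covers (k := ⌈((m : ℝ) + 1) * (L * ‖jX‖)⌉₊) fun δ hδ => ?_
      obtain ⟨i, hi⟩ := exists_nat_one_div_lt hδ
      obtain ⟨s, h1, h2, h3⟩ := (hc (Nat.pair m i) (node (pre σ (Nat.pair m i)))
        (σ (Nat.pair m i))).2.2.2
      rw [Nat.unpair_pair] at h1 h3
      refine ⟨s, h1, fun I hI => (h2 I hI).trans ?_, (iInter_subset _ (Nat.pair m i + 1)).trans ?_⟩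
      · exact (Nat.one_div_le_one_div (Nat.right_le_pair m i)).trans hi.le
      · rw [hk, hnext]
        exact h3)
    (by
      intro t
      have e : {σ | t ∈ QQ k σ} ⊆ ⋃ m, {σ | (t ∈ ⋂ n, Hv k (pre σ n) m) ∧
          t ∉ ⋃ n, Hv k (false :: pre σ n) n ∩ Hv k (true :: pre σ n) n} := by
        rintro σ ⟨h1, h2⟩
        obtain ⟨m, hm⟩ := mem_iUnion.1 h1
        exact mem_iUnion.2 ⟨m, hm, h2⟩
      refine Countable.mono e (countable_iUnion fun m => ?_)
      refine Set.MapsTo.countable_of_injOn (f := fun σ (i : Fin m) => σ i) (mapsTo_univ _ _) ?_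
        countable_univ
      rintro σ ⟨a1, a2⟩ τ ⟨b1, -⟩ hστ
      by_contra hne
      have hex : ∃ n, σ n ≠ τ n := Function.ne_iff.1 hne
      have hn := Nat.find_spec hex
      have hpre : pre σ (Nat.find hex) = pre τ (Nat.find hex) :=
        pre_congr fun i hi => by simpa using Nat.find_min hex hi
      have hm : m ≤ Nat.find hex := by
        by_contra hlt
        exact hn (congrFun hστ ⟨Nat.find hex, not_le.1 hlt⟩)
      have c1 := mem_iInter.1 a1 (Nat.find hex + 1)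
      have c2 := mem_iInter.1 b1 (Nat.find hex + 1)
      rw [hk] at c1 c2
      have c3 := heavy_le D jX hm _ c1
      have c4 := heavy_le D jX hm _ c2
      rw [← hk] at c3 c4
      simp only [pre] at c3 c4
      rw [← hpre] at c4
      refine a2 (mem_iUnion.2 ⟨Nat.find hex, ?_⟩)
      cases h1 : σ (Nat.find hex) <;> cases h2 : τ (Nat.find hex) <;> rw [h1] at c3 <;>
        rw [h2] at c4
      · exact absurd (h1.trans h2.symm) hn
      · exact ⟨c3, c4⟩
      · exact ⟨c4, c3⟩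
      · exact absurd (h1.trans h2.symm) hn)
  have hcl : ∀ n, closure (node (pre σ (n + 1))).1.1 ⊆ (node (pre σ n)).1.1 := fun n => by
    rw [hnext]
    exact (hc _ _ _).1
  have hanti : Antitone fun n => (node (pre σ n)).1.1 :=
    antitone_nat_of_succ_le fun n => subset_closure.trans (hcl n)
  have hy : ∀ n, ∃ y, y ∈ (node (pre σ (n + 1))).1.1 := fun n => (node (pre σ (n + 1))).1.2.2
  choose y hy using hy
  have hcau : CauchySeq y := by
    refine cauchySeq_of_le_tendsto_0 (fun N : ℕ => 1 / ((N : ℝ) + 1)) (fun n m N hn hm => ?_)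
      tendsto_one_div_add_atTop_nhds_zero_nat
    have f1 := hanti (Nat.succ_le_succ hn) (hy n)
    have f2 := hanti (Nat.succ_le_succ hm) (hy m)
    simp only [Nat.succ_eq_add_one, hnext] at f1 f2
    exact (hc _ _ _).2.1 _ f1 _ f2
  obtain ⟨x, hx⟩ := cauchySeq_tendsto_of_complete hcau
  have hxn : ∀ n, x ∈ (node (pre σ n)).1.1 := fun n => hcl n
    (mem_closure_of_tendsto hx (eventually_atTop.2 ⟨n, fun m hm =>
      hanti (Nat.succ_le_succ hm) (hy m)⟩))
  have hS := fun n => (hc n (node (pre σ n)) (σ n)).2.2.1 x (by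
    have := hxn (n + 1)
    rwa [hnext] at this)
  have hlist : ∀ n a, a ∈ (node (pre σ n)).2 → sym g x (jX (D.e a)) ≤ 0 := by
    intro n a ha
    have : ∀ m ≥ n, a ∈ (node (pre σ m)).2 := by
      intro m hm
      induction m, hm using Nat.le_induction with
      | base => exact ha
      | succ m _ ih =>
        rw [hnext]
        exact hl1 _ _ a ih
    refine le_zero_of_le_one_div (C := 1) (N := n) fun m hm => ?_
    rw [one_mul]
    exact (hS m).1 a (this m hm)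
  have hrat : ∀ r : ℚ, sym g x (jX (D.e r)) ≤ 0 := by
    intro r
    obtain ⟨n, rfl⟩ := hq r
    refine hlist (n + 1) _ ?_
    rw [hnext]
    exact hl2 _ _
  have hgen : ∀ a ∈ Jmp A, sym g x (jX (D.e a)) ≤ 0 := by
    intro a ha
    rcases ha with ha | ⟨r, rfl⟩
    swap
    · exact hrat r
    by_cases h1 : a ∈ ⋃ n, Hv k (false :: pre σ n) n ∩ Hv k (true :: pre σ n) n
    · obtain ⟨n, hn⟩ := mem_iUnion.1 h1
      refine hlist (n + 1) _ ?_
      rw [hnext]
      refine hl3 _ _ a ?_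
      simpa only [hk, hcons, pre_length] using hn
    have h2 : a ∉ ⋃ m, ⋂ n, Hv k (pre σ n) m := fun h2 => Set.disjoint_left.1 hσ ⟨h2, h1⟩ ha
    refine le_zero_of_le_one_div (C := 2) (N := 0) fun m _ => ?_
    simp only [mem_iUnion, mem_iInter, not_exists, not_forall] at h2
    obtain ⟨n, hn⟩ := h2 m
    rw [hk] at hn
    simp only [Heavy, mem_ofPred_eq, not_forall] at hn
    obtain ⟨I, i1, i2, i3⟩ := hn
    have key : ∀ v : X, ‖v‖ ≤ 1 → (∀ s ∉ iv I, D.ev s v = 0) →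
        dd g x (jX v) ≤ 1 / ((m : ℝ) + 1) := by
      intro v v1 v2
      by_contra hlt
      obtain ⟨V, a1, a2, a3, a4⟩ := h.minimal (node (pre σ n)).1.2.1 (hxn n) (not_le.1 hlt)
      exact i3 ⟨⟨V, a2, a3⟩, a1, v, v1, v2, a4⟩
    have hev : ∀ s, D.ev s (D.e a - D.e I.1) =
        (if s < a then 1 else 0) - if s < I.1 then 1 else 0 := fun s => by
      rw [map_sub, D.ev_e a (Or.inl ha), D.ev_e _ (Or.inr ⟨I.1, rfl⟩)]
    have n1 : ‖D.e a - D.e I.1‖ ≤ 1 := D.norm_le _ _ zero_le_one fun s => by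
      rw [hev]
      split_ifs <;> norm_num
    have n2 : ∀ s ∉ iv I, D.ev s (D.e a - D.e I.1) = 0 := by
      intro s hs
      rw [hev]
      simp only [iv, mem_Icc, not_and_or, not_le] at hs
      rcases hs with hs | hs
      · rw [if_pos hs, if_pos (hs.trans i1), sub_self]
      · rw [if_neg (by linarith), if_neg (by linarith), sub_self]
    have k1 := key _ n1 n2
    have k2 := key (-(D.e a - D.e I.1)) (by rwa [norm_neg]) fun s hs => by
      rw [map_neg, n2 s hs, neg_zero]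
    rw [map_neg] at k2
    have k3 := h.sym_add x (jX (D.e I.1)) (jX (D.e a - D.e I.1))
    rw [← map_add, add_sub_cancel] at k3
    have k4 := hrat I.1
    have k5 : sym g x (jX (D.e a - D.e I.1)) ≤ 2 * (1 / ((m : ℝ) + 1)) := by
      unfold sym
      linarith
    linarith
  have hX : ∀ v : X, jX v ∈ h.ker x := by
    intro v
    have h1 : Submodule.span ℝ (D.e '' Jmp A) ≤ (h.ker x).comap (jX : X →ₗ[ℝ] Y) := by
      rw [Submodule.span_le]
      rintro _ ⟨a, ha, rfl⟩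
      exact hgen a ha
    exact closure_minimal h1 ((h.ker_closed x).preimage jX.continuous) (D.dense v)
  have hW : ∀ v : W, jW v ∈ h.ker x := by
    intro v
    have h1 : range (TopologicalSpace.denseSeq W) ⊆ jW ⁻¹' (h.ker x) := by
      rintro _ ⟨i, rfl⟩
      refine le_zero_of_le_one_div (C := 1) (N := i) fun m hm => ?_
      rw [one_mul]
      exact (hS m).2.1 i hm
    exact closure_minimal h1 ((h.ker_closed x).preimage jW.continuous)
      (TopologicalSpace.denseRange_denseSeq W v)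
  have hH : ∀ v : H, jH v ∈ h.ker x := by
    intro v
    by_cases hv : v = 0
    · simp [hv]
    have hn : 0 < ‖v‖ := norm_pos_iff.2 hv
    have h1 : jH (‖v‖⁻¹ • v) ∈ h.ker x := by
      refine le_zero_of_le_one_div (C := 1) (N := 0) fun m _ => ?_
      rw [one_mul]
      exact (hS m).2.2 _ (by rw [norm_smul, norm_inv, norm_norm, inv_mul_cancel₀ hn.ne'])
    have h2 := (h.ker x).smul_mem ‖v‖ h1
    rwa [← map_smul, smul_smul, mul_inv_cancel₀ hn.ne', one_smul] at h2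
  refine ⟨x, hxn 0, fun v => ?_⟩
  obtain ⟨a, b, d, rfl⟩ := hsum v
  exact (h.ker x).add_mem ((h.ker x).add_mem (hX a) (hH b)) (hW d)

end Pool.Agent.H766Z.Pr
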