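import Pool.Agent.H766Z.PrGDS
import Pool.Agent.H766Z.PrDefs

set_option autoImplicit false

namespace Pool.Agent.H766Z.Pr

open Set Filter Topology Cardinal
open Pool.Agent.H766Z.Asp

abbrev CodeA : Type := List Bool → ℚ × ℚ

def TT (k : CodeA) : Set ℝ :=
  {t | ∃ σ : ℕ → Bool, ∀ n, ((k (pre σ n)).1 : ℝ) < t ∧ t < (k (pre σ n)).2}

variable {A : Set ℝ} {X : Type} [NormedAddCommGroup X] [NormedSpace ℝ X]

noncomputable def XData.fs (D : XData A X) (x : X) : ℝ := ⨆ s, D.ev s x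

theorem XData.le_fs (D : XData A X) (x : X) (s : ℝ) : D.ev s x ≤ D.fs x :=
  le_ciSup (f := fun s => D.ev s x) ⟨‖x‖, by
    rintro _ ⟨u, rfl⟩
    exact (abs_le.1 (D.ev_le u x)).2⟩ s

theorem XData.fs_le (D : XData A X) {x : X} {c : ℝ} (h : ∀ s, D.ev s x ≤ c) : D.fs x ≤ c :=
  ciSup_le h

theorem XData.fs_lip (D : XData A X) (x y : X) : D.fs x ≤ D.fs y + dist x y := by
  refine D.fs_le fun s => ?_
  have h1 := (abs_le.1 (D.ev_le s (x - y))).2
  rw [map_sub, ← dist_eq_norm] at h1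
  linarith [D.le_fs y s]

theorem XData.fs_convex (D : XData A X) : ConvexOn ℝ univ D.fs := by
  refine ⟨convex_univ, fun x _ y _ a b ha hb _ => D.fs_le fun s => ?_⟩
  simp only [map_add, map_smul, smul_eq_mul]
  exact add_le_add (mul_le_mul_of_nonneg_left (D.le_fs x s) ha)
    (mul_le_mul_of_nonneg_left (D.le_fs y s) hb)

theorem XData.ev_dist (D : XData A X) (x y : X) (s : ℝ) : |D.ev s x - D.ev s y| ≤ dist x y := by
  rw [← map_sub, dist_eq_norm]
  exact D.ev_le _ _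

variable {B : Type}

def Inv (D : XData A X) (N : St X B × (ℚ × ℚ)) : Prop :=
  0 < N.1.2.1 ∧ N.2.1 < N.2.2 ∧
    ∀ u : ℝ, (N.2.1 : ℝ) < u → u < N.2.2 → D.fs N.1.1.1.1 - N.1.2.1 / 4 ≤ D.ev u N.1.1.1.1

theorem nstep (D : XData A X) {G : Set ((X × ℝ) × (B → ℝ))} (hG : IsOpen G) (hd : Dense G)
    (b : Bool) (N : St X B × (ℚ × ℚ)) (hN : Inv D N) :
    ∃ N' : St X B × (ℚ × ℚ), Inv D N' ∧ N'.1.2.1 ≤ N.1.2.1 / 2 ∧ cbS N'.1 ⊆ cbS N.1 ∧
      cbS N'.1 ⊆ G ∧ (if b then (N.2.1 + N.2.2) / 2 else N.2.1) < N'.2.1 ∧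
      N'.2.2 < (if b then N.2.2 else (N.2.1 + N.2.2) / 2) := by
  obtain ⟨⟨⟨⟨x, t⟩, y⟩, r, l⟩, q, q'⟩ := N
  obtain ⟨hr, hq, hinv⟩ := hN
  simp only at hr hq hinv ⊢
  obtain ⟨a, c, hac, hqa, hcq, ha, hc⟩ : ∃ a c : ℚ, a < c ∧ q < a ∧ c < q' ∧
      (if b then (q + q') / 2 else q) < a ∧ c < (if b then q' else (q + q') / 2) := by
    cases b
    · exact ⟨(5 * q + q') / 6, (2 * q + q') / 3, by linarith, by linarith, by linarith,
        by simp only [Bool.false_eq_true, if_false]; linarith,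
        by simp only [Bool.false_eq_true, if_false]; linarith⟩
    · exact ⟨(q + 2 * q') / 3, (q + 5 * q') / 6, by linarith, by linarith, by linarith,
        by simp only [if_true]; linarith, by simp only [if_true]; linarith⟩
  have hac' : (a : ℝ) < c := by exact_mod_cast hac
  have hev : ∀ s, D.ev s (D.e c - D.e a) =
      (if s < c then 1 else 0) - if s < a then 1 else 0 := fun s => by
    rw [map_sub, D.ev_e c (Or.inr ⟨c, rfl⟩), D.ev_e _ (Or.inr ⟨a, rfl⟩)]
  have n1 : ‖D.e c - D.e a‖ ≤ 1 := D.norm_le _ _ zero_le_one fun s => by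
    rw [hev]
    split_ifs <;> norm_num
  set x1 := x + (r / 2) • (D.e c - D.e a) with hx1
  have hd1 : dist x1 x ≤ r / 2 := by
    rw [hx1, dist_self_add_left, norm_smul, Real.norm_eq_abs, abs_of_pos (half_pos hr)]
    exact mul_le_of_le_one_right (half_pos hr).le n1
  let O : Set ((X × ℝ) × (B → ℝ)) := {p | dist p.1 (x1, t) < r / 16} ∩
    ⋂ β ∈ {β | β ∈ l}, {p | |p.2 β - y β| < r}
  have hO : IsOpen O := by
    refine IsOpen.inter (isOpen_lt (by fun_prop) continuous_const) ?_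
    refine Set.Finite.isOpen_biInter (List.finite_toSet _) fun β _ => ?_
    exact isOpen_lt (by fun_prop) continuous_const
  have hne : O.Nonempty := ⟨((x1, t), y), by simp [hr], by simp [hr]⟩
  obtain ⟨p, hpO, hpG⟩ := hd.inter_open_nonempty O hO hne
  obtain ⟨s', h1, h2, h3⟩ := exists_cbS (hO.inter hG) ⟨hpO, hpG⟩ (half_pos hr)
  have hcen : dist s'.1.1.1 x1 < r / 16 :=
    lt_of_le_of_lt (le_max_left _ _) (h3 (center_mem h1)).1.1
  generalize hx2 : s'.1.1.1 = x2 at hcen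
  have hη : 0 < min (s'.2.1 / 8) (r / 16) := by positivity
  obtain ⟨u, hu⟩ : ∃ u, D.fs x2 - min (s'.2.1 / 8) (r / 16) < D.ev u x2 :=
    exists_lt_of_lt_ciSup (f := fun s => D.ev s x2) (sub_lt_self _ hη)
  have m1 := min_le_left (s'.2.1 / 8) (r / 16)
  have m2 := min_le_right (s'.2.1 / 8) (r / 16)
  have hua : (a : ℝ) ≤ u ∧ u < c := by
    by_contra hcon
    have e1 : D.ev u x1 = D.ev u x := by
      rw [hx1, map_add, map_smul, hev]
      by_cases h4 : u < a
      · simp [h4, h4.trans hac']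
      · have h5 : ¬ u < c := fun h5 => hcon ⟨not_lt.1 h4, h5⟩
        simp [h4, h5]
    have e2 : D.ev a x1 = D.ev a x + r / 2 := by
      rw [hx1, map_add, map_smul, hev]
      simp [hac']
    have f1 := abs_le.1 (D.ev_dist x2 x1 u)
    have f2 := abs_le.1 (D.ev_dist x2 x1 a)
    have f3 := D.le_fs x u
    have f4 := D.le_fs x2 a
    have f5 := hinv a (by exact_mod_cast hqa) (by exact_mod_cast hac.trans hcq)
    linarith [f1.2, f2.1]
  have hrc := (D.rc x2 u).eventually (lt_mem_nhds (show D.ev u x2 - s'.2.1 / 8 < D.ev u x2 by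
    linarith))
  obtain ⟨d, hd1', hd2⟩ := mem_nhdsGE_iff_exists_Ico_subset.1 hrc
  obtain ⟨q1, g1, g2⟩ := exists_rat_btwn (lt_min (show u < d from hd1') hua.2)
  obtain ⟨q2, g3, g4⟩ := exists_rat_btwn g2
  refine ⟨(s', q1, q2), ⟨h1, by exact_mod_cast g3, fun v v1 v2 => ?_⟩, h2, ?_,
    fun p hp => (h3 hp).2, ha.trans ?_, lt_trans ?_ hc⟩
  · have := hd2 (show v ∈ Ico u d from
      ⟨(g1.trans v1).le, (v2.trans g4).trans_le (min_le_left _ _)⟩)
    simp only [mem_ofPred_eq] at this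
    simp only [hx2]
    linarith
  · intro p hp
    obtain ⟨⟨a1, a2⟩, -⟩ := h3 hp
    simp only [mem_iInter, mem_ofPred_eq] at a1 a2
    refine ⟨?_, fun β hβ => (a2 β hβ).le⟩
    have b1 := dist_triangle p.1 (x1, t) (x, t)
    rw [dist_prod_same_right] at b1
    simp only
    linarith
  · exact_mod_cast hua.1.trans_lt g1
  · exact_mod_cast g4.trans_le (min_le_right _ _)

theorem not_gat {Y : Type} [AddCommGroup Y] [Module ℝ Y] [TopologicalSpace Y] {f : Y → ℝ} {x w : Y}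
    (h1 : ∀ t : ℝ, 0 < t → f x + t ≤ f (x + t • w)) (h2 : ∀ t : ℝ, f x ≤ f (x + t • w)) :
    ¬ GateauxDiffAt f x := by
  rintro ⟨φ, hφ⟩
  obtain ⟨δ, hδ, h⟩ := hφ w (1 / 2) (by norm_num)
  have hp : 0 < δ / 2 := half_pos hδ
  have a1 := h (δ / 2) (by rwa [abs_of_pos hp]) (by rw [abs_of_pos hp]; linarith)
  have a2 := h (-(δ / 2)) (by rwa [abs_neg, abs_of_pos hp])
    (by rw [abs_neg, abs_of_pos hp]; linarith)
  have b1 := h1 (δ / 2) hp
  have b2 := h2 (-(δ / 2))
  have c1 : 1 ≤ (f (x + (δ / 2) • w) - f x) / (δ / 2) := by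
    rw [le_div_iff₀ hp]
    linarith
  have c2 : (f (x + (-(δ / 2)) • w) - f x) / (-(δ / 2)) ≤ 0 :=
    div_nonpos_of_nonneg_of_nonpos (by linarith) (by linarith)
  have := (abs_lt.1 a1).2
  have := (abs_lt.1 a2).1
  linarith

theorem not_wasp [CompleteSpace X] (D : XData A X)
    (hA : ∀ k : CodeA, 𝔠 ≤ #(TT k) → (TT k ∩ A).Nonempty) (E : Submodule ℝ (X × (B → ℝ)))
    (hE : ∀ F : Set B, F.Countable → ∀ p : X × (B → ℝ),
      ∃ e ∈ E, e.1 = p.1 ∧ ∀ β ∈ F, e.2 β = p.2 β) : ¬ IsWeakAsplund E := by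
  intro hW
  obtain ⟨G, -, hG, hd, hdiff⟩ := hW Set.univ univ_nonempty isOpen_univ convex_univ
    (fun e => D.fs e.1.1)
    ⟨convex_univ, fun x _ y _ a b ha hb hab => D.fs_convex.2 trivial trivial ha hb hab⟩
    (((LipschitzWith.of_le_add D.fs_lip).continuous.comp (by fun_prop)).continuousOn)
  obtain ⟨f, hf, rfl⟩ := hG.eq_iInter_nat
  have h1 : ∀ n, ∃ G' : Set (X × (B → ℝ)), IsOpen G' ∧ Subtype.val ⁻¹' G' = f n := fun n =>
    isOpen_induced_iff.1 (hf n)
  choose G' hG' hG'' using h1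
  let H : ℕ → Set ((X × ℝ) × (B → ℝ)) := fun n => (fun p => (p.1.1, p.2)) ⁻¹' G' n
  have hH : ∀ n, IsOpen (H n) := fun n => (hG' n).preimage (by fun_prop)
  have hHd : ∀ n, Dense (H n) := by
    intro n
    rw [dense_iff_inter_open]
    rintro O hO ⟨p, hp⟩
    obtain ⟨s, s1, -, s2⟩ := exists_cbS hO hp one_pos
    obtain ⟨e, e1, e2, e3⟩ := hE _ (List.finite_toSet s.2.2).countable (s.1.1.1, s.1.2)
    have hc : Continuous fun e : E => ((e.1.1, s.1.1.2), e.1.2) := by fun_prop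
    have hm : ((e.1, s.1.1.2), e.2) ∈ cbS s := by
      refine ⟨?_, fun β hβ => ?_⟩
      · rw [e2]
        simpa using s1.le
      · simp only
        rw [e3 β hβ]
        simpa using s1.le
    obtain ⟨z, z1, z2⟩ := mem_closure_iff.1 (hd (mem_univ (⟨e, e1⟩ : E))) _ (hO.preimage hc)
      (s2 hm)
    have z3 := mem_iInter.1 z2 n
    rw [← hG''] at z3
    exact ⟨_, z1, z3⟩
  have hstep : ∀ (n : ℕ) (b : Bool) (N : {N : St X B × (ℚ × ℚ) // Inv D N}),
      ∃ N' : {N : St X B × (ℚ × ℚ) // Inv D N}, N'.1.1.2.1 ≤ N.1.1.2.1 / 2 ∧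
        cbS N'.1.1 ⊆ cbS N.1.1 ∧ cbS N'.1.1 ⊆ H n ∧
        (if b then (N.1.2.1 + N.1.2.2) / 2 else N.1.2.1) < N'.1.2.1 ∧
        N'.1.2.2 < (if b then N.1.2.2 else (N.1.2.1 + N.1.2.2) / 2) := by
    intro n b N
    obtain ⟨N', a1, a2⟩ := nstep D (hH n) (hHd n) b N.1 N.2
    exact ⟨⟨N', a1⟩, a2⟩
  choose nx hnx using hstep
  have h0 : Inv D (((((0 : X), (0 : ℝ)), (0 : B → ℝ)), 1, []), (0, 1)) := by
    refine ⟨one_pos, one_pos, fun u _ _ => ?_⟩
    have : D.fs 0 ≤ 0 := D.fs_le fun s => by simp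
    simp only [map_zero]
    linarith
  let node : List Bool → {N : St X B × (ℚ × ℚ) // Inv D N} := fun l =>
    List.rec ⟨_, h0⟩ (fun b l s => nx l.length b s) l
  have hnext : ∀ (σ : ℕ → Bool) n, node (pre σ (n + 1)) = nx n (σ n) (node (pre σ n)) := by
    intro σ n
    change nx (pre σ n).length _ _ = _
    rw [pre_length]
  have hlt : ∀ (σ : ℕ → Bool) n, (node (pre σ n)).1.2.1 < (node (pre σ (n + 1))).1.2.1 ∧
      (node (pre σ (n + 1))).1.2.2 < (node (pre σ n)).1.2.2 := by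
    intro σ n
    rw [hnext]
    have a1 := (hnx n (σ n) (node (pre σ n))).2.2.2
    have a2 := (node (pre σ n)).2.2.1
    cases h : σ n <;> simp only [h, if_true, Bool.false_eq_true, if_false] at a1 ⊢ <;>
      constructor <;> linarith [a1.1, a1.2]
  have ht : ∀ σ : ℕ → Bool, ∃ t : ℝ, ∀ n, ((node (pre σ n)).1.2.1 : ℝ) < t ∧
      t < (node (pre σ n)).1.2.2 := by
    intro σ
    obtain ⟨t, ht⟩ := IsCompact.nonempty_iInter_of_sequence_nonempty_isCompact_isClosed
      (fun n => Icc ((node (pre σ n)).1.2.1 : ℝ) (node (pre σ n)).1.2.2)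
      (fun n => Icc_subset_Icc (by exact_mod_cast (hlt σ n).1.le) (by exact_mod_cast (hlt σ n).2.le))
      (fun n => nonempty_Icc.2 (by exact_mod_cast (node (pre σ n)).2.2.1.le)) isCompact_Icc
      fun n => isClosed_Icc
    refine ⟨t, fun n => ?_⟩
    have := mem_iInter.1 ht (n + 1)
    exact ⟨lt_of_lt_of_le (by exact_mod_cast (hlt σ n).1) this.1,
      lt_of_le_of_lt this.2 (by exact_mod_cast (hlt σ n).2)⟩
  choose τ hτ using ht
  obtain ⟨t, ⟨σ, hσ⟩, htA⟩ := hA (fun l => (node l).1.2) (by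
    have hinj : Function.Injective fun σ : ℕ → Bool =>
        (⟨τ σ, σ, hτ σ⟩ : TT fun l => (node l).1.2) := by
      intro σ σ' hστ
      have e : τ σ = τ σ' := congrArg Subtype.val hστ
      by_contra hne
      have hex : ∃ n, σ n ≠ σ' n := Function.ne_iff.1 hne
      have hn := Nat.find_spec hex
      have hpre : pre σ (Nat.find hex) = pre σ' (Nat.find hex) :=
        pre_congr fun i hi => by simpa using Nat.find_min hex hi
      have c1 := hτ σ (Nat.find hex + 1)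
      have c2 := hτ σ' (Nat.find hex + 1)
      rw [hnext] at c1 c2
      rw [← hpre, ← e] at c2
      have d1 := (hnx (Nat.find hex) false (node (pre σ (Nat.find hex)))).2.2.2.2
      have d2 := (hnx (Nat.find hex) true (node (pre σ (Nat.find hex)))).2.2.2.1
      simp only [if_true, Bool.false_eq_true, if_false] at d1 d2
      have d3 := (Rat.cast_lt (K := ℝ)).2 (d1.trans d2)
      cases h1 : σ (Nat.find hex) <;> cases h2 : σ' (Nat.find hex) <;> rw [h1] at c1 <;>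
        rw [h2] at c2
      · exact hn (h1.trans h2.symm)
      · linarith [c1.2, c2.1]
      · linarith [c1.1, c2.2]
      · exact hn (h1.trans h2.symm)
    simpa using mk_le_of_injective hinj)
  have hhalf : ∀ n, (node (pre σ (n + 1))).1.1.2.1 ≤ (node (pre σ n)).1.1.2.1 / 2 := fun n => by
    rw [hnext]
    exact (hnx _ _ _).1
  obtain ⟨p, hp⟩ := limit (fun n => (node (pre σ n)).1.1) (fun n => (node (pre σ n)).2.1) hhalf
    fun n => by
      rw [hnext]
      exact (hnx _ _ _).2.1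
  obtain ⟨e, e1, e2, e3⟩ := hE (⋃ n, {β | β ∈ (node (pre σ n)).1.1.2.2})
    (countable_iUnion fun n => (List.finite_toSet _).countable) (p.1.1, p.2)
  have hm : ∀ n, ((e.1, p.1.2), e.2) ∈ cbS (node (pre σ n)).1.1 := by
    intro n
    refine ⟨?_, fun β hβ => ?_⟩
    · rw [e2]
      exact (hp n).1
    · simp only
      rw [e3 β (mem_iUnion.2 ⟨n, hβ⟩)]
      exact (hp n).2 β hβ
  have heG : (⟨e, e1⟩ : E) ∈ ⋂ n, f n := by
    refine mem_iInter.2 fun n => ?_
    rw [← hG'']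
    have := hm (n + 1)
    rw [hnext] at this
    exact (hnx _ _ _).2.2.1 this
  obtain ⟨w, w1, w2, -⟩ := hE ∅ countable_empty (D.e t, 0)
  have hr : ∀ n, (node (pre σ n)).1.1.2.1 ≤ 1 / 2 ^ n := by
    intro n
    induction n with
    | zero => exact le_of_eq (by simp [node, pre])
    | succ n ih =>
      refine (hhalf n).trans ?_
      rw [pow_succ, ← div_div]
      linarith
  have key : ∀ ε > 0, ∃ n, ∀ u : ℝ, ((node (pre σ n)).1.2.1 : ℝ) < u →
      u < (node (pre σ n)).1.2.2 → D.fs e.1 - ε ≤ D.ev u e.1 := by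
    intro ε hε
    obtain ⟨n, hn⟩ := exists_pow_lt_of_lt_one (show 0 < ε / 3 by positivity)
      (show (1 / 2 : ℝ) < 1 by norm_num)
    refine ⟨n, fun u u1 u2 => ?_⟩
    have a1 := (node (pre σ n)).2.2.2 u u1 u2
    have a2 : dist e.1 (node (pre σ n)).1.1.1.1.1 ≤ (node (pre σ n)).1.1.2.1 :=
      le_trans (le_max_left _ _) (hm n).1
    have a3 := D.fs_lip e.1 (node (pre σ n)).1.1.1.1.1
    have a4 := (abs_le.1 (D.ev_dist e.1 (node (pre σ n)).1.1.1.1.1 u)).1
    have a5 := hr n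
    have a6 := (node (pre σ n)).2.1
    rw [one_div_pow] at hn
    linarith
  have hev := D.ev_e t (Or.inl htA)
  refine not_gat (w := ⟨w, w1⟩) (fun s hs => ?_) (fun s => ?_) (hdiff _ heG)
  · change D.fs e.1 + s ≤ D.fs (e.1 + s • w.1)
    refine le_of_forall_pos_le_add fun ε hε => ?_
    obtain ⟨n, hn⟩ := key ε hε
    obtain ⟨u, u1, u2⟩ := exists_between (hσ n).1
    have a1 := hn u u1 (u2.trans (hσ n).2)
    have a2 := D.le_fs (e.1 + s • w.1) u
    rw [w2, map_add, map_smul, hev, if_pos u2, smul_eq_mul, mul_one] at a2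
    rw [w2]
    linarith
  · change D.fs e.1 ≤ D.fs (e.1 + s • w.1)
    refine le_of_forall_pos_le_add fun ε hε => ?_
    obtain ⟨n, hn⟩ := key ε hε
    have a1 := hn t (hσ n).1 (hσ n).2
    have a2 := D.le_fs (e.1 + s • w.1) t
    rw [w2, map_add, map_smul, hev, if_neg (lt_irrefl t), smul_zero, add_zero] at a2
    rw [w2]
    linarith

end Pool.Agent.H766Z.Pr
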