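import Mathlib

set_option autoImplicit false

namespace Pool.Agent.H766Z.Pr

open Set Cardinal

theorem lt_cont_of_countable_fibers {α β : Type} {S : Set α} (hS : #S < 𝔠) (f : α → Set β)
    (hf : ∀ a, (f a).Countable) : #(⋃ a ∈ S, f a) < 𝔠 := by
  refine (mk_biUnion_le f S).trans_lt ?_
  refine mul_lt_of_lt aleph0_le_continuum hS (lt_of_le_of_lt ?_ aleph0_lt_continuum)
  exact ciSup_le' fun a => le_aleph0_iff_set_countable.2 (hf a)

theorem exists_setA {K : Type} (hK : #K ≤ 𝔠) (T : K → Set ℝ) (Q : K → (ℕ → Bool) → Set ℝ) :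
    ∃ A : Set ℝ, (∀ k, 𝔠 ≤ #(T k) → (T k ∩ A).Nonempty) ∧
      ∀ k, (∀ σ, (Q k σ).Countable) → (∀ t, {σ | t ∈ Q k σ}.Countable) →
        ∃ σ, Disjoint (Q k σ) A := by
  classical
  obtain ⟨_, _, hord⟩ := exists_ord_eq_type_lt K
  let T' : K → Set ℝ := fun k => if 𝔠 ≤ #(T k) then T k else Set.univ
  let Q' : K → (ℕ → Bool) → Set ℝ := fun k σ =>
    if (∀ σ, (Q k σ).Countable) ∧ (∀ t, {σ | t ∈ Q k σ}.Countable) then Q k σ else ∅
  have hT' : ∀ k, 𝔠 ≤ #(T' k) := by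
    intro k
    simp only [T']
    split_ifs with h
    · exact h
    · rw [mk_univ, mk_real]
  have hQ1 : ∀ k σ, (Q' k σ).Countable := by
    intro k σ
    simp only [Q']
    split_ifs with h
    · exact h.1 σ
    · exact countable_empty
  have hQ2 : ∀ k t, {σ | t ∈ Q' k σ}.Countable := by
    intro k t
    simp only [Q']
    split_ifs with h
    · exact h.2 t
    · simp
  have key : ∀ (k : K) (f : ∀ j, j < k → ℝ × (ℕ → Bool)), ∃ p : ℝ × (ℕ → Bool),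
      p.1 ∈ T' k ∧ (∀ j (hj : j < k), p.1 ∉ Q' j (f j hj).2) ∧ p.1 ∉ Q' k p.2 ∧
        ∀ j (hj : j < k), (f j hj).1 ∉ Q' k p.2 := by
    intro k f
    have hlt : #(Set.univ : Set (Iio k)) < 𝔠 := by
      rw [mk_univ]
      exact (mk_Iio_lt k hord).trans_le hK
    have h1 := lt_cont_of_countable_fibers hlt (fun j : Iio k => Q' j.1 (f j.1 j.2).2)
      fun _ => hQ1 _ _
    obtain ⟨t, ht1, ht2⟩ : ∃ t ∈ T' k, t ∉ ⋃ j ∈ (Set.univ : Set (Iio k)),
        Q' j.1 (f j.1 j.2).2 := by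
      by_contra hcon
      push Not at hcon
      exact absurd ((hT' k).trans (mk_le_mk_of_subset hcon)) (not_le.2 h1)
    have h2 := lt_cont_of_countable_fibers hlt
      (fun j : Iio k => {σ | t ∈ Q' k σ} ∪ {σ | (f j.1 j.2).1 ∈ Q' k σ})
      fun _ => (hQ2 _ _).union (hQ2 _ _)
    have h3 : #({σ | t ∈ Q' k σ} ∪ ⋃ j ∈ (Set.univ : Set (Iio k)),
        ({σ | t ∈ Q' k σ} ∪ {σ | (f j.1 j.2).1 ∈ Q' k σ}) : Set (ℕ → Bool)) < 𝔠 :=
      (mk_union_le _ _).trans_lt (add_lt_of_lt aleph0_le_continuum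
        ((le_aleph0_iff_set_countable.2 (hQ2 _ _)).trans_lt aleph0_lt_continuum) h2)
    obtain ⟨σ, hσ⟩ : ∃ σ, σ ∉ ({σ | t ∈ Q' k σ} ∪ ⋃ j ∈ (Set.univ : Set (Iio k)),
        ({σ | t ∈ Q' k σ} ∪ {σ | (f j.1 j.2).1 ∈ Q' k σ}) : Set (ℕ → Bool)) := by
      by_contra hcon
      push Not at hcon
      rw [eq_univ_of_forall hcon, mk_univ] at h3
      simp at h3
    refine ⟨(t, σ), ht1, fun j hj h => ht2 (mem_biUnion (mem_univ (⟨j, hj⟩ : Iio k)) h),
      fun h => hσ (Or.inl h), fun j hj h => hσ (Or.inr ?_)⟩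
    exact mem_biUnion (mem_univ (⟨j, hj⟩ : Iio k)) (Or.inr h)
  choose g hg using key
  let p : K → ℝ × (ℕ → Bool) := (wellFounded_lt (α := K)).fix g
  have hp : ∀ k, p k = g k fun j _ => p j := fun k => WellFounded.fix_eq _ _ _
  have hg' : ∀ k, (p k).1 ∈ T' k ∧ (∀ j, j < k → (p k).1 ∉ Q' j (p j).2) ∧
      (p k).1 ∉ Q' k (p k).2 ∧ ∀ j, j < k → (p j).1 ∉ Q' k (p k).2 := by
    intro k
    have := hg k fun j _ => p j
    rwa [← hp k] at this
  refine ⟨range fun k => (p k).1, fun k hk => ⟨(p k).1, ?_, k, rfl⟩, fun k h1 h2 => ⟨(p k).2, ?_⟩⟩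
  · have := (hg' k).1
    simp only [T', if_pos hk] at this
    exact this
  · have e : Q k (p k).2 = Q' k (p k).2 := by simp only [Q', if_pos (And.intro h1 h2)]
    rw [e, Set.disjoint_right]
    rintro _ ⟨j, rfl⟩
    rcases lt_trichotomy j k with h | rfl | h
    · exact (hg' k).2.2.2 j h
    · exact (hg' j).2.2.1
    · exact (hg' j).2.1 k h

end Pool.Agent.H766Z.Pr
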