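import Pool.Agent.H766Z.PrAsp
import Pool.Agent.H766Z.PrNon
import Pool.Agent.H766Z.PrSetA

set_option autoImplicit false

namespace Pool.Agent.H766Z.Pr

open Set Filter Topology Cardinal
open Pool.Agent.H766Z.Asp

theorem weak_of_asplund {Y : Type} [AddCommGroup Y] [Module ℝ Y] [TopologicalSpace Y]
    [IsTopologicalAddGroup Y] [ContinuousSMul ℝ Y] (h : IsAsplund Y) : IsWeakAsplund Y := by
  intro D h1 h2 h3 f h4 h5
  obtain ⟨G, a1, a2, a3, a4⟩ := h D h1 h2 h3 f h4 h5
  refine ⟨G, a1, a2, a3, fun x hx => ?_⟩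
  obtain ⟨φ, hφ⟩ := a4 x hx
  refine ⟨φ, fun w ε hε => ?_⟩
  obtain ⟨δ, hδ, h3⟩ := hφ {w} (Bornology.isVonNBounded_singleton w) ε hε
  exact ⟨δ, hδ, fun t a b => h3 t a b w rfl⟩

theorem mk_CodeA : #CodeA ≤ 𝔠 := le_fun (mk_le_aleph0.trans aleph0_le_continuum)

theorem mk_CodeB : #CodeB ≤ 𝔠 := le_fun (by simp)

theorem counterexample :
    ∃ (E : Type) (_ : AddCommGroup E) (_ : Module ℝ E) (_ : TopologicalSpace E)
      (_ : IsTopologicalAddGroup E) (_ : ContinuousSMul ℝ E)
      (F : Type) (_ : AddCommGroup F) (_ : Module ℝ F) (_ : TopologicalSpace F)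
      (_ : IsTopologicalAddGroup F) (_ : ContinuousSMul ℝ F),
      T2Space E ∧ LocallyConvexSpace ℝ E ∧ T2Space F ∧ LocallyConvexSpace ℝ F ∧
      IsAsplund (E × F) ∧ IsWeakAsplund (E × F) ∧ ¬ IsAsplund E ∧ ¬ IsWeakAsplund E := by
  obtain ⟨A, hA1, hA2⟩ := exists_setA (le_prod mk_CodeA mk_CodeB) (fun k => TT k.1)
    fun k => QQ k.2
  obtain ⟨X, _, _, _, hX, ⟨D⟩⟩ := exists_X A
  obtain ⟨H, _, _, _, hH, hdisc⟩ := exists_H
  obtain ⟨E, hE1, hE2, hE3⟩ := exists_sub hX
  obtain ⟨F, hF1, -, hF3⟩ := exists_sub hH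
  have hnot : ¬ IsWeakAsplund E := not_wasp D (fun k => hA1 (k, fun _ => ∅)) E hE2
  have hasp : IsAsplund (E × (F × C0)) := by
    obtain ⟨u, hu⟩ := hdisc ((E × (F × C0)) × Finset (I ⊕ (I ⊕ ℕ)))
      (le_prod (le_prod hE1 (le_prod hF1 mk_C0)) (by
        rw [mk_finset_of_infinite]
        simp only [mk_sum, lift_id]
        exact add_le_of_le aleph0_le_continuum mk_I (add_le_of_le aleph0_le_continuum mk_I
          (mk_le_aleph0.trans aleph0_le_continuum))))
      fun j => subT F j.1.2.1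
    refine asplund_of (hE3.prod (hF3.prod good_C0)) ?_ (fun n => Sum.inr (Sum.inr n))
      (fun a b h => by simpa using h) (fun y => y.2.2.2) (fun j => (0, (u j, 0))) fun ρ hρ =>
        ⟨fun j => ?_, fun j j' hne => ?_⟩
    · intro J g L hg U hU hne
      refine gds_global D (fun k => hA2 (fun _ => (0, 0), k))
        (H := H) (W := (Fin 0 → ℝ) × (J → ℝ))
        ((ContinuousLinearMap.inl ℝ _ _).comp (ContinuousLinearMap.inl ℝ _ _))
        ((ContinuousLinearMap.inl ℝ _ _).comp ((ContinuousLinearMap.inr ℝ _ _).comp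
          (ContinuousLinearMap.inl ℝ _ _)))
        (((ContinuousLinearMap.inr ℝ _ _).comp (ContinuousLinearMap.inr ℝ _ _)).prodMap
          (ContinuousLinearMap.id ℝ _)) (fun y => ⟨y.1.1, y.1.2.1, (y.1.2.2, y.2), ?_⟩) hg hU hne
      obtain ⟨⟨a, b, c⟩, d⟩ := y
      simp only [ContinuousLinearMap.comp_apply, ContinuousLinearMap.inl_apply,
        ContinuousLinearMap.inr_apply, ContinuousLinearMap.coe_prodMap', Prod.map_apply,
        ContinuousLinearMap.id_apply, Prod.mk_add_mk, add_zero, zero_add]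
    · have := (hu ρ hρ).1 j
      simp only [Prod.smul_mk, smul_zero, Prod.norm_mk, norm_zero]
      exact max_le hρ.le (max_le this hρ.le)
    · refine ((hu ρ hρ).2 j j' hne).trans ?_
      refine le_trans ?_ (norm_snd_le (_ : X × (H × (Fin 0 → ℝ))))
      refine le_trans ?_ (norm_fst_le (_ : H × (Fin 0 → ℝ)))
      exact le_rfl
  exact ⟨E, inferInstance, inferInstance, inferInstance, inferInstance, inferInstance,
    F × C0, inferInstance, inferInstance, inferInstance, inferInstance, inferInstance,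
    inferInstance, inferInstance, inferInstance, inferInstance, hasp, weak_of_asplund hasp,
    fun h => hnot (weak_of_asplund h), hnot⟩

end Pool.Agent.H766Z.Pr
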