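import Pool.Agent.H766Z.PrX

set_option autoImplicit false

namespace Pool.Agent.H766Z.Pr

open Set Filter Topology Cardinal
open Pool.Agent.H766Z.Asp

structure Good {Y Z ι : Type} [AddCommGroup Y] [Module ℝ Y] [TopologicalSpace Y]
    [NormedAddCommGroup Z] [NormedSpace ℝ Z] (T : Y →L[ℝ] Z) (Φ : ι → Y →L[ℝ] ℝ) : Prop where
  basis : ∀ U ∈ 𝓝 (0 : Y), ∃ r > 0, ∃ J : Finset ι, ∀ y, ‖T y‖ < r →
    (∀ i ∈ J, |Φ i y| < r) → y ∈ U
  surj : ∀ (J : Finset ι) (z : Z) (c : ι → ℝ), ∃ y, T y = z ∧ ∀ i ∈ J, Φ i y = c i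
  bdd : ∀ B : Set Y, Bornology.IsVonNBounded ℝ B →
    ∃ V : Submodule ℝ Z, FiniteDimensional ℝ V ∧ ∀ y ∈ B, T y ∈ V

theorem Good.prod {Y Z ι Y' Z' ι' : Type} [AddCommGroup Y] [Module ℝ Y] [TopologicalSpace Y]
    [NormedAddCommGroup Z] [NormedSpace ℝ Z] [AddCommGroup Y'] [Module ℝ Y'] [TopologicalSpace Y']
    [NormedAddCommGroup Z'] [NormedSpace ℝ Z'] {T : Y →L[ℝ] Z} {Φ : ι → Y →L[ℝ] ℝ}
    {T' : Y' →L[ℝ] Z'} {Φ' : ι' → Y' →L[ℝ] ℝ} (h : Good T Φ) (h' : Good T' Φ') :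
    Good (T.prodMap T') (Sum.elim (fun i => (Φ i).comp (ContinuousLinearMap.fst ℝ Y Y'))
      fun i => (Φ' i).comp (ContinuousLinearMap.snd ℝ Y Y')) := by
  constructor
  · intro U hU
    rw [← Prod.mk_zero_zero, mem_nhds_prod_iff] at hU
    obtain ⟨u, hu, v, hv, huv⟩ := hU
    obtain ⟨r, hr, J, h1⟩ := h.basis u hu
    obtain ⟨r', hr', J', h2⟩ := h'.basis v hv
    refine ⟨min r r', lt_min hr hr', J.disjSum J', fun y a b => huv ⟨h1 _ ?_ ?_, h2 _ ?_ ?_⟩⟩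
    · exact ((norm_fst_le (T.prodMap T' y)).trans_lt a).trans_le (min_le_left _ _)
    · exact fun i hi => (b (Sum.inl i) (by simpa using hi)).trans_le (min_le_left _ _)
    · exact ((norm_snd_le (T.prodMap T' y)).trans_lt a).trans_le (min_le_right _ _)
    · exact fun i hi => (b (Sum.inr i) (by simpa using hi)).trans_le (min_le_right _ _)
  · intro J z c
    obtain ⟨y, a1, a2⟩ := h.surj J.toLeft z.1 fun i => c (Sum.inl i)
    obtain ⟨y', b1, b2⟩ := h'.surj J.toRight z.2 fun i => c (Sum.inr i)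
    refine ⟨(y, y'), Prod.ext a1 b1, ?_⟩
    rintro (i | i) hi
    · exact a2 i (by simpa using hi)
    · exact b2 i (by simpa using hi)
  · intro B hB
    obtain ⟨V, a1, a2⟩ := h.bdd _ (hB.image (ContinuousLinearMap.fst ℝ Y Y'))
    obtain ⟨V', b1, b2⟩ := h'.bdd _ (hB.image (ContinuousLinearMap.snd ℝ Y Y'))
    refine ⟨V.map (LinearMap.inl ℝ Z Z') ⊔ V'.map (LinearMap.inr ℝ Z Z'), inferInstance,
      fun y hy => ?_⟩
    refine Submodule.mem_sup.2 ⟨(T y.1, 0), ⟨T y.1, a2 _ ⟨y, hy, rfl⟩, rfl⟩, (0, T' y.2),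
      ⟨T' y.2, b2 _ ⟨y, hy, rfl⟩, rfl⟩, ?_⟩
    simp
    rfl

section sub

variable {Z ι : Type} [NormedAddCommGroup Z] [NormedSpace ℝ Z]

noncomputable def subT (E : Submodule ℝ (Z × (ι → ℝ))) : E →L[ℝ] Z :=
  (ContinuousLinearMap.fst ℝ Z (ι → ℝ)).comp E.subtypeL

noncomputable def subP (E : Submodule ℝ (Z × (ι → ℝ))) (i : ι) : E →L[ℝ] ℝ :=
  (ContinuousLinearMap.proj i).comp ((ContinuousLinearMap.snd ℝ Z (ι → ℝ)).comp E.subtypeL)

theorem basis_sub (E : Submodule ℝ (Z × (ι → ℝ))) : ∀ U ∈ 𝓝 (0 : E), ∃ r > 0, ∃ J : Finset ι,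
    ∀ y, ‖subT E y‖ < r → (∀ i ∈ J, |subP E i y| < r) → y ∈ U := by
  intro U hU
  obtain ⟨W, h1, hW⟩ := (mem_nhds_subtype _ _ _).1 hU
  rw [← Prod.mk.eta (p := ((0 : E) : Z × (ι → ℝ))), mem_nhds_prod_iff] at h1
  obtain ⟨u, hu, v, hv, huv⟩ := h1
  obtain ⟨r1, hr1, hu1⟩ := Metric.mem_nhds_iff.1 hu
  rw [nhds_pi, Filter.mem_pi] at hv
  obtain ⟨J, hJ, t, ht, htv⟩ := hv
  have h2 : ∀ β, ∃ r > 0, Metric.ball (0 : ℝ) r ⊆ t β := fun β => Metric.mem_nhds_iff.1 (ht β)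
  choose r hr hrt using h2
  obtain ⟨r2, hr2, hr2'⟩ : ∃ r2 > 0, ∀ β ∈ J, r2 ≤ r β := by
    have : ∀ᶠ x in 𝓝[>] (0 : ℝ), ∀ β ∈ J, x ≤ r β := by
      rw [eventually_all_finite hJ]
      intro β _
      exact mem_nhdsWithin_of_mem_nhds (Iic_mem_nhds (hr β))
    obtain ⟨x, hx1, hx2⟩ := (this.and self_mem_nhdsWithin).exists
    exact ⟨x, hx2, hx1⟩
  refine ⟨min r1 r2, lt_min hr1 hr2, hJ.toFinset, fun y a b => hW (huv ⟨hu1 ?_, htv ?_⟩)⟩
  · exact mem_ball_zero_iff.2 (a.trans_le (min_le_left _ _))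
  · intro β hβ
    apply hrt β
    exact mem_ball_zero_iff.2
      ((b β (by simpa using hβ)).trans_le ((min_le_right _ _).trans (hr2' β hβ)))

theorem exists_sub (hZ : #Z ≤ 𝔠) : ∃ E : Submodule ℝ (Z × (I → ℝ)), #E ≤ 𝔠 ∧
    (∀ F : Set I, F.Countable → ∀ p : Z × (I → ℝ), ∃ e ∈ E, e.1 = p.1 ∧ ∀ β ∈ F, e.2 β = p.2 β) ∧
    Good (subT E) (subP E) := by
  classical
  have := nonempty_I
  obtain ⟨eA, heA⟩ := exists_surj (le_prod hZ (le_fun (ι := ℕ) (le_prod mk_I mk_real.le)))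
  obtain ⟨eB, heB⟩ := exists_surj mk_Seq
  choose ψ hψ using exists_functional (V := I →₀ ℝ)
  let P : I → Z × (I → ℝ) := fun α => ((eA α.2).1, fun β => if β.1 < α.1 then dec (eA α.2).2 β
    else ψ (eB β.2) (Finsupp.single α 1))
  have h1 : ∀ F : Set I, F.Countable → ∀ p : Z × (I → ℝ),
      ∃ e ∈ LinearMap.range (Finsupp.linearCombination ℝ P),
        e.1 = p.1 ∧ ∀ β ∈ F, e.2 β = p.2 β := by
    intro F hF p
    obtain ⟨u, -, hu⟩ := exists_dec hF p.2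
    obtain ⟨ρ, hρ⟩ := exists_above (hF.image Prod.fst)
    obtain ⟨s, hs⟩ := heA (p.1, u)
    refine ⟨P (ρ, s), ⟨Finsupp.single (ρ, s) 1, by simp⟩, by simp only [P, hs], fun β hβ => ?_⟩
    simp only [P, hs, if_pos (hρ _ ⟨β, hβ, rfl⟩)]
    exact (hu β).resolve_right fun h => h.1 hβ
  have h3 : ∀ u : ℕ → (I →₀ ℝ), LinearIndependent ℝ u → ∃ β, ∀ n,
      ((ContinuousLinearMap.proj β).comp (ContinuousLinearMap.snd ℝ Z (I → ℝ)))
        (Finsupp.linearCombination ℝ P (u n)) = n := by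
    intro u hu
    obtain ⟨ρ, hρ⟩ := exists_above (S := Prod.fst '' ⋃ n, ((u n).support : Set I))
      ((countable_iUnion fun n => (u n).support.countable_toSet).image _)
    obtain ⟨s, rfl⟩ := heB u
    refine ⟨(ρ, s), fun n => ?_⟩
    change (Finsupp.linearCombination ℝ P (eB s n)).2 (ρ, s) = n
    rw [← hψ _ hu n]
    conv_rhs => rw [← Finsupp.sum_single (eB s n)]
    rw [Finsupp.linearCombination_apply, Finsupp.sum, Finsupp.sum, Prod.snd_sum, Finset.sum_apply,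
      map_sum]
    refine Finset.sum_congr rfl fun α hα => ?_
    have h1 : ¬ ρ < α.1 := not_lt.2 (hρ _ ⟨α, mem_iUnion.2 ⟨n, hα⟩, rfl⟩).le
    simp only [P, Prod.smul_snd, Pi.smul_apply, if_neg h1]
    rw [← map_smul, Finsupp.smul_single, smul_eq_mul, mul_one]
  refine ⟨LinearMap.range (Finsupp.linearCombination ℝ P), ?_, h1, basis_sub _, ?_, ?_⟩
  · refine (mk_range_le (f := Finsupp.linearCombination ℝ P)).trans ?_
    rw [mk_finsupp_of_infinite']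
    exact max_le mk_I mk_real.le
  · intro J z c
    obtain ⟨e, a1, a2, a3⟩ := h1 J J.countable_toSet (z, c)
    exact ⟨⟨e, a1⟩, a2, a3⟩
  · intro B hB
    have := bounded_finite P _ h3 B hB
    exact ⟨(Submodule.span ℝ B).map (subT _).toLinearMap, inferInstance,
      fun y hy => ⟨y, Submodule.subset_span hy, rfl⟩⟩

end sub

def C0 : Submodule ℝ ((Fin 0 → ℝ) × (ℕ → ℝ)) where
  carrier := {p | ∀ᶠ k in atTop, p.2 k = 0}
  add_mem' := fun {a b} ha hb => by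
    filter_upwards [ha, hb] with k h1 h2
    simp [h1, h2]
  zero_mem' := Eventually.of_forall fun _ => rfl
  smul_mem' := fun c x hx => by
    filter_upwards [hx] with k h1
    simp [h1]

theorem good_C0 : Good (subT C0) (subP C0) := by
  refine ⟨basis_sub _, fun J z c => ?_, fun B _ => ⟨⊤, inferInstance, fun _ _ => trivial⟩⟩
  refine ⟨⟨(z, fun k => if k ∈ J then c k else 0), ?_⟩, rfl, fun i hi => if_pos hi⟩
  filter_upwards [eventually_gt_atTop (J.sup id)] with k hk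
  exact if_neg fun h => absurd (Finset.le_sup (f := id) h) (not_le.2 hk)

theorem mk_C0 : #C0 ≤ 𝔠 :=
  (mk_subtype_le _).trans (le_prod (le_fun mk_real.le) (le_fun mk_real.le))

end Pool.Agent.H766Z.Pr
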