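import Pool.Agent.H766Z.PrGDS
import Pool.Agent.H766Z.AspMain

set_option autoImplicit false

namespace Pool.Agent.H766Z.Pr

open Set Filter Topology Cardinal
open Pool.Agent.H766Z.Asp
open scoped ENNReal

theorem xdata_of {A : Set ℝ} {Z : Type} [NormedAddCommGroup Z] [NormedSpace ℝ Z] [CompleteSpace Z]
    (ev : ℝ → Z →L[ℝ] ℝ) (e : ℝ → Z) (ev_le : ∀ s x, |ev s x| ≤ ‖x‖)
    (norm_le : ∀ x C, 0 ≤ C → (∀ s, |ev s x| ≤ C) → ‖x‖ ≤ C)
    (ev_e : ∀ a s, ev s (e a) = if s < a then 1 else 0) :
    ∃ (X : Type) (_ : NormedAddCommGroup X) (_ : NormedSpace ℝ X), CompleteSpace X ∧ #X ≤ 𝔠 ∧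
      Nonempty (XData A X) := by
  classical
  let K : Submodule ℝ Z := (Submodule.span ℝ (e '' Jmp A)).topologicalClosure
  have hK : IsClosed (K : Set Z) := Submodule.isClosed_topologicalClosure _
  have hmem : ∀ a ∈ Jmp A, e a ∈ K := fun a ha =>
    Submodule.le_topologicalClosure _ (Submodule.subset_span ⟨a, ha, rfl⟩)
  let RC : Submodule ℝ Z :=
    { carrier := {x | ∀ s, ContinuousWithinAt (fun u => ev u x) (Ici s) s}
      add_mem' := fun {a b} ha hb s => by
        simp only [map_add]
        exact (ha s).add (hb s)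
      zero_mem' := fun s => by
        simp only [map_zero]
        exact continuousWithinAt_const
      smul_mem' := fun c x hx s => by
        simp only [map_smul]
        exact (hx s).const_smul c }
  have hRC : IsClosed (RC : Set Z) := by
    refine isClosed_of_closure_subset fun x hx s => ?_
    rw [Metric.continuousWithinAt_iff']
    intro ε hε
    obtain ⟨y, hy, hxy⟩ := Metric.mem_closure_iff.1 hx (ε / 3) (by positivity)
    filter_upwards [Metric.continuousWithinAt_iff'.1 (hy s) (ε / 3) (by positivity)] with u hu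
    have h1 := ev_le u (x - y)
    have h2 := ev_le s (x - y)
    rw [map_sub, ← dist_eq_norm] at h1 h2
    rw [Real.dist_eq] at hu ⊢
    rw [abs_lt] at hu ⊢
    rw [abs_le] at h1 h2
    constructor <;> linarith [h1.1, h1.2, h2.1, h2.2, hu.1, hu.2]
  have hKRC : K ≤ RC := by
    refine Submodule.topologicalClosure_minimal _ ?_ hRC
    rw [Submodule.span_le]
    rintro _ ⟨a, -, rfl⟩ s
    simp only [ev_e]
    by_cases hs : s < a
    · refine (continuousWithinAt_const (b := (1 : ℝ))).congr_of_eventuallyEq ?_ (if_pos hs)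
      filter_upwards [mem_nhdsWithin_of_mem_nhds (Iio_mem_nhds hs)] with u hu
      exact if_pos hu
    · refine (continuousWithinAt_const (b := (0 : ℝ))).congr_of_eventuallyEq ?_ (if_neg hs)
      filter_upwards [self_mem_nhdsWithin] with u hu
      exact if_neg (not_lt.2 ((not_lt.1 hs).trans hu))
  refine ⟨K, inferInstance, inferInstance, hK.completeSpace_coe, ?_, ⟨?_⟩⟩
  · refine (mk_le_of_injective (f := fun (x : K) (q : ℚ) => ev q x.1) ?_).trans (le_fun mk_real.le)
    intro x y hxy
    have h1 : ∀ s, ev s (x - y).1 = 0 := by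
      intro s
      have h2 := hKRC (x - y).2 s
      have h3 : ∃ᶠ u in 𝓝[Ici s] s, ev u (x - y).1 ∈ ({0} : Set ℝ) := by
        rw [frequently_iff]
        intro U hU
        obtain ⟨b, hb, hbU⟩ := mem_nhdsGE_iff_exists_Ico_subset.1 hU
        obtain ⟨q, q1, q2⟩ := exists_rat_btwn (show s < b from hb)
        refine ⟨q, hbU ⟨q1.le, q2⟩, ?_⟩
        have := congrFun hxy q
        simp only at this
        simp [this]
      simpa using isClosed_singleton.mem_of_frequently_of_tendsto h3 h2
    have h4 := norm_le (x - y).1 0 le_rfl fun s => by rw [h1, abs_zero]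
    exact sub_eq_zero.1 (norm_le_zero_iff.1 h4)
  · refine
      { ev := fun s => (ev s).comp K.subtypeL
        e := fun a => if h : a ∈ Jmp A then ⟨e a, hmem a h⟩ else 0
        ev_le := fun s x => ev_le s x.1
        norm_le := fun x C h1 h2 => norm_le x.1 C h1 h2
        ev_e := fun a ha s => by
          rw [dif_pos ha]
          exact ev_e a s
        dense := ?_
        rc := fun x s => hKRC x.2 s }
    rw [Subtype.dense_iff]
    refine closure_mono ?_
    change (Submodule.span ℝ (e '' Jmp A) : Set Z) ⊆ Submodule.map K.subtype _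
    rw [Submodule.map_span]
    refine Submodule.span_mono ?_
    rintro _ ⟨a, ha, rfl⟩
    exact ⟨_, ⟨a, ha, rfl⟩, by simp only [dif_pos ha]; rfl⟩

theorem exists_X (A : Set ℝ) :
    ∃ (X : Type) (_ : NormedAddCommGroup X) (_ : NormedSpace ℝ X), CompleteSpace X ∧ #X ≤ 𝔠 ∧
      Nonempty (XData A X) := by
  refine xdata_of (Z := lp (fun _ : ℝ => ℝ) ∞) (fun s => lp.evalCLM ℝ (fun _ : ℝ => ℝ) ∞ s)
    (fun a => ⟨fun s => if s < a then 1 else 0, memℓp_infty ⟨1, ?_⟩⟩)
    (fun s x => lp.norm_apply_le_norm (by simp) x s)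
    (fun x C h1 h2 => lp.norm_le_of_forall_le h1 h2) fun a s => rfl
  rintro _ ⟨s, rfl⟩
  simp only
  split_ifs <;> simp

open Classical in
noncomputable def dec (u : ℕ → I × ℝ) (β : I) : ℝ :=
  if h : ∃ n, (u n).1 = β then (u h.choose).2 else 0

theorem nonempty_I : Nonempty I := by
  have : Nonempty Om := by
    rw [← mk_ne_zero_iff, mk_Om]
    exact (aleph_pos 1).ne'
  infer_instance

theorem exists_dec {F : Set I} (hF : F.Countable) (y : I → ℝ) :
    ∃ u : ℕ → I × ℝ, (∀ β ∈ F, ∃ n, (u n).1 = β) ∧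
      ∀ β, dec u β = y β ∨ (β ∉ F ∧ dec u β = 0) := by
  obtain ⟨i0⟩ := nonempty_I
  obtain ⟨f, hf⟩ := (hF.insert i0).exists_eq_range (insert_nonempty _ _)
  have h1 : ∀ β ∈ F, ∃ n, f n = β := fun β hβ => by
    have : β ∈ range f := hf ▸ mem_insert_of_mem _ hβ
    exact this
  refine ⟨fun n => (f n, y (f n)), h1, fun β => ?_⟩
  unfold dec
  by_cases h : ∃ n, f n = β
  · left
    rw [dif_pos h]
    exact congrArg y h.choose_spec
  · right
    exact ⟨fun hβ => h (h1 β hβ), dif_neg h⟩

theorem exists_H : ∃ (H : Type) (_ : NormedAddCommGroup H) (_ : InnerProductSpace ℝ H),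
    CompleteSpace H ∧ #H ≤ 𝔠 ∧ ∀ (J : Type), #J ≤ 𝔠 → ∀ h : J → H, ∃ u : J → H,
      ∀ ρ : ℝ, 0 < ρ → (∀ j, ‖ρ • u j‖ ≤ ρ) ∧
        ∀ i j, i ≠ j → ρ ≤ ‖h i + ρ • u i - (h j + ρ • u j)‖ := by
  classical
  have hsupp : ∀ x : lp (fun _ : I => ℝ) 2, (Function.support fun β => x β).Countable := by
    intro x
    have h1 := (x.2.summable (by norm_num)).countable_support
    refine h1.mono fun β hβ => ?_
    simp only [Function.mem_support] at hβ ⊢
    exact (Real.rpow_pos_of_pos (norm_pos_iff.2 hβ) _).ne'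
  refine ⟨lp (fun _ : I => ℝ) 2, inferInstance, inferInstance, inferInstance, ?_, ?_⟩
  · have h1 : ∀ x : lp (fun _ : I => ℝ) 2, ∃ u, dec u = x := by
      intro x
      obtain ⟨u, -, h2⟩ := exists_dec (hsupp x) x
      refine ⟨u, funext fun β => ?_⟩
      rcases h2 β with h | ⟨h3, h4⟩
      · exact h
      · rw [h4]
        exact (by simpa using h3 : x β = 0).symm
    choose u hu using h1
    refine (mk_le_of_injective (f := u) fun x y hxy => ?_).trans
      (le_fun (le_prod mk_I mk_real.le))
    apply lp.ext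
    rw [← hu x, ← hu y, hxy]
  · intro J hJ h
    rw [← mk_real] at hJ
    obtain ⟨enc⟩ := (le_def _ _).1 hJ
    choose r hr using fun j => exists_above ((hsupp (h j)).image Prod.fst)
    refine ⟨fun j => lp.single 2 (r j, enc j) 1, fun ρ hρ => ⟨fun j => ?_, ?_⟩⟩
    · rw [norm_smul, lp.norm_single (by norm_num), norm_one, mul_one, Real.norm_eq_abs,
        abs_of_pos hρ]
    · have key : ∀ i j, i ≠ j → r i ≤ r j → ρ ≤ ‖h i + ρ • lp.single 2 (r i, enc i) 1 -
          (h j + ρ • lp.single 2 (r j, enc j) 1)‖ := by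
        intro i j hij hle
        refine le_trans ?_ (lp.norm_apply_le_norm (by norm_num) _ (r j, enc j))
        have z1 : ∀ k, r k ≤ r j → h k (r j, enc j) = 0 := by
          intro k hk
          by_contra hne
          exact absurd (hr k _ ⟨(r j, enc j), hne, rfl⟩) (not_lt.2 hk)
        have z2 : (r j, enc j) ≠ (r i, enc i) := fun e =>
          hij (enc.injective (congrArg Prod.snd e)).symm
        simp only [lp.coeFn_sub, lp.coeFn_add, lp.coeFn_smul, Pi.sub_apply, Pi.add_apply,
          Pi.smul_apply, z1 i hle, z1 j le_rfl, lp.single_apply_self,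
          lp.single_apply_ne _ _ _ z2]
        simp [abs_of_pos hρ]
      intro i j hij
      rcases le_total (r i) (r j) with hle | hle
      · exact key i j hij hle
      · rw [norm_sub_rev]
        exact key j i hij.symm hle

end Pool.Agent.H766Z.Pr
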