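import Pool.Agent.H766Z.THRT

set_option autoImplicit false

namespace Pool.Agent.H766Z.TH

open Finset

/-- Rooted counts into the path with vertices `1, …, n`. -/
noncomputable def pv (n : ℕ) : RT → ℕ → ℝ
  | .one => fun j => if 1 ≤ j ∧ j ≤ n then 1 else 0
  | .graft s t => fun j => pv n s j * (pv n t (j - 1) + pv n t (j + 1))

/-- Two to the number of edges. -/
def bw : RT → ℝ
  | .one => 1
  | .graft s t => bw s * (2 * bw t)

theorem bw_pos : ∀ t, 0 < bw t
  | .one => one_pos
  | .graft s t => mul_pos (bw_pos s) (mul_pos two_pos (bw_pos t))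

variable {n : ℕ}

theorem pv_nonneg : ∀ t j, 0 ≤ pv n t j
  | .one, j => by simp only [pv]; split_ifs <;> norm_num
  | .graft s t, j => mul_nonneg (pv_nonneg s j) (add_nonneg (pv_nonneg t _) (pv_nonneg t _))

theorem pv_zero : ∀ t, pv n t 0 = 0
  | .one => by simp [pv]
  | .graft s t => by simp [pv, pv_zero s]

theorem pv_big : ∀ t j, n < j → pv n t j = 0
  | .one, j, h => by simp only [pv]; rw [if_neg (by omega)]
  | .graft s t, j, h => by simp [pv, pv_big s j h]

theorem pv_pos (hn : 2 ≤ n) : ∀ t j, 1 ≤ j → j ≤ n → 0 < pv n t j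
  | .one, j, h1, h2 => by simp [pv, h1, h2]
  | .graft s t, j, h1, h2 => by
    refine mul_pos (pv_pos hn s j h1 h2) ?_
    by_cases h : j = 1
    · exact add_pos_of_nonneg_of_pos (pv_nonneg t _) (pv_pos hn t _ (by omega) (by omega))
    · exact add_pos_of_pos_of_nonneg (pv_pos hn t _ (by omega) (by omega)) (pv_nonneg t _)

theorem pv_le_bw : ∀ t j, pv n t j ≤ bw t
  | .one, j => by simp only [pv, bw]; split_ifs <;> norm_num
  | .graft s t, j => by
    simp only [pv, bw]
    exact mul_le_mul (pv_le_bw s j) (by linarith [pv_le_bw t (j - 1), pv_le_bw t (j + 1)])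
      (add_nonneg (pv_nonneg t _) (pv_nonneg t _)) (bw_pos s).le

theorem pv_sym : ∀ t i j, i + j = n + 1 → pv n t i = pv n t j
  | .one, i, j, h => by
    simp only [pv]
    by_cases h1 : 1 ≤ i ∧ i ≤ n
    · rw [if_pos h1, if_pos (by omega)]
    · rw [if_neg h1, if_neg (by omega)]
  | .graft s t, i, j, h => by
    simp only [pv]
    rw [pv_sym s i j h]
    by_cases hi : i = 0
    · rw [pv_big s j (by omega)]; simp
    by_cases hj : j = 0
    · rw [hj, pv_zero s]; simp
    rw [pv_sym t (i - 1) (j + 1) (by omega), pv_sym t (i + 1) (j - 1) (by omega), add_comm]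

theorem pv_R : ∀ t a d, pv n t a * pv n t (a + 2 * d + 3) ≤ pv n t (a + 1) * pv n t (a + 2 * d + 2)
  | .one, a, d => by
    simp only [pv]
    split_ifs <;> first | omega | norm_num
  | .graft s t, a, d => by
    rcases Nat.eq_zero_or_pos a with rfl | ha
    · rw [pv_zero, zero_mul]
      exact mul_nonneg (pv_nonneg _ _) (pv_nonneg _ _)
    obtain ⟨a, rfl⟩ : ∃ b, a = b + 1 := ⟨a - 1, by omega⟩
    have hs := pv_R s (a + 1) d
    have h1 := pv_R t a d
    have h2 := pv_R t a (d + 1)
    have h3 := pv_R t (a + 2) d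
    have h4 : pv n t (a + 2) * pv n t (a + 2 * d + 3) ≤
        pv n t (a + 3) * pv n t (a + 2 * d + 2) := by
      rcases d with _ | d
      · simp [mul_comm]
      · have := pv_R t (a + 2) d
        rwa [show a + 2 + 2 * d + 3 = a + 2 * (d + 1) + 3 by ring,
          show a + 2 + 2 * d + 2 = a + 2 * (d + 1) + 2 by ring] at this
    simp only [pv]
    rw [show a + 1 - 1 = a by omega, show a + 1 + 2 * d + 3 - 1 = a + 2 * d + 3 by omega,
      show a + 1 + 1 - 1 = a + 1 by omega, show a + 1 + 2 * d + 2 - 1 = a + 2 * d + 2 by omega,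
      show a + 1 + 2 * d + 3 + 1 = a + 2 * d + 5 by omega,
      show a + 1 + 2 * d + 2 + 1 = a + 2 * d + 4 by omega]
    rw [show a + 2 * (d + 1) + 3 = a + 2 * d + 5 by ring,
      show a + 2 * (d + 1) + 2 = a + 2 * d + 4 by ring] at h2
    rw [show a + 2 + 2 * d + 3 = a + 2 * d + 5 by ring,
      show a + 2 + 2 * d + 2 = a + 2 * d + 4 by ring] at h3
    have h5 : (pv n t a + pv n t (a + 1 + 1)) * (pv n t (a + 2 * d + 3) + pv n t (a + 2 * d + 5)) ≤
        (pv n t (a + 1) + pv n t (a + 1 + 1 + 1)) *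
          (pv n t (a + 2 * d + 2) + pv n t (a + 2 * d + 4)) := by
      nlinarith
    calc _ = (pv n s (a + 1) * pv n s (a + 1 + 2 * d + 3)) *
          ((pv n t a + pv n t (a + 1 + 1)) * (pv n t (a + 2 * d + 3) + pv n t (a + 2 * d + 5))) := by
          ring
      _ ≤ (pv n s (a + 1 + 1) * pv n s (a + 1 + 2 * d + 2)) *
          ((pv n t (a + 1) + pv n t (a + 1 + 1 + 1)) *
          (pv n t (a + 2 * d + 2) + pv n t (a + 2 * d + 4))) :=
          mul_le_mul hs h5 (mul_nonneg (add_nonneg (pv_nonneg _ _) (pv_nonneg _ _))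
            (add_nonneg (pv_nonneg _ _) (pv_nonneg _ _)))
            (mul_nonneg (pv_nonneg _ _) (pv_nonneg _ _))
      _ = _ := by ring

theorem pv_mono {k : ℕ} (hk : n = 2 * k) : ∀ t j, j ≤ k → pv n t j ≤ pv n t (j + 1)
  | .one, j, h => by
    simp only [pv]
    split_ifs <;> first | omega | norm_num
  | .graft s t, j, h => by
    rcases eq_or_lt_of_le h with h' | h'
    · exact (pv_sym _ _ _ (by omega)).le
    rcases Nat.eq_zero_or_pos j with rfl | hj
    · rw [pv_zero]; exact pv_nonneg _ _
    simp only [pv]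
    refine mul_le_mul (pv_mono hk s j h) ?_ (add_nonneg (pv_nonneg _ _) (pv_nonneg _ _))
      (pv_nonneg _ _)
    have h1 := pv_mono hk t (j - 1) (by omega)
    have h2 := pv_mono hk t (j + 1) (by omega)
    rw [show j - 1 + 1 = j by omega] at h1
    rw [show j + 1 - 1 = j by omega]
    linarith

/-- Total count into the path. -/
noncomputable def PT (n : ℕ) (t : RT) : ℝ := ∑ j ∈ range n, pv n t (j + 1)

theorem PT_one : PT n .one = n := by
  unfold PT
  rw [sum_congr rfl (g := fun _ => (1 : ℝ))]
  · simp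
  · intro j hj
    simp only [pv]
    rw [if_pos ⟨by omega, by simpa using hj⟩]

theorem PT_plant (t : RT) : PT n (.graft .one t) = ∑ j ∈ range n, (pv n t j + pv n t (j + 2)) := by
  unfold PT
  refine sum_congr rfl fun j hj => ?_
  simp only [pv]
  rw [if_pos ⟨by omega, by simpa using hj⟩, one_mul]
  rfl

theorem PT_plant' {m : ℕ} (t : RT) : PT (m + 2) (.graft .one t) =
    pv (m + 2) t 1 + 2 * ∑ j ∈ range m, pv (m + 2) t (j + 2) + pv (m + 2) t (m + 2) := by
  rw [PT_plant, sum_add_distrib, sum_range_succ', sum_range_succ', sum_range_succ, sum_range_succ,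
    pv_zero, pv_big t (m + 1 + 2) (by omega)]
  ring

theorem PT_plant_le {m : ℕ} (t : RT) : PT (m + 2) (.graft .one t) ≤ (2 * m + 2) * bw t := by
  rw [PT_plant']
  have h : ∑ j ∈ range m, pv (m + 2) t (j + 2) ≤ m * bw t := by
    simpa using sum_le_card_nsmul (range m) (fun j => pv (m + 2) t (j + 2)) (bw t)
      fun j _ => pv_le_bw t _
  linarith [pv_le_bw (n := m + 2) t 1, pv_le_bw (n := m + 2) t (m + 2)]

theorem PT_plant_le' {m : ℕ} (s u : RT) :
    PT (m + 2) (.graft .one (.graft s u)) ≤ (2 * m + 1) * bw (.graft s u) := by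
  rw [PT_plant']
  have h : ∑ j ∈ range m, pv (m + 2) (.graft s u) (j + 2) ≤ m * bw (.graft s u) := by
    simpa using sum_le_card_nsmul (range m) (fun j => pv (m + 2) (.graft s u) (j + 2))
      (bw (.graft s u)) fun j _ => pv_le_bw _ _
  have h1 : pv (m + 2) (.graft s u) 1 ≤ bw s * bw u := by
    simp only [pv]
    rw [Nat.sub_self, pv_zero, zero_add]
    exact mul_le_mul (pv_le_bw _ _) (pv_le_bw _ _) (pv_nonneg _ _) (bw_pos _).le
  have h2 := pv_sym (n := m + 2) (.graft s u) 1 (m + 2) (by omega)
  have h3 : bw (.graft s u) = 2 * (bw s * bw u) := by simp only [bw]; ring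
  nlinarith

theorem vec_path : ∀ (t : RT) (i : Fin n),
    vec (adj (SimpleGraph.pathGraph n)) t i = pv n t (i + 1)
  | .one, i => by simp only [vec, pv]; rw [if_pos ⟨by omega, i.2⟩]
  | .graft s t, i => by
    simp only [vec, pv]
    rw [vec_path s i]
    congr 1
    have h : ∀ y : Fin n, adj (SimpleGraph.pathGraph n) i y *
        vec (adj (SimpleGraph.pathGraph n)) t y =
        (if y.val + 1 = i.val then pv n t (y + 1) else 0) +
          (if y.val = i.val + 1 then pv n t (y + 1) else 0) := by
      intro y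
      rw [vec_path t y]
      unfold adj
      rw [SimpleGraph.pathGraph_adj]
      split_ifs <;> first | omega | simp
    rw [sum_congr rfl fun y _ => h y, sum_add_distrib,
      Fin.sum_univ_eq_sum_range (fun y => if y + 1 = i.val then pv n t (y + 1) else 0),
      Fin.sum_univ_eq_sum_range (fun y => if y = i.val + 1 then pv n t (y + 1) else 0)]
    congr 1
    · rw [Nat.add_sub_cancel]
      rcases Nat.eq_zero_or_pos i.val with h0 | h0
      · rw [h0, pv_zero]; simp
      · rw [sum_eq_single (i.val - 1)]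
        · rw [if_pos (by omega), show i.val - 1 + 1 = i.val by omega]
        · intro b _ hb; rw [if_neg (by omega)]
        · intro hb; exact absurd (mem_range.mpr (by omega)) hb
    · rw [sum_ite_eq']
      split_ifs with h1
      · rfl
      · rw [pv_big _ _ (by simp at h1; omega)]

theorem total_path (t : RT) : total (adj (SimpleGraph.pathGraph n)) t = PT n t := by
  unfold total PT
  rw [sum_congr rfl fun y _ => vec_path t y]
  exact Fin.sum_univ_eq_sum_range (fun y => pv n t (y + 1)) n

end Pool.Agent.H766Z.TH
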