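import Pool.Agent.H766Z.THFork
import Pool.Agent.H766Z.THPath

set_option autoImplicit false

namespace Pool.Agent.H766Z.TH

open Finset

/-- Rooted counts into the path `1, …, m` with the vertex `1` doubled. -/
noncomputable def dv (m : ℕ) : RT → ℕ → ℝ
  | .one => fun j => if 1 ≤ j ∧ j ≤ m then 1 else 0
  | .graft s t => fun j => dv m s j * ((if j = 2 then 2 else 1) * dv m t (j - 1) + dv m t (j + 1))

variable {m : ℕ}

theorem dv_nonneg : ∀ t j, 0 ≤ dv m t j
  | .one, j => by simp only [dv]; split_ifs <;> norm_num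
  | .graft s t, j => mul_nonneg (dv_nonneg s j)
      (add_nonneg (mul_nonneg (by split_ifs <;> norm_num) (dv_nonneg t _)) (dv_nonneg t _))

theorem dv_zero : ∀ t, dv m t 0 = 0
  | .one => by simp [dv]
  | .graft s t => by simp [dv, dv_zero s]

theorem dv_big : ∀ t j, m < j → dv m t j = 0
  | .one, j, h => by simp only [dv]; rw [if_neg (by omega)]
  | .graft s t, j, h => by simp [dv, dv_big s j h]

theorem dv_pos (hn : 2 ≤ m) : ∀ t j, 1 ≤ j → j ≤ m → 0 < dv m t j
  | .one, j, h1, h2 => by simp [dv, h1, h2]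
  | .graft s t, j, h1, h2 => by
    refine mul_pos (dv_pos hn s j h1 h2) ?_
    by_cases h : j = 1
    · exact add_pos_of_nonneg_of_pos (mul_nonneg (by split_ifs <;> norm_num) (dv_nonneg t _))
        (dv_pos hn t _ (by omega) (by omega))
    · exact add_pos_of_pos_of_nonneg (mul_pos (by split_ifs <;> norm_num)
        (dv_pos hn t _ (by omega) (by omega))) (dv_nonneg t _)

theorem dn_inv {k : ℕ} (hk : m + 1 = 2 * k) (h3 : 3 ≤ k) : ∀ t : RT,
    (∀ j, pv (m + 1) t (j + 3) * pv (m + 1) t (j + 4) ≤ dv m t (j + 2) * dv m t (j + 3)) ∧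
    pv (m + 1) t 2 * pv (m + 1) t 3 ^ 2 * pv (m + 1) t 4 ≤ dv m t 1 * dv m t 2 ^ 2 * dv m t 3 ∧
    pv (m + 1) t 1 * pv (m + 1) t 4 ≤ dv m t 1 * dv m t 2
  | .one => by
    refine ⟨fun j => ?_, ?_, ?_⟩ <;> simp only [pv, dv] <;> split_ifs <;>
      first | omega | norm_num
  | .graft s t => by
    obtain ⟨sW, sK, sL⟩ := dn_inv hk h3 s
    obtain ⟨tW, tK, tL⟩ := dn_inv hk h3 t
    have fp : ∀ u j, 1 ≤ j → j ≤ m + 1 → 0 < pv (m + 1) u j := pv_pos (by omega)
    have gp : ∀ u j, 1 ≤ j → j ≤ m → 0 < dv m u j := dv_pos (by omega)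
    have fn : ∀ u j, 0 ≤ pv (m + 1) u j := pv_nonneg
    have gn : ∀ u j, 0 ≤ dv m u j := dv_nonneg
    have hm : pv (m + 1) t 2 ≤ pv (m + 1) t 4 :=
      (pv_mono hk t 2 (by omega)).trans (pv_mono hk t 3 (by omega))
    obtain ⟨F1, F2, F3⟩ := fork (f1 := pv (m + 1) t 1) (g4 := dv m t 4) (fp t 2 (by omega) (by omega))
      (fp t 3 (by omega) (by omega)) (fp t 4 (by omega) (by omega)) (fn t 5) (gn t 1)
      (gp t 2 (by omega) (by omega)) (gp t 3 (by omega) (by omega)) (tW 0) (tW 1) tK tL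
      (pv_R t 2 0) hm
    refine ⟨fun j => ?_, ?_, ?_⟩
    · have hst : j + 4 ≤ m + 1 → (pv (m + 1) t (j + 2) + pv (m + 1) t (j + 4)) *
          (pv (m + 1) t (j + 3) + pv (m + 1) t (j + 5)) ≤
          ((if j + 2 = 2 then 2 else 1) * dv m t (j + 1) + dv m t (j + 3)) *
            (dv m t (j + 2) + dv m t (j + 4)) := by
        intro hj
        rcases j with _ | j
        · simpa using F1
        · rw [if_neg (by omega), one_mul]
          exact chain (fn _ _) (fp _ _ (by omega) (by omega)) (fp _ _ (by omega) (by omega))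
            (fn _ _) (tW j) (tW (j + 1)) (tW (j + 2)) (pv_R t (j + 1 + 2) 0)
      by_cases hj : j + 4 ≤ m + 1
      · simp only [pv, dv]
        rw [if_neg (show ¬ j + 3 = 2 by omega), one_mul]
        have := mul_le_mul (sW j) (hst hj) (mul_nonneg (add_nonneg (fn _ _) (fn _ _))
          (add_nonneg (fn _ _) (fn _ _))) (mul_nonneg (gn _ _) (gn _ _))
        simp only [show j + 3 - 1 = j + 2 by omega, show j + 4 - 1 = j + 3 by omega,
          show j + 2 - 1 = j + 1 by omega]
        refine le_trans (le_of_eq ?_) (this.trans (le_of_eq ?_)) <;> ring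
      · rw [pv_big _ (j + 4) (by omega), mul_zero]
        exact mul_nonneg (gn _ _) (gn _ _)
    · have := mul_le_mul sK F2 (mul_nonneg (mul_nonneg (add_nonneg (fn _ _) (fn _ _))
        (sq_nonneg _)) (add_nonneg (fn _ _) (fn _ _)))
        (mul_nonneg (mul_nonneg (gn _ _) (sq_nonneg _)) (gn _ _))
      simp only [pv, dv]
      norm_num [dv_zero]
      refine le_trans (le_of_eq ?_) (this.trans (le_of_eq ?_)) <;> ring
    · have := mul_le_mul sL F3 (mul_nonneg (fn _ _) (add_nonneg (fn _ _) (fn _ _)))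
        (mul_nonneg (gn _ _) (gn _ _))
      simp only [pv, dv]
      norm_num [dv_zero, pv_zero]
      refine le_trans (le_of_eq ?_) (this.trans (le_of_eq ?_)) <;> ring

/-- Alternating sums. -/
def lam (f : ℕ → ℝ) : ℕ → ℝ
  | 0 => f 1
  | e + 1 => 2 * f (e + 2) - lam f e

theorem lam_low {k : ℕ} {f : ℕ → ℝ} (h0 : ∀ j, 0 ≤ f j) (hm : ∀ j, j ≤ k → f j ≤ f (j + 1)) :
    ∀ e, e + 1 ≤ k → 0 ≤ lam f e ∧ lam f e ≤ 2 * f (e + 1)
  | 0, _ => ⟨h0 1, by simp only [lam]; linarith [h0 1]⟩
  | e + 1, h => by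
    obtain ⟨h1, h2⟩ := lam_low h0 hm e (by omega)
    simp only [lam]
    constructor <;> linarith [hm (e + 1) (by omega)]

theorem lam_sym {k : ℕ} {f : ℕ → ℝ} (hs : ∀ i j, i + j = 2 * k + 1 → f i = f j) :
    ∀ d e, e + d + 1 = k → lam f (e + 2 * d) = lam f e
  | 0, e, _ => rfl
  | d + 1, e, h => by
    have h1 := lam_sym hs d (e + 1) (by omega)
    rw [show e + 2 * (d + 1) = (e + 1 + 2 * d) + 1 by ring]
    simp only [lam] at h1 ⊢
    rw [h1, hs (e + 1 + 2 * d + 2) (e + 2) (by omega)]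
    ring

/-- Total count into the path with one doubled end. -/
noncomputable def DT (m : ℕ) (t : RT) : ℝ := dv m t 1 + ∑ j ∈ range m, dv m t (j + 1)

theorem dn_final {k : ℕ} (hk : m + 1 = 2 * k) (h3 : 3 ≤ k) (t : RT) :
    PT (m + 1) (.graft .one t) ≤ DT m (.graft .one t) := by
  obtain ⟨tW, tK, tL⟩ := dn_inv hk h3 t
  have fp : ∀ j, 1 ≤ j → j ≤ m + 1 → 0 < pv (m + 1) t j := pv_pos (by omega) t
  have gp : ∀ j, 1 ≤ j → j ≤ m → 0 < dv m t j := dv_pos (by omega) t
  have fn : ∀ j, 0 ≤ pv (m + 1) t j := pv_nonneg t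
  have gn : ∀ j, 0 ≤ dv m t j := dv_nonneg t
  have fm := pv_mono hk t
  have fs : ∀ i j, i + j = 2 * k + 1 → pv (m + 1) t i = pv (m + 1) t j :=
    fun i j h => pv_sym t i j (by omega)
  have FF := forkFinal (fp 2 (by omega) (by omega)) (gn 1) (gp 2 (by omega) (by omega))
    (gp 3 (by omega) (by omega)) (fn 1) (tW 0) tK tL (pv_R t 1 0) (fm 2 (by omega))
    (fm 3 (by omega))
  have hz := dv_zero (m := m) t
  have hb := dv_big (m := m) t (m + 1) (by omega)
  obtain ⟨r, rfl⟩ : ∃ r, m = r + 4 := ⟨m - 4, by omega⟩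
  rw [show r + 4 + 1 = r + 3 + 2 by ring, PT_plant']
  rw [show r + 3 + 2 = r + 4 + 1 by ring]
  have hD : DT (r + 4) (.graft .one t) = 2 * dv (r + 4) t 1 + 3 * dv (r + 4) t 2 +
      2 * dv (r + 4) t 3 + 2 * ∑ j ∈ range r, dv (r + 4) t (j + 4) + dv (r + 4) t (r + 4) := by
    unfold DT
    have h1 : ∀ j ∈ range (r + 4), dv (r + 4) (.graft .one t) (j + 1) =
        (if j = 1 then dv (r + 4) t 1 else 0) + (dv (r + 4) t j + dv (r + 4) t (j + 2)) := by
      intro j hj
      simp only [dv]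
      rw [if_pos ⟨by omega, by have := mem_range.mp hj; omega⟩, one_mul, Nat.add_sub_cancel]
      by_cases h : j = 1
      · subst h; simp; ring
      · rw [if_neg (by omega), if_neg h]; ring
    rw [sum_congr rfl h1, sum_add_distrib, sum_ite_eq', if_pos (by simp), sum_add_distrib,
      sum_range_succ', sum_range_succ', sum_range_succ', sum_range_succ',
      sum_range_succ _ (r + 3), sum_range_succ _ (r + 2), sum_range_succ', sum_range_succ']
    simp only [dv]
    norm_num [hz]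
    rw [show r + 3 + 2 = r + 4 + 1 by ring, hb]
    ring_nf
  rw [hD, sum_range_succ', sum_range_succ', sum_range_succ']
  set f := pv (r + 4 + 1) t with hf
  set g := dv (r + 4) t with hg
  have lnn : ∀ e, e ≤ r + 3 → 0 ≤ lam f e := by
    intro e he
    by_cases h : e + 1 ≤ k
    · exact (lam_low fn fm e h).1
    · have := lam_sym fs (e + 1 - k) (2 * k - 2 - e) (by omega)
      rw [show 2 * k - 2 - e + 2 * (e + 1 - k) = e by omega] at this
      rw [this]
      exact (lam_low fn fm _ (by omega)).1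
  have ltop : lam f (r + 3) = f (r + 5) := by
    have := lam_sym fs (k - 1) 0 (by omega)
    rw [show 0 + 2 * (k - 1) = r + 3 by omega] at this
    rw [this]
    exact fs 1 (r + 5) (by omega)
  have key : ∀ e, e ≤ r → 2 * ∑ j ∈ range e, f (j + 5) + lam f (e + 3) +
      lam f 3 * (g 4 / f 5 - 1) ≤
      2 * ∑ j ∈ range e, g (j + 4) + lam f (e + 3) * (g (e + 4) / f (e + 5)) := by
    intro e
    induction e with
    | zero => intro _; simp; linarith
    | succ e ih =>
      intro he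
      have h1 := ih (by omega)
      rw [sum_range_succ, sum_range_succ]
      have p5 := fp (e + 5) (by omega) (by omega)
      have p6 := fp (e + 6) (by omega) (by omega)
      have h2 : 1 ≤ g (e + 4) / f (e + 5) * (g (e + 5) / f (e + 6)) := by
        rw [div_mul_div_comm, one_le_div (mul_pos p5 p6)]
        exact tW (e + 2)
      have h4 : 2 ≤ g (e + 4) / f (e + 5) + g (e + 5) / f (e + 6) := by
        have a1 : 0 ≤ g (e + 4) / f (e + 5) := div_nonneg (gn _) p5.le
        have a2 : 0 ≤ g (e + 5) / f (e + 6) := div_nonneg (gn _) p6.le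
        nlinarith [sq_nonneg (g (e + 4) / f (e + 5) - g (e + 5) / f (e + 6))]
      have h5 : lam f (e + 1 + 3) = 2 * f (e + 5) - lam f (e + 3) := rfl
      have h6 := lnn (e + 1 + 3) (by omega)
      have h7 : g (e + 4) = f (e + 5) * (g (e + 4) / f (e + 5)) := by field_simp
      have h8 := mul_le_mul_of_nonneg_left h4 h6
      show _ ≤ _ + lam f (e + 1 + 3) * (g (e + 5) / f (e + 6))
      rw [h5] at h8 ⊢
      nlinarith
  have h1 := key r le_rfl
  have p5 := fp 5 (by omega) (by omega)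
  have pt := fp (r + 5) (by omega) (by omega)
  have q3 := gp 3 (by omega) (by omega)
  rw [ltop, mul_div_cancel₀ _ pt.ne'] at h1
  have h2 : f 4 / g 3 ≤ g 4 / f 5 := by
    rw [div_le_div_iff₀ q3 p5]
    linarith [tW 1]
  have h3' : lam f 3 = 2 * f 4 - 2 * f 3 + 2 * f 2 - f 1 := by simp only [lam]; ring
  have h4 := mul_le_mul_of_nonneg_left h2 (lnn 3 (by omega))
  rw [← h3'] at FF
  have h5 : ∑ j ∈ range r, f (j + 1 + 1 + 1 + 2) = ∑ j ∈ range r, f (j + 5) := rfl
  rw [h5]
  norm_num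
  linarith

theorem DT_one (hm : 1 ≤ m) : DT m .one = m + 1 := by
  unfold DT
  rw [sum_congr rfl (g := fun _ => (1 : ℝ))]
  · simp [dv, hm, add_comm]
  · intro j hj
    simp only [dv]
    rw [if_pos ⟨by omega, by simpa using hj⟩]

end Pool.Agent.H766Z.TH
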