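import Pool.Agent.H766Z.THPath

set_option autoImplicit false

namespace Pool.Agent.H766Z.TH

open Finset

/-- Rooted counts into the path `1, …, m` with both end vertices doubled. -/
noncomputable def ev (m : ℕ) : RT → ℕ → ℝ
  | .one => fun j => if 1 ≤ j ∧ j ≤ m then 1 else 0
  | .graft s t => fun j => ev m s j * ((if j = 2 then 2 else 1) * ev m t (j - 1) +
      (if j + 1 = m then 2 else 1) * ev m t (j + 1))

variable {m : ℕ}

theorem ev_nonneg : ∀ t j, 0 ≤ ev m t j
  | .one, j => by simp only [ev]; split_ifs <;> norm_num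
  | .graft s t, j => mul_nonneg (ev_nonneg s j)
      (add_nonneg (mul_nonneg (by split_ifs <;> norm_num) (ev_nonneg t _))
        (mul_nonneg (by split_ifs <;> norm_num) (ev_nonneg t _)))

theorem ev_zero : ∀ t, ev m t 0 = 0
  | .one => by simp [ev]
  | .graft s t => by simp [ev, ev_zero s]

theorem ev_big : ∀ t j, m < j → ev m t j = 0
  | .one, j, h => by simp only [ev]; rw [if_neg (by omega)]
  | .graft s t, j, h => by simp [ev, ev_big s j h]

theorem ev_pos (hn : 2 ≤ m) : ∀ t j, 1 ≤ j → j ≤ m → 0 < ev m t j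
  | .one, j, h1, h2 => by simp [ev, h1, h2]
  | .graft s t, j, h1, h2 => by
    refine mul_pos (ev_pos hn s j h1 h2) ?_
    by_cases h : j = 1
    · exact add_pos_of_nonneg_of_pos (mul_nonneg (by split_ifs <;> norm_num) (ev_nonneg t _))
        (mul_pos (by split_ifs <;> norm_num) (ev_pos hn t _ (by omega) (by omega)))
    · exact add_pos_of_pos_of_nonneg (mul_pos (by split_ifs <;> norm_num)
        (ev_pos hn t _ (by omega) (by omega)))
        (mul_nonneg (by split_ifs <;> norm_num) (ev_nonneg t _))

theorem log_add_ge {x y : ℝ} (hx : 0 < x) (hy : 0 < y) :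
    2 * Real.log 2 + Real.log x + Real.log y ≤ 2 * Real.log (x + y) := by
  have h : Real.log (2 ^ 2 * x * y) ≤ Real.log ((x + y) ^ 2) :=
    Real.log_le_log (by positivity) (by nlinarith [sq_nonneg (x - y)])
  rw [Real.log_mul (by positivity) hy.ne', Real.log_mul (by positivity) hx.ne', Real.log_pow,
    Real.log_pow] at h
  exact_mod_cast h

theorem tangent {a c : ℝ} (ha : 0 < a) (hc : 0 < c) : c * (1 + Real.log a - Real.log c) ≤ a := by
  have h := Real.log_le_sub_one_of_pos (div_pos ha hc)
  rw [Real.log_div ha.ne' hc.ne'] at h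
  calc c * (1 + Real.log a - Real.log c) ≤ c * (a / c) := by gcongr; linarith
    _ = a := by field_simp

theorem ev_inv (r : ℕ) : ∀ t : RT, 4 * (r + 3) * Real.log (bw t) ≤
    2 * Real.log (ev (r + 4) t 1) + 2 * Real.log (ev (r + 4) t (r + 4)) +
      4 * ∑ j ∈ range (r + 2), Real.log (ev (r + 4) t (j + 2))
  | .one => by
    have : ∀ j ∈ range (r + 2), Real.log (ev (r + 4) .one (j + 2)) = 0 := by
      intro j hj
      have := mem_range.mp hj
      simp only [ev]
      rw [if_pos (by omega), Real.log_one]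
    rw [sum_congr rfl this]
    simp [bw, ev]
  | .graft s t => by
    have hs := ev_inv r s
    have ht := ev_inv r t
    have gp : ∀ u j, 1 ≤ j → j ≤ r + 4 → 0 < ev (r + 4) u j := ev_pos (by omega)
    have h1 : Real.log (ev (r + 4) (.graft s t) 1) =
        Real.log (ev (r + 4) s 1) + Real.log (ev (r + 4) t 2) := by
      simp only [ev]
      rw [if_neg (by omega), if_neg (by omega), Nat.sub_self, ev_zero, mul_zero, zero_add, one_mul,
        Real.log_mul (gp _ _ (by omega) (by omega)).ne' (gp _ _ (by omega) (by omega)).ne']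
    have h2 : Real.log (ev (r + 4) (.graft s t) (r + 4)) =
        Real.log (ev (r + 4) s (r + 4)) + Real.log (ev (r + 4) t (r + 3)) := by
      simp only [ev]
      rw [if_neg (by omega), ev_big t (r + 4 + 1) (by omega), mul_zero, add_zero, one_mul,
        Real.log_mul (gp _ _ (by omega) (by omega)).ne' (gp _ _ (by omega) (by omega)).ne']
      rfl
    have h3 : ∀ j ∈ range (r + 2), 2 * Real.log (ev (r + 4) s (j + 2)) + 2 * Real.log 2 +
        ((if j = 0 then Real.log 2 else 0) + (if j = r + 1 then Real.log 2 else 0)) +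
        (Real.log (ev (r + 4) t (j + 1)) + Real.log (ev (r + 4) t (j + 3))) ≤
        2 * Real.log (ev (r + 4) (.graft s t) (j + 2)) := by
      intro j hj
      have hj' := mem_range.mp hj
      have a1 := gp t (j + 1) (by omega) (by omega)
      have a2 := gp t (j + 3) (by omega) (by omega)
      have b1 : 0 < (if j + 2 = 2 then (2 : ℝ) else 1) := by split_ifs <;> norm_num
      have b2 : 0 < (if j + 2 + 1 = r + 4 then (2 : ℝ) else 1) := by split_ifs <;> norm_num
      have c1 : Real.log (if j + 2 = 2 then (2 : ℝ) else 1) = if j = 0 then Real.log 2 else 0 := by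
        split_ifs <;> first | omega | simp
      have c2 : Real.log (if j + 2 + 1 = r + 4 then (2 : ℝ) else 1) =
          if j = r + 1 then Real.log 2 else 0 := by
        split_ifs <;> first | omega | simp
      have := log_add_ge (mul_pos b1 a1) (mul_pos b2 a2)
      rw [Real.log_mul b1.ne' a1.ne', Real.log_mul b2.ne' a2.ne', c1, c2] at this
      have e : ev (r + 4) (.graft s t) (j + 2) = ev (r + 4) s (j + 2) *
          ((if j + 2 = 2 then (2 : ℝ) else 1) * ev (r + 4) t (j + 1) +
            (if j + 2 + 1 = r + 4 then (2 : ℝ) else 1) * ev (r + 4) t (j + 3)) := rfl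
      rw [e, Real.log_mul (gp s (j + 2) (by omega) (by omega)).ne'
        (add_pos (mul_pos b1 a1) (mul_pos b2 a2)).ne']
      linarith
    have h4 := sum_le_sum h3
    simp only [sum_add_distrib, ← mul_sum, sum_ite_eq', sum_const, card_range, nsmul_eq_mul] at h4
    rw [if_pos (by simp), if_pos (by simp)] at h4
    have h5 : Real.log (bw (.graft s t)) = Real.log (bw s) + (Real.log 2 + Real.log (bw t)) := by
      simp only [bw]
      rw [Real.log_mul (bw_pos s).ne' (mul_pos two_pos (bw_pos t)).ne',
        Real.log_mul two_ne_zero (bw_pos t).ne']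
    have h6 : ∑ j ∈ range (r + 2), Real.log (ev (r + 4) t (j + 1)) +
        Real.log (ev (r + 4) t (r + 3)) =
        Real.log (ev (r + 4) t 1) + ∑ j ∈ range (r + 2), Real.log (ev (r + 4) t (j + 2)) := by
      rw [← sum_range_succ (fun j => Real.log (ev (r + 4) t (j + 1))) (r + 2), sum_range_succ']
      ring
    have h7 : ∑ j ∈ range (r + 2), Real.log (ev (r + 4) t (j + 3)) + Real.log (ev (r + 4) t 2) =
        ∑ j ∈ range (r + 2), Real.log (ev (r + 4) t (j + 2)) +
          Real.log (ev (r + 4) t (r + 4)) := by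
      rw [← sum_range_succ (fun j => Real.log (ev (r + 4) t (j + 2))) (r + 2),
        sum_range_succ' _ (r + 2)]
    rw [h1, h2, h5]
    push_cast at h4
    linarith

/-- Total count into the path with both ends doubled. -/
noncomputable def ET (m : ℕ) (t : RT) : ℝ := ev m t 1 + ev m t m + ∑ j ∈ range m, ev m t (j + 1)

theorem ET_one (hm : 1 ≤ m) : ET m .one = m + 2 := by
  unfold ET
  rw [sum_congr rfl (g := fun _ => (1 : ℝ))]
  · simp [ev, hm]; ring
  · intro j hj
    simp only [ev]
    rw [if_pos ⟨by omega, by simpa using hj⟩]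

theorem ET_plant (r : ℕ) (t : RT) : ET (r + 4) (.graft .one t) =
    2 * ev (r + 4) t 1 + 2 * ev (r + 4) t (r + 4) + 3 * ev (r + 4) t 2 + 3 * ev (r + 4) t (r + 3) +
      2 * ∑ j ∈ range r, ev (r + 4) t (j + 3) := by
  have hz := ev_zero (m := r + 4) t
  have hb := ev_big (m := r + 4) t (r + 4 + 1) (by omega)
  unfold ET
  have h1 : ∀ j ∈ range (r + 4), ev (r + 4) (.graft .one t) (j + 1) =
      (if j = 1 then ev (r + 4) t 1 else 0) + (if j = r + 2 then ev (r + 4) t (r + 4) else 0) +
        (ev (r + 4) t j + ev (r + 4) t (j + 2)) := by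
    intro j hj
    simp only [ev]
    rw [if_pos ⟨by omega, by have := mem_range.mp hj; omega⟩, one_mul, Nat.add_sub_cancel]
    by_cases h : j = 1
    · subst h
      rw [if_pos rfl, if_pos rfl, if_neg (by omega), if_neg (by omega)]; ring
    · rw [if_neg (by omega), if_neg h]
      by_cases h' : j = r + 2
      · subst h'
        rw [if_pos rfl, if_pos rfl]; ring_nf
      · rw [if_neg (by omega), if_neg h']; ring
  rw [sum_congr rfl h1, sum_add_distrib, sum_add_distrib, sum_ite_eq', sum_ite_eq',
    if_pos (by simp), if_pos (by simp), sum_add_distrib,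
    sum_range_succ _ (r + 3), sum_range_succ' _ (r + 2), sum_range_succ' _ (r + 1),
    sum_range_succ' _ r,
    sum_range_succ _ (r + 3), sum_range_succ _ (r + 2), sum_range_succ _ (r + 1), sum_range_succ']
  simp only [ev]
  norm_num [hz, hb]
  rw [if_neg (by omega)]
  ring_nf

theorem log45 : (3 : ℝ) / 2 ≤ 2 * Real.log 3 - Real.log 2 := by
  have h : Real.log (9 / 2) = 2 * Real.log 3 - Real.log 2 := by
    rw [Real.log_div (by norm_num) (by norm_num), show (9 : ℝ) = 3 ^ 2 by norm_num, Real.log_pow]
    norm_num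
  rw [← h, Real.le_log_iff_exp_le (by norm_num)]
  have h1 := Real.exp_one_lt_d9
  have h2 : Real.exp (3 / 2) ^ 2 = Real.exp 1 ^ 3 := by
    rw [← Real.exp_nat_mul, ← Real.exp_nat_mul]; norm_num
  have h3 : Real.exp 1 ^ 3 ≤ 2.7182818286 ^ 3 := by gcongr
  refine abs_le_of_sq_le_sq' ?_ (by norm_num) |>.2
  rw [h2]
  exact h3.trans (by norm_num)

theorem ET_ge (r : ℕ) (t : RT) : (2 * r + 9) * bw t ≤ ET (r + 4) (.graft .one t) := by
  rw [ET_plant]
  have hi := ev_inv r t
  have gp : ∀ j, 1 ≤ j → j ≤ r + 4 → 0 < ev (r + 4) t j := ev_pos (by omega) t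
  rw [sum_range_succ, sum_range_succ'] at hi
  have hB := bw_pos t
  set c : ℝ := (2 * r + 9) * bw t / (r + 3) with hc
  have hc0 : 0 < c := by positivity
  have t1 := tangent (a := 2 * ev (r + 4) t 1) (c := c / 2)
    (mul_pos two_pos (gp _ (by omega) (by omega))) (by positivity)
  have t2 := tangent (a := 2 * ev (r + 4) t (r + 4)) (c := c / 2)
    (mul_pos two_pos (gp _ (by omega) (by omega))) (by positivity)
  have t3 := tangent (a := 3 * ev (r + 4) t 2) (c := c)
    (mul_pos three_pos (gp _ (by omega) (by omega))) hc0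
  have t4 := tangent (a := 3 * ev (r + 4) t (r + 3)) (c := c)
    (mul_pos three_pos (gp _ (by omega) (by omega))) hc0
  have t5 : ∀ j ∈ range r, c * (1 + Real.log 2 - Real.log c) + c * Real.log (ev (r + 4) t (j + 3)) ≤
      2 * ev (r + 4) t (j + 3) := by
    intro j hj
    have hj' := mem_range.mp hj
    have := tangent (a := 2 * ev (r + 4) t (j + 3)) (c := c)
      (mul_pos two_pos (gp _ (by omega) (by omega))) hc0
    rw [Real.log_mul two_ne_zero (gp _ (by omega) (by omega)).ne'] at this
    linarith
  have t6 := sum_le_sum t5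
  simp only [sum_add_distrib, ← mul_sum, sum_const, card_range, nsmul_eq_mul] at t6
  rw [Real.log_mul two_ne_zero (gp _ (by omega) (by omega)).ne',
    Real.log_div hc0.ne' two_ne_zero] at t1 t2
  rw [Real.log_mul three_ne_zero (gp _ (by omega) (by omega)).ne'] at t3 t4
  have hlc : Real.log c ≤ Real.log 2 + 3 / 2 / (r + 3) + Real.log (bw t) := by
    have e : c = 2 * (1 + 3 / 2 / (r + 3)) * bw t := by rw [hc]; field_simp; ring
    rw [e, Real.log_mul (by positivity) hB.ne', Real.log_mul two_ne_zero (by positivity)]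
    have := Real.log_le_sub_one_of_pos (show (0 : ℝ) < 1 + 3 / 2 / (r + 3) by positivity)
    linarith
  have hlc' : (r + 3) * Real.log c ≤ (r + 3) * Real.log 2 + 3 / 2 + (r + 3) * Real.log (bw t) := by
    have := mul_le_mul_of_nonneg_left hlc (show (0 : ℝ) ≤ r + 3 by positivity)
    have e : ((r : ℝ) + 3) * (3 / 2 / (r + 3)) = 3 / 2 := by field_simp
    nlinarith
  have hK : (2 * r + 9) * bw t = c * (r + 3) := by rw [hc]; field_simp
  have h45 := log45
  have hsum : ∑ j ∈ range r, Real.log (ev (r + 4) t (j + 1 + 2)) =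
      ∑ j ∈ range r, Real.log (ev (r + 4) t (j + 3)) := rfl
  rw [hsum] at hi
  have hfin : 0 ≤ (r + 3) * (Real.log 2 - Real.log c) + 2 * Real.log 3 - Real.log 2 +
      (Real.log (ev (r + 4) t 1) / 2 + Real.log (ev (r + 4) t (r + 4)) / 2 +
        Real.log (ev (r + 4) t 2) + Real.log (ev (r + 4) t (r + 3)) +
        ∑ j ∈ range r, Real.log (ev (r + 4) t (j + 3))) := by
    have : Real.log (ev (r + 4) t (r + 1 + 2)) = Real.log (ev (r + 4) t (r + 3)) := rfl
    rw [this] at hi
    norm_num at hi
    linarith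
  have := mul_nonneg hc0.le hfin
  rw [hK]
  nlinarith

theorem dt_final (r : ℕ) (t : RT) :
    PT (r + 4 + 2) (.graft .one t) ≤ ET (r + 4) (.graft .one t) := by
  cases t with
  | one =>
    refine (PT_plant_le _).trans ?_
    rw [ET_plant, sum_congr rfl (g := fun _ => (1 : ℝ))]
    · simp [ev, bw]; linarith
    · intro j hj
      have := mem_range.mp hj
      simp only [ev]
      rw [if_pos (by omega)]
  | graft s u =>
    refine (PT_plant_le' s u).trans (le_trans (le_of_eq ?_) (ET_ge r _))
    push_cast; ring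

end Pool.Agent.H766Z.TH
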