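import Pool.Agent.H766Z.THMove
import Pool.Agent.H766Z.THDn
import Pool.Agent.H766Z.THDt

set_option autoImplicit false

namespace Pool.Agent.H766Z.TH

open Finset

variable {V : Type} [Fintype V] [DecidableEq V] {N : ℕ} {z : ℕ → V} {Q : Finset V} {p : V → V}

def Good (M : V → V → ℝ) : Prop := ∀ t, PT (Fintype.card V) t ≤ total M t

omit [DecidableEq V] in
theorem good_of_plant {M : V → V → ℝ} (hM : ∀ x y, M x y = M y x)
    (h : ∀ t, PT (Fintype.card V) (.graft .one t) ≤ total M (.graft .one t)) : Good M := by
  intro t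
  cases t with
  | one => rw [PT_one]; simp [total, vec]
  | graft s u =>
    obtain ⟨t, ht⟩ := reroot u s
    rw [ht V M hM, ← total_path, ht _ _ (adj_symm _), total_path]
    exact h t

theorem good_path (hv : Valid N z ∅ p) : Good (RM N z ∅ p) := by
  have hc : Fintype.card V = N + 1 := by simpa using hv.card
  have key : ∀ t i, i ≤ N → vec (RM N z ∅ p) t (z i) = pv (N + 1) t (i + 1) := by
    intro t
    induction t with
    | one => intro i hi; simp only [vec, pv]; rw [if_pos (by omega)]
    | graft s t hs ht =>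
      intro i hi
      simp only [vec, pv]
      rw [hs i hi, hv.op_path hi, sum_empty, add_zero, add_comm (ite _ _ _), Nat.add_sub_cancel]
      congr 2
      · split_ifs with h
        · rw [ht _ (by omega), show i - 1 + 1 = i by omega]
        · rw [show i = 0 by omega, pv_zero]
      · split_ifs with h
        · rw [ht _ (by omega)]
        · rw [pv_big _ _ (by omega)]
  intro t
  unfold total PT
  rw [hv.sum_V, sum_empty, add_zero, hc]
  exact le_of_eq (sum_congr rfl fun i hi => (key t i (by have := mem_range.mp hi; omega)).symm)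

theorem good_D {r : V} {k : ℕ} (hv : Valid N z {r} p) (hp : p r = z 1) (hk : N + 2 = 2 * k)
    (h3 : 3 ≤ k) : Good (RM N z {r} p) := by
  have hc : Fintype.card V = N + 1 + 1 := by simpa using hv.card
  have hr : r ∈ ({r} : Finset V) := mem_singleton_self r
  have hne : z 1 ≠ r := fun e => hv.notMem 1 (by omega) (by rw [e]; exact hr)
  have key : ∀ t, (∀ i, i ≤ N → vec (RM N z {r} p) t (z i) = dv (N + 1) t (i + 1)) ∧
      vec (RM N z {r} p) t r = dv (N + 1) t 1 := by
    intro t
    induction t with
    | one =>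
      refine ⟨fun i hi => ?_, ?_⟩ <;> simp only [vec, dv] <;> rw [if_pos (by omega)]
    | graft s t hs ht =>
      refine ⟨fun i hi => ?_, ?_⟩
      · simp only [vec, dv]
        rw [hs.1 i hi, hv.op_path hi, sum_singleton, hp, Nat.add_sub_cancel, ht.2]
        congr 1
        have e1 : (if i < N then vec (RM N z {r} p) t (z (i + 1)) else 0) =
            dv (N + 1) t (i + 1 + 1) := by
          split_ifs with h
          · rw [ht.1 _ (by omega)]
          · rw [dv_big _ _ (by omega)]
        have e2 : (if 0 < i then vec (RM N z {r} p) t (z (i - 1)) else 0) = dv (N + 1) t i := by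
          split_ifs with h
          · rw [ht.1 _ (by omega), show i - 1 + 1 = i by omega]
          · rw [show i = 0 by omega, dv_zero]
        rw [e1, e2]
        by_cases h1 : i = 1
        · subst h1; simp; ring
        · rw [if_neg fun e => h1 (hv.inj _ _ (by omega) hi e).symm, if_neg (by omega)]; ring
      · simp only [vec, dv]
        rw [hs.2, hv.op_Q hr, sum_singleton, hp, if_neg hne, ht.1 1 (by omega)]
        simp [dv_zero]
  have tot : ∀ t, total (RM N z {r} p) t = DT (N + 1) t := by
    intro t
    unfold total DT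
    rw [hv.sum_V, sum_singleton, (key t).2, add_comm]
    congr 1
    exact sum_congr rfl fun i hi => (key t).1 i (by have := mem_range.mp hi; omega)
  refine good_of_plant RM_symm fun t => ?_
  rw [tot, hc]
  exact dn_final hk h3 t

theorem good_Dt {r r' : V} {m : ℕ} (hv : Valid (m + 3) z {r, r'} p) (hrr : r ≠ r')
    (hp : p r = z 1) (hp' : p r' = z (m + 2)) : Good (RM (m + 3) z {r, r'} p) := by
  have hc : Fintype.card V = m + 4 + 2 := by simpa [card_pair hrr] using hv.card
  have hr : r ∈ ({r, r'} : Finset V) := by simp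
  have hr' : r' ∈ ({r, r'} : Finset V) := by simp
  have hne : ∀ i, i ≤ m + 3 → z i ≠ r := fun i hi e => hv.notMem i hi (by rw [e]; exact hr)
  have hne' : ∀ i, i ≤ m + 3 → z i ≠ r' := fun i hi e => hv.notMem i hi (by rw [e]; exact hr')
  have key : ∀ t, (∀ i, i ≤ m + 3 →
      vec (RM (m + 3) z {r, r'} p) t (z i) = ev (m + 4) t (i + 1)) ∧
      vec (RM (m + 3) z {r, r'} p) t r = ev (m + 4) t 1 ∧
      vec (RM (m + 3) z {r, r'} p) t r' = ev (m + 4) t (m + 4) := by
    intro t
    induction t with
    | one =>
      refine ⟨fun i hi => ?_, ?_, ?_⟩ <;> simp only [vec, ev] <;> rw [if_pos (by omega)]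
    | graft s t hs ht =>
      refine ⟨fun i hi => ?_, ?_, ?_⟩
      · simp only [vec, ev]
        rw [hs.1 i hi, hv.op_path hi, sum_pair hrr, hp, hp', Nat.add_sub_cancel, ht.2.1, ht.2.2]
        congr 1
        have e1 : (if i < m + 3 then vec (RM (m + 3) z {r, r'} p) t (z (i + 1)) else 0) =
            ev (m + 4) t (i + 1 + 1) := by
          split_ifs with h
          · rw [ht.1 _ (by omega)]
          · rw [ev_big _ _ (by omega)]
        have e2 : (if 0 < i then vec (RM (m + 3) z {r, r'} p) t (z (i - 1)) else 0) =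
            ev (m + 4) t i := by
          split_ifs with h
          · rw [ht.1 _ (by omega), show i - 1 + 1 = i by omega]
          · rw [show i = 0 by omega, ev_zero]
        have e3 : (if z 1 = z i then ev (m + 4) t 1 else 0) + ev (m + 4) t i =
            (if i + 1 = 2 then 2 else 1) * ev (m + 4) t i := by
          by_cases h1 : i = 1
          · subst h1; simp; ring
          · rw [if_neg fun e => h1 (hv.inj _ _ (by omega) hi e).symm, if_neg (by omega)]; ring
        have e4 : (if z (m + 2) = z i then ev (m + 4) t (m + 4) else 0) + ev (m + 4) t (i + 1 + 1) =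
            (if i + 1 + 1 = m + 4 then 2 else 1) * ev (m + 4) t (i + 1 + 1) := by
          by_cases h1 : i = m + 2
          · subst h1; simp; ring
          · rw [if_neg fun e => h1 (hv.inj _ _ (by omega) hi e).symm, if_neg (by omega)]; ring
        rw [e1, e2, ← e3, ← e4]
        ring
      · simp only [vec, ev]
        rw [hs.2.1, hv.op_Q hr, sum_pair hrr, hp, hp', if_neg (hne _ (by omega)),
          if_neg (hne _ (by omega)), ht.1 1 (by omega), if_neg (show ¬ 1 + 1 = m + 4 by omega)]
        simp [ev_zero]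
      · simp only [vec, ev]
        rw [hs.2.2, hv.op_Q hr', sum_pair hrr, hp, hp', if_neg (hne' _ (by omega)),
          if_neg (hne' _ (by omega)), ht.1 (m + 2) (by omega), if_neg (show ¬ m + 4 = 2 by omega),
          ev_big t (m + 4 + 1) (by omega)]
        simp
  have tot : ∀ t, total (RM (m + 3) z {r, r'} p) t = ET (m + 4) t := by
    intro t
    unfold total ET
    rw [hv.sum_V, sum_pair hrr, (key t).2.1, (key t).2.2, add_comm]
    congr 1
    exact sum_congr rfl fun i hi => (key t).1 i (by have := mem_range.mp hi; omega)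
  refine good_of_plant RM_symm fun t => ?_
  rw [tot, hc]
  exact dt_final m t

omit [DecidableEq V] in
theorem good_entropy {M : V → V → ℝ} {m : ℕ} (hc : Fintype.card V = m + 2)
    (hM : ∀ x y, M x y = M y x) (h0 : ∀ x y, 0 ≤ M x y) (hd : ∀ x, 0 < ∑ y, M x y)
    (hD : ∑ x, ∑ y, M x y = 2 * m + 2)
    (hE : (2 * m + 2) * Real.log 2 ≤ ∑ x, (∑ y, M x y) * Real.log (∑ y, M x y)) : Good M := by
  have jensen : ∀ (w g : V → ℝ), (∀ y, 0 ≤ w y) → (∀ y, 0 < g y) → 0 < ∑ y, w y →
      0 < ∑ y, w y * g y ∧ (∑ y, w y) * Real.log (∑ y, w y) + ∑ y, w y * Real.log (g y) ≤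
        (∑ y, w y) * Real.log (∑ y, w y * g y) := by
    intro w g hw hg hs
    have hpos : 0 < ∑ y, w y * g y := by
      obtain ⟨y, -, hy⟩ := exists_lt_of_sum_lt (s := univ) (f := fun _ => (0 : ℝ)) (g := w)
        (by simpa using hs)
      exact sum_pos' (fun y _ => mul_nonneg (hw y) (hg y).le) ⟨y, mem_univ _, mul_pos hy (hg y)⟩
    refine ⟨hpos, ?_⟩
    have hc0 : 0 < (∑ y, w y * g y) / ∑ y, w y := div_pos hpos hs
    have h1 : ∀ y ∈ univ, w y * (((∑ y, w y * g y) / ∑ y, w y) *
        (1 + Real.log (g y) - Real.log ((∑ y, w y * g y) / ∑ y, w y))) ≤ w y * g y :=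
      fun y _ => mul_le_mul_of_nonneg_left (tangent (hg y) hc0) (hw y)
    have h2 := sum_le_sum h1
    rw [Real.log_div hpos.ne' hs.ne'] at h2
    have h3 : ∑ y, w y * (((∑ y, w y * g y) / ∑ y, w y) * (1 + Real.log (g y) -
        (Real.log (∑ y, w y * g y) - Real.log (∑ y, w y)))) =
        ((∑ y, w y * g y) / ∑ y, w y) * ((∑ y, w y) * (1 - Real.log (∑ y, w y * g y) +
          Real.log (∑ y, w y)) + ∑ y, w y * Real.log (g y)) := by
      rw [sum_mul, ← sum_add_distrib, mul_sum]
      exact sum_congr rfl fun y _ => by ring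
    have h4 : ∑ y, w y * g y = ((∑ y, w y * g y) / ∑ y, w y) * ∑ y, w y := by field_simp
    rw [h3] at h2
    have h5 := le_of_mul_le_mul_left (h2.trans h4.le) hc0
    linarith
  have key : ∀ t, (∀ x, 0 < vec M t x) ∧
      (2 * m + 2) * Real.log (bw t) ≤ ∑ x, (∑ y, M x y) * Real.log (vec M t x) := by
    intro t
    induction t with
    | one => simp [vec, bw]
    | graft s t hs ht =>
      have hj := fun x => jensen (M x) (vec M t) (h0 x) ht.1 (hd x)
      refine ⟨fun x => mul_pos (hs.1 x) (hj x).1, ?_⟩
      simp only [vec, bw]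
      rw [Real.log_mul (bw_pos s).ne' (mul_pos two_pos (bw_pos t)).ne',
        Real.log_mul two_ne_zero (bw_pos t).ne']
      have h1 : ∑ x, (∑ y, M x y) * Real.log (vec M s x * ∑ y, M x y * vec M t y) =
          ∑ x, (∑ y, M x y) * Real.log (vec M s x) +
            ∑ x, (∑ y, M x y) * Real.log (∑ y, M x y * vec M t y) := by
        rw [← sum_add_distrib]
        exact sum_congr rfl fun x _ => by rw [Real.log_mul (hs.1 x).ne' (hj x).1.ne']; ring
      have h2 := sum_le_sum fun x (_ : x ∈ univ) => (hj x).2
      rw [sum_add_distrib] at h2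
      have h3 : ∑ x, ∑ y, M x y * Real.log (vec M t y) =
          ∑ x, (∑ y, M x y) * Real.log (vec M t x) := by
        rw [sum_comm]
        exact sum_congr rfl fun x _ => by rw [sum_mul]; exact sum_congr rfl fun y _ => by rw [hM]
      rw [h1]
      linarith [hs.2, ht.2]
  refine good_of_plant hM fun t => ?_
  rw [hc]
  refine (PT_plant_le t).trans ?_
  have h1 : total M (.graft .one t) = ∑ x, (∑ y, M x y) * vec M t x := by
    simp only [total, vec, one_mul]
    rw [sum_comm]
    exact sum_congr rfl fun x _ => by rw [sum_mul]; exact sum_congr rfl fun y _ => by rw [hM]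
  have hB := bw_pos t
  have h2 : ∀ x ∈ univ, (∑ y, M x y) * (bw t * (1 + Real.log (vec M t x) - Real.log (bw t))) ≤
      (∑ y, M x y) * vec M t x :=
    fun x _ => mul_le_mul_of_nonneg_left (tangent ((key t).1 x) hB) (hd x).le
  have h3 := sum_le_sum h2
  have h4 : ∑ x, (∑ y, M x y) * (bw t * (1 + Real.log (vec M t x) - Real.log (bw t))) =
      bw t * ((∑ x, ∑ y, M x y) * (1 - Real.log (bw t)) +
        ∑ x, (∑ y, M x y) * Real.log (vec M t x)) := by
    rw [sum_mul, ← sum_add_distrib, mul_sum]
    exact sum_congr rfl fun y _ => by ring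
  rw [h4, hD] at h3
  rw [h1]
  nlinarith [(key t).2]

end Pool.Agent.H766Z.TH
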