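import Pool.Agent.H766Z.THIneq

set_option autoImplicit false

namespace Pool.Agent.H766Z.TH

theorem fork {f1 f2 f3 f4 f5 g1 g2 g3 g4 : ℝ} (p2 : 0 < f2) (p3 : 0 < f3) (p4 : 0 < f4)
    (p5 : 0 ≤ f5) (q1 : 0 ≤ g1) (q2 : 0 < g2) (q3 : 0 < g3)
    (hW2 : f3 * f4 ≤ g2 * g3) (hW3 : f4 * f5 ≤ g3 * g4)
    (hK : f2 * f3 ^ 2 * f4 ≤ g1 * g2 ^ 2 * g3) (hL : f1 * f4 ≤ g1 * g2)
    (hR : f2 * f5 ≤ f3 * f4) (hm : f2 ≤ f4) :
    (f2 + f4) * (f3 + f5) ≤ (2 * g1 + g3) * (g2 + g4) ∧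
    (f1 + f3) * (f2 + f4) ^ 2 * (f3 + f5) ≤ g2 * (2 * g1 + g3) ^ 2 * (g2 + g4) ∧
    f2 * (f3 + f5) ≤ g2 * (2 * g1 + g3) := by
  have hw : 0 < f3 * f4 := mul_pos p3 p4
  have ha0 : 0 < f2 / f4 := div_pos p2 p4
  have ha : f2 / f4 ≤ 1 := (div_le_one p4).mpr hm
  have hc : 0 ≤ f5 / f3 := div_nonneg p5 p3.le
  have hac : f2 / f4 * (f5 / f3) ≤ 1 := by
    rw [div_mul_div_comm, div_le_one (by positivity)]; linarith
  have hb : 1 ≤ g2 * g3 / (f3 * f4) := (one_le_div hw).mpr hW2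
  have hx : f5 / f3 ≤ g3 * g4 / (f3 * f4) := by
    rw [div_le_div_iff₀ p3 hw]; nlinarith
  have hy0 : 0 ≤ g1 * g2 / (f3 * f4) := by positivity
  have hy : f2 / f4 ≤ g1 * g2 / (f3 * f4) * (g2 * g3 / (f3 * f4)) := by
    rw [div_mul_div_comm, div_le_div_iff₀ p4 (by positivity)]; nlinarith
  have hs : f1 / f3 ≤ g1 * g2 / (f3 * f4) := by
    rw [div_le_div_iff₀ p3 hw]; nlinarith
  have h1 := nW ha0 ha hc hac hb hx hy0 hy
  have h2 := nK ha0 ha hc hac hb hx hy0 hy hs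
  have h3 := nL (c := 0) ha0 ha hb hy0 hy
  have hq : 0 < g2 * g3 := mul_pos q2 q3
  refine ⟨?_, ?_, ?_⟩
  · have e : (2 * (g1 * g2 / (f3 * f4)) + g2 * g3 / (f3 * f4)) *
        (g2 * g3 / (f3 * f4) + g3 * g4 / (f3 * f4)) -
        (1 + f2 / f4) * (1 + f5 / f3) * (g2 * g3 / (f3 * f4)) =
        ((2 * g1 + g3) * (g2 + g4) - (f2 + f4) * (f3 + f5)) * (g2 * g3 / (f3 * f4) ^ 2) := by
      field_simp; ring
    have := sub_nonneg.mpr h1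
    rw [e] at this
    exact sub_nonneg.mp (nonneg_of_mul_nonneg_left this (by positivity))
  · have e : (2 * (g1 * g2 / (f3 * f4)) + g2 * g3 / (f3 * f4)) ^ 2 *
        (g2 * g3 / (f3 * f4) + g3 * g4 / (f3 * f4)) -
        (1 + f1 / f3) * (1 + f2 / f4) ^ 2 * (1 + f5 / f3) * (g2 * g3 / (f3 * f4)) =
        (g2 * (2 * g1 + g3) ^ 2 * (g2 + g4) - (f1 + f3) * (f2 + f4) ^ 2 * (f3 + f5)) *
          (g2 * g3 / (f3 * f4) ^ 3) := by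
      field_simp; ring
    have := sub_nonneg.mpr h2
    rw [e] at this
    exact sub_nonneg.mp (nonneg_of_mul_nonneg_left this (by positivity))
  · have e : (2 * (g1 * g2 / (f3 * f4)) + g2 * g3 / (f3 * f4)) - (1 + f2 / f4) =
        (g2 * (2 * g1 + g3) - (f3 * f4 + f2 * f3)) * (1 / (f3 * f4)) := by
      field_simp
    have := sub_nonneg.mpr h3
    rw [e] at this
    have := sub_nonneg.mp (nonneg_of_mul_nonneg_left this (by positivity))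
    nlinarith

theorem chain {f0 f1 f2 f3 g0 g1 g2 g3 : ℝ} (p0 : 0 ≤ f0) (p1 : 0 < f1) (p2 : 0 < f2)
    (p3 : 0 ≤ f3) (h0 : f0 * f1 ≤ g0 * g1) (h1 : f1 * f2 ≤ g1 * g2) (h2 : f2 * f3 ≤ g2 * g3)
    (hR : f0 * f3 ≤ f1 * f2) :
    (f0 + f2) * (f1 + f3) ≤ (g0 + g2) * (g1 + g3) := by
  have hb : 0 < f1 * f2 := mul_pos p1 p2
  have hY : 0 < g1 * g2 := by linarith
  have h3 : (f0 * f1) * (f2 * f3) ≤ (g0 * g1) * (g2 * g3) :=
    mul_le_mul h0 h2 (by positivity) (le_trans (by positivity) h0)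
  have h4 : f1 * f2 + f0 * f3 ≤ g1 * g2 + g0 * g3 := by
    refine le_of_mul_le_mul_left ?_ hY
    nlinarith [mul_nonneg (sub_nonneg.mpr h1) (sub_nonneg.mpr (hR.trans h1))]
  nlinarith

theorem forkFinal {f1 f2 f3 f4 g1 g2 g3 : ℝ} (p2 : 0 < f2) (q1 : 0 ≤ g1) (q2 : 0 < g2)
    (q3 : 0 < g3) (p1 : 0 ≤ f1) (hW2 : f3 * f4 ≤ g2 * g3)
    (hK : f2 * f3 ^ 2 * f4 ≤ g1 * g2 ^ 2 * g3) (hL : f1 * f4 ≤ g1 * g2)
    (hR : f1 * f4 ≤ f2 * f3) (hm : f2 ≤ f3) (hm' : f3 ≤ f4) :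
    4 * f2 + 4 * f4 ≤ 2 * g1 + 3 * g2 + 2 * g3 + (2 * f4 - 2 * f3 + 2 * f2 - f1) * (f4 / g3) := by
  have p3 : 0 < f3 := by linarith
  have p4 : 0 < f4 := by linarith
  have hw : 0 < f3 * f4 := mul_pos p3 p4
  have ha0 : 0 < f2 / f4 := div_pos p2 p4
  have ha : f2 / f4 ≤ 1 := (div_le_one p4).mpr (hm.trans hm')
  have hb : 1 ≤ g2 * g3 / (f3 * f4) := (one_le_div hw).mpr hW2
  have hy0 : 0 ≤ g1 * g2 / (f3 * f4) := by positivity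
  have hy : f2 / f4 ≤ g1 * g2 / (f3 * f4) * (g2 * g3 / (f3 * f4)) := by
    rw [div_mul_div_comm, div_le_div_iff₀ p4 (by positivity)]; nlinarith
  have hs : f1 / f3 ≤ g1 * g2 / (f3 * f4) := by
    rw [div_le_div_iff₀ p3 hw]; nlinarith
  have hsa : f1 / f3 ≤ f2 / f4 := by
    rw [div_le_div_iff₀ p3 p4]; linarith
  have h1 := nF ha0 ha hb hy0 hy hs hsa
  have hp : f2 / f4 ≤ f3 / f4 := by gcongr
  set a := f2 / f4 with ha'
  set b := g2 * g3 / (f3 * f4) with hb'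
  set y := g1 * g2 / (f3 * f4) with hy'
  set s := f1 / f3 with hs'
  set p := f3 / f4 with hp'
  have h2 : 3 * a * b + 2 - a * s ≤ 3 * p * b + 2 - 2 * p + 2 * a - p * s := by
    nlinarith [mul_nonneg (sub_nonneg.mpr hp) (show 0 ≤ 3 * b - 2 - s by linarith)]
  have h3 : 2 * (1 + a) ^ 2 * b ≤ (b + y) * (3 * p * b + 2 - 2 * p + 2 * a - p * s) :=
    h1.trans (by gcongr)
  set lam := 2 * f4 - 2 * f3 + 2 * f2 - f1 with hlam
  have hl : 0 ≤ lam := by nlinarith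
  have e : (b + y) * (3 * p * b + 2 - 2 * p + 2 * a - p * s) - 2 * (1 + a) ^ 2 * b =
      ((2 * g1 + 2 * g3) * (3 * g2 + lam * (f4 / g3)) - (2 * f2 + 2 * f4) ^ 2) *
        (g2 * g3 / (2 * f3 * f4 ^ 3)) := by
    rw [ha', hb', hy', hs', hp', hlam]
    field_simp; ring
  have h4 := sub_nonneg.mpr h3
  rw [e] at h4
  have h5 := sub_nonneg.mp (nonneg_of_mul_nonneg_left h4 (by positivity))
  have hX : 0 ≤ 2 * g1 + 2 * g3 := by positivity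
  have hY : 0 ≤ 3 * g2 + lam * (f4 / g3) := by positivity
  have h6 : (4 * f2 + 4 * f4) ^ 2 ≤ ((2 * g1 + 2 * g3) + (3 * g2 + lam * (f4 / g3))) ^ 2 := by
    nlinarith [sq_nonneg ((2 * g1 + 2 * g3) - (3 * g2 + lam * (f4 / g3)))]
  have h7 := abs_le_of_sq_le_sq' h6 (by positivity)
  linarith [h7.2]

end Pool.Agent.H766Z.TH
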