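import Mathlib

set_option autoImplicit false

namespace Pool.Agent.H766Z.TH

theorem nL {a c b y : ℝ} (ha0 : 0 < a) (ha : a ≤ 1) (hb : 1 ≤ b) (hy0 : 0 ≤ y) (hy : a ≤ y * b) :
    1 + a ≤ 2 * y + b := by
  by_cases h2 : b ≤ 2
  · nlinarith
  · nlinarith

theorem nC {a c b x : ℝ} (hac : a * c ≤ 1) (hb : 1 ≤ b) (ha0 : 0 < a) (hx : c ≤ x) :
    (1 + c) * (a * b + 1) ≤ (1 + a) * (b + x) := by
  nlinarith [mul_nonneg (sub_nonneg.mpr hb) (sub_nonneg.mpr hac)]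

theorem nW0 {a b : ℝ} (ha0 : 0 < a) (ha : a ≤ 1) (hb : 1 ≤ b) :
    (1 + a) ^ 2 * b ^ 2 ≤ (b ^ 2 + 2 * a) * (a * b + 1) := by
  obtain ⟨t, rfl⟩ : ∃ t, b = 1 + t := ⟨b - 1, by ring⟩
  have ht : 0 ≤ t := by linarith
  have h1 : 0 ≤ t ^ 3 + 1 + t ^ 2 - a * (1 + 2 * t + t ^ 2) + 2 * a * (1 + t) - t - t := by
    nlinarith [mul_nonneg ht (sq_nonneg (t - 1)), sq_nonneg (t - 1), sq_nonneg (t - 1/2),
      mul_nonneg ha0.le (sq_nonneg t), mul_nonneg (sub_nonneg.mpr ha) (sq_nonneg t)]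
  nlinarith [mul_nonneg ha0.le h1]

theorem nW {a c b x y : ℝ} (ha0 : 0 < a) (ha : a ≤ 1) (hc : 0 ≤ c) (hac : a * c ≤ 1) (hb : 1 ≤ b)
    (hx : c ≤ x) (hy0 : 0 ≤ y) (hy : a ≤ y * b) :
    (1 + a) * (1 + c) * b ≤ (2 * y + b) * (b + x) := by
  have h1 := nC hac hb ha0 hx
  have h2 := nW0 ha0 ha hb
  have hb0 : 0 < b := by linarith
  have hab : 0 < a * b + 1 := by positivity
  have h3 : b ^ 2 + 2 * a ≤ (2 * y + b) * b := by nlinarith
  have h4 : (1 + a) ^ 2 * b ≤ (2 * y + b) * (a * b + 1) := by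
    refine le_of_mul_le_mul_right ?_ hb0
    nlinarith [mul_le_mul_of_nonneg_right h3 hab.le]
  refine le_of_mul_le_mul_right ?_ hab
  have hbx : 0 ≤ b + x := by linarith
  calc (1 + a) * (1 + c) * b * (a * b + 1) = (1 + a) * b * ((1 + c) * (a * b + 1)) := by ring
    _ ≤ (1 + a) * b * ((1 + a) * (b + x)) := by gcongr
    _ = ((1 + a) ^ 2 * b) * (b + x) := by ring
    _ ≤ ((2 * y + b) * (a * b + 1)) * (b + x) := by gcongr
    _ = _ := by ring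

theorem nK0 {a b : ℝ} (ha0 : 0 < a) (ha : a ≤ 1) (hb : 1 ≤ b) :
    (a + b) * (1 + a) ^ 3 * b ^ 2 ≤ (b ^ 2 + 2 * a) ^ 2 * (a * b + 1) := by
  obtain ⟨t, rfl⟩ : ∃ t, b = 1 + t := ⟨b - 1, by ring⟩
  obtain ⟨u, rfl⟩ : ∃ u, a = 1 - u := ⟨1 - a, by ring⟩
  have ht : 0 ≤ t := by linarith
  have hu : 0 ≤ u := by linarith
  have hu1 : 0 ≤ 1 - u := ha0.le
  have key : ((1 + t) ^ 2 + 2 * (1 - u)) ^ 2 * ((1 - u) * (1 + t) + 1) -
      (1 - u + (1 + t)) * (1 + (1 - u)) ^ 3 * (1 + t) ^ 2 =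
      ((1 - u) * ((t ^ 2 + 2 * t - 1) ^ 2 * (t + 2) + u * (1 - 3 * u + u ^ 2)) +
        u * (t * (20 - 30 * u + 13 * u ^ 2 - 2 * u ^ 3))) +
        u * t ^ 2 * (18 - 24 * u + 10 * u ^ 2 - u ^ 3) + u * t ^ 3 * (4 - 2 * u + u ^ 2) +
        u * t ^ 4 := by ring
  have c1 : 1 ≤ 20 - 30 * u + 13 * u ^ 2 - 2 * u ^ 3 := by
    nlinarith [mul_nonneg hu1 hu1, mul_nonneg hu1 (mul_nonneg hu1 hu1)]
  have c2 : 0 ≤ 18 - 24 * u + 10 * u ^ 2 - u ^ 3 := by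
    nlinarith [mul_nonneg hu1 hu1, mul_nonneg hu1 (mul_nonneg hu1 hu1)]
  have c3 : 0 ≤ 4 - 2 * u + u ^ 2 := by nlinarith
  have c4 : 0 ≤ (1 - u) * ((t ^ 2 + 2 * t - 1) ^ 2 * (t + 2) + u * (1 - 3 * u + u ^ 2)) +
        u * (t * (20 - 30 * u + 13 * u ^ 2 - 2 * u ^ 3)) := by
    by_cases h7 : t ≤ 1 / 7
    · have d1 : 1 ≤ (t ^ 2 + 2 * t - 1) ^ 2 * (t + 2) := by
        have : (t ^ 2 + 2 * t - 1) ^ 2 * (t + 2) =
            2 - 7 * t + (10 * t ^ 3 + 6 * t ^ 4 + t ^ 5) := by ring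
        rw [this]
        have : 0 ≤ 10 * t ^ 3 + 6 * t ^ 4 + t ^ 5 := by positivity
        linarith
      have d2 : -1 ≤ u * (1 - 3 * u + u ^ 2) := by
        nlinarith [mul_nonneg hu1 hu, mul_nonneg hu1 (mul_nonneg hu1 hu)]
      have d3 : 0 ≤ u * (t * (20 - 30 * u + 13 * u ^ 2 - 2 * u ^ 3)) :=
        mul_nonneg hu (mul_nonneg ht (by linarith))
      exact add_nonneg (mul_nonneg hu1 (by linarith)) d3
    · have d1 : 0 ≤ (1 - u) * ((t ^ 2 + 2 * t - 1) ^ 2 * (t + 2)) := by positivity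
      have d2 : 0 ≤ (1 - u) * (1 - 3 * u + u ^ 2) +
          1 / 7 * (20 - 30 * u + 13 * u ^ 2 - 2 * u ^ 3) := by
        nlinarith [mul_nonneg hu1 hu1, mul_nonneg hu1 (mul_nonneg hu1 hu1), mul_nonneg hu1 hu,
          mul_nonneg hu1 (sq_nonneg (u - 3 / 4)), mul_nonneg hu (sq_nonneg (u - 3 / 4))]
      have d3 : 1 / 7 * (20 - 30 * u + 13 * u ^ 2 - 2 * u ^ 3) ≤
          t * (20 - 30 * u + 13 * u ^ 2 - 2 * u ^ 3) :=
        mul_le_mul_of_nonneg_right (by linarith) (by linarith)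
      have d4 : 0 ≤ u * ((1 - u) * (1 - 3 * u + u ^ 2) +
          t * (20 - 30 * u + 13 * u ^ 2 - 2 * u ^ 3)) := mul_nonneg hu (by linarith)
      nlinarith
  have c5 : 0 ≤ u * t ^ 2 * (18 - 24 * u + 10 * u ^ 2 - u ^ 3) := by positivity
  have c6 : 0 ≤ u * t ^ 3 * (4 - 2 * u + u ^ 2) := by positivity
  have c7 : 0 ≤ u * t ^ 4 := by positivity
  linarith

theorem nK {a c b x y s : ℝ} (ha0 : 0 < a) (ha : a ≤ 1) (hc : 0 ≤ c) (hac : a * c ≤ 1)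
    (hb : 1 ≤ b) (hx : c ≤ x) (hy0 : 0 ≤ y) (hy : a ≤ y * b) (hs : s ≤ y) :
    (1 + s) * (1 + a) ^ 2 * (1 + c) * b ≤ (2 * y + b) ^ 2 * (b + x) := by
  have h1 := nC hac hb ha0 hx
  have h2 := nK0 ha0 ha hb
  have hb0 : 0 < b := by linarith
  have hab : 0 < a * b + 1 := by positivity
  obtain ⟨e, he⟩ : ∃ e, y * b = a + e := ⟨y * b - a, by ring⟩
  have he0 : 0 ≤ e := by linarith
  have h5 : (1 + a) ^ 3 ≤ 4 * (a * b + 1) := by
    have : (1 + a) ^ 2 ≤ 4 := by nlinarith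
    nlinarith
  have h4 : (1 + y) * (1 + a) ^ 3 * b ≤ (2 * y + b) ^ 2 * (a * b + 1) := by
    refine le_of_mul_le_mul_right ?_ (pow_pos hb0 2)
    have e1 : (1 + y) * (1 + a) ^ 3 * b * b ^ 2 = (a + b) * (1 + a) ^ 3 * b ^ 2 +
        e * b ^ 2 * (1 + a) ^ 3 := by
      have : (1 + y) * b = a + b + e := by linarith
      calc _ = ((1 + y) * b) * (1 + a) ^ 3 * b ^ 2 := by ring
        _ = _ := by rw [this]; ring
    have e2 : (2 * y + b) ^ 2 * (a * b + 1) * b ^ 2 = (b ^ 2 + 2 * a + 2 * e) ^ 2 * (a * b + 1) := by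
      have : (2 * y + b) * b = b ^ 2 + 2 * a + 2 * e := by linarith
      calc _ = ((2 * y + b) * b) ^ 2 * (a * b + 1) := by ring
        _ = _ := by rw [this]
    rw [e1, e2]
    have h6 : e * b ^ 2 * (1 + a) ^ 3 ≤ e * b ^ 2 * (4 * (a * b + 1)) := by gcongr
    have h7 : 0 ≤ (8 * a * e + 4 * e ^ 2) * (a * b + 1) := by positivity
    nlinarith
  refine le_of_mul_le_mul_right ?_ hab
  have hbx : 0 ≤ b + x := by linarith
  calc (1 + s) * (1 + a) ^ 2 * (1 + c) * b * (a * b + 1)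
      = (1 + s) * ((1 + a) ^ 2 * b * ((1 + c) * (a * b + 1))) := by ring
    _ ≤ (1 + y) * ((1 + a) ^ 2 * b * ((1 + a) * (b + x))) := by gcongr
    _ = ((1 + y) * (1 + a) ^ 3 * b) * (b + x) := by ring
    _ ≤ ((2 * y + b) ^ 2 * (a * b + 1)) * (b + x) := by gcongr
    _ = _ := by ring

theorem nF {a b y s : ℝ} (ha0 : 0 < a) (ha : a ≤ 1) (hb : 1 ≤ b) (hy0 : 0 ≤ y) (hy : a ≤ y * b)
    (hs : s ≤ y) (hsa : s ≤ a) :
    2 * (1 + a) ^ 2 * b ≤ (b + y) * (3 * a * b + 2 - a * s) := by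
  have hb0 : 0 < b := by linarith
  have main : ∀ z : ℝ, a ≤ z * b → z ≤ a → 2 * (1 + a) ^ 2 * b ≤ (b + z) * (3 * a * b + 2 - a * z) := by
    intro z h1 h2
    obtain ⟨e, he⟩ : ∃ e, z * b = a + e := ⟨z * b - a, by ring⟩
    have he0 : 0 ≤ e := by linarith
    refine le_of_mul_le_mul_right ?_ (pow_pos hb0 2)
    have e1 : (b + z) * (3 * a * b + 2 - a * z) * b ^ 2 =
        (b ^ 2 + a + e) * (3 * a * b ^ 2 + 2 * b - a * (a + e)) := by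
      calc _ = (b ^ 2 + z * b) * (3 * a * b ^ 2 + 2 * b - a * (z * b)) := by ring
        _ = _ := by rw [he]; ring
    rw [e1]
    have h3 : a + e ≤ a * b := by nlinarith
    have h4 : 0 ≤ e * (2 * a * b ^ 2 + 2 * b - a * (a + e) - a * a) := by
      refine mul_nonneg he0 ?_
      have : a * (a + e) ≤ 1 * (1 * b) := by
        refine mul_le_mul ha (h3.trans (by nlinarith)) (by linarith) zero_le_one
      nlinarith [mul_pos ha0 (pow_pos hb0 2)]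
    have h5 : 0 ≤ a * ((b - 1) ^ 2 * (3 * b ^ 2 - 1) + (1 - a) * (2 * b ^ 2 * (b - 1)) +
        (1 - a) * (1 + a)) := by
      have : 0 ≤ 3 * b ^ 2 - 1 := by nlinarith
      have : 0 ≤ 1 - a := by linarith
      have : 0 ≤ b - 1 := by linarith
      positivity
    nlinarith
  by_cases h : y ≤ a
  · refine (main y hy h).trans ?_
    gcongr
  · refine (main a (by nlinarith) le_rfl).trans ?_
    have : 0 ≤ 3 * a * b + 2 - a * a := by nlinarith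
    have h' : a ≤ y := by linarith
    gcongr

end Pool.Agent.H766Z.TH
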