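import Pool.Agent.H766Z.THBase

set_option autoImplicit false

namespace Pool.Agent.H766Z.TH

open Finset

variable {V : Type} [Fintype V] [DecidableEq V] {N : ℕ} {z : ℕ → V} {Q : Finset V} {p : V → V}

theorem phi_ge {d a : ℝ} (ha : 0 < a) (h : a ≤ d) :
    a * Real.log a - (2 * a - 2) * Real.log 2 + (d - a) * (Real.log a + 1 - 2 * Real.log 2) ≤
      d * Real.log d - (2 * d - 2) * Real.log 2 := by
  have := tangent ha (ha.trans_le h)
  nlinarith

theorem log_facts : Real.log 2 ≤ 1 ∧ Real.log 2 ≤ Real.log 3 ∧ Real.log 4 = 2 * Real.log 2 ∧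
    14 * Real.log 2 ≤ 9 * Real.log 3 := by
  refine ⟨by linarith [Real.log_two_lt_d9], Real.log_le_log two_pos (by norm_num), ?_, ?_⟩
  · rw [show (4 : ℝ) = 2 ^ 2 by norm_num, Real.log_pow]; norm_num
  · have : Real.log (2 ^ 14) ≤ Real.log (3 ^ 9) := Real.log_le_log (by norm_num) (by norm_num)
    rw [Real.log_pow, Real.log_pow] at this
    exact_mod_cast this

theorem Valid.deg_path (h : Valid N z Q p) {t : ℕ} (h0 : 0 < t) (ht : t < N) {S : Finset V}
    (hS : S ⊆ Q) (hp : ∀ v ∈ S, p v = z t) : 2 + (S.card : ℝ) ≤ ∑ y, RM N z Q p (z t) y := by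
  have := h.op_path ht.le (fun _ => 1)
  simp only [mul_one] at this
  rw [this, if_pos h0, if_pos ht, sum_boole]
  have : S.card ≤ (Q.filter fun v => p v = z t).card :=
    card_le_card fun v hv => mem_filter.mpr ⟨hS hv, hp v hv⟩
  have : (S.card : ℝ) ≤ (Q.filter fun v => p v = z t).card := by exact_mod_cast this
  linarith

theorem Valid.deg_cases (h : Valid N z Q p) (hN : 1 ≤ N) (x : V) :
    ∑ y, RM N z Q p x y = 1 ∨ 2 ≤ ∑ y, RM N z Q p x y := by
  have key : ∃ k : ℕ, ∑ y, RM N z Q p x y = 1 + k := by
    by_cases hx : x ∈ Q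
    · have := h.op_Q hx (fun _ => 1)
      simp only [mul_one] at this
      exact ⟨_, by rw [this, sum_boole]⟩
    · obtain ⟨t, ht, rfl⟩ := h.cover x hx
      have := h.op_path ht (fun _ => 1)
      simp only [mul_one] at this
      rw [this, sum_boole]
      split_ifs with h1 h2 h2
      · exact ⟨1 + _, by push_cast; rw [add_assoc]⟩
      · exact ⟨_, by rw [add_zero]⟩
      · exact ⟨_, by rw [zero_add]⟩
      · omega
  obtain ⟨k, hk⟩ := key
  rcases k with _ | k
  · left; simpa using hk
  · right; rw [hk]; push_cast; linarith [(Nat.cast_nonneg k : (0 : ℝ) ≤ k)]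

theorem good_A (h : Valid N z Q p) (hN : 1 ≤ N)
    (hd : (∃ x, 4 ≤ ∑ y, RM N z Q p x y) ∨ ∃ S : Finset V, S.card = 3 ∧
      ∀ x ∈ S, 3 ≤ ∑ y, RM N z Q p x y) : Good (RM N z Q p) := by
  obtain ⟨l1, l2, l3, l4⟩ := log_facts
  have hc := h.card
  obtain ⟨m, hm⟩ : ∃ m, Fintype.card V = m + 2 := ⟨Fintype.card V - 2, by omega⟩
  have hD : ∑ x, ∑ y, RM N z Q p x y = 2 * m + 2 := by
    have h1 : ∀ a b : V, ∑ x, ∑ y, Ed a b x y = 2 := by
      intro a b
      have : ∀ x, ∑ y, Ed a b x y = (if x = a then 1 else 0) + (if x = b then 1 else 0) := by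
        intro x
        simpa using Ed_op a b x (fun _ => 1)
      simp only [this, sum_add_distrib, sum_ite_eq', mem_univ, if_true]
      norm_num
    unfold RM
    simp only [sum_add_distrib]
    have h2 : ∑ x, ∑ y, ∑ i ∈ range N, Ed (z i) (z (i + 1)) x y = 2 * N := by
      rw [sum_congr rfl fun x _ => sum_comm, sum_comm]
      simp [h1, mul_comm]
    have h3 : ∑ x, ∑ y, ∑ v ∈ Q, Ed v (p v) x y = 2 * Q.card := by
      rw [sum_congr rfl fun x _ => sum_comm, sum_comm]
      simp [h1, mul_comm]
    rw [h2, h3]
    have : N + Q.card = m + 1 := by omega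
    have : (N : ℝ) + Q.card = m + 1 := by exact_mod_cast this
    linarith
  refine good_entropy hm RM_symm RM_nonneg (fun x => ?_) hD ?_
  · rcases h.deg_cases hN x with e | e <;> linarith
  set d : V → ℝ := fun x => ∑ y, RM N z Q p x y with hdd
  have nn : ∀ x, 0 ≤ d x * Real.log (d x) - (2 * d x - 2) * Real.log 2 := by
    intro x
    rcases h.deg_cases hN x with e | e
    · simp only [hdd, e]; simp
    · have := phi_ge two_pos e
      nlinarith [mul_nonneg (sub_nonneg.mpr e) (sub_nonneg.mpr l1)]
  have big : 2 * Real.log 2 ≤ ∑ x, (d x * Real.log (d x) - (2 * d x - 2) * Real.log 2) := by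
    rcases hd with ⟨x, hx⟩ | ⟨S, hS, hx⟩
    · refine le_trans ?_ (single_le_sum (fun x _ => nn x) (mem_univ x))
      have := phi_ge four_pos hx
      rw [l3] at this
      nlinarith
    · refine le_trans ?_ (sum_le_sum_of_subset_of_nonneg (subset_univ S) fun x _ _ => nn x)
      have : ∀ x ∈ S, 3 * Real.log 3 - 4 * Real.log 2 ≤
          d x * Real.log (d x) - (2 * d x - 2) * Real.log 2 := by
        intro x hxS
        have := phi_ge three_pos (hx x hxS)
        nlinarith [mul_nonneg (sub_nonneg.mpr (hx x hxS))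
          (show 0 ≤ Real.log 3 + 1 - 2 * Real.log 2 by linarith)]
      have := card_nsmul_le_sum S _ _ this
      rw [hS] at this
      simp only [nsmul_eq_mul] at this
      push_cast at this
      linarith
  rw [sum_sub_distrib, ← sum_mul, sum_sub_distrib, ← mul_sum, hD] at big
  simp only [sum_const, card_univ, hm, nsmul_eq_mul] at big
  push_cast at big
  linarith

theorem good_all (h5 : 5 ≤ Fintype.card V) (k : ℕ) : ∀ (N : ℕ) (z : ℕ → V) (Q : Finset V)
    (p : V → V), Valid N z Q p → Q.card = k → Good (RM N z Q p) := by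
  induction k with
  | zero =>
    intro N z Q p hv hk
    rw [card_eq_zero] at hk
    subst hk
    exact good_path hv
  | succ k ih =>
    have top : ∀ (N : ℕ) (z : ℕ → V) (Q : Finset V) (p : V → V), Valid N z Q p →
        Q.card = k + 1 → ∀ r ∈ Q, p r = z N → Good (RM N z Q p) := by
      intro N z Q p hv hk r hr hp
      rw [← RM_extend hr hp]
      exact ih _ _ _ _ (hv.extend hr) (by rw [card_erase_of_mem hr]; omega)
    have bot : ∀ (N : ℕ) (z : ℕ → V) (Q : Finset V) (p : V → V), Valid N z Q p →
        Q.card = k + 1 → ∀ r ∈ Q, p r = z 0 → Good (RM N z Q p) := by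
      intro N z Q p hv hk r hr hp
      rw [← RM_reverse]
      exact top _ _ _ _ hv.reverse hk r hr (by simpa using hp)
    have repath : ∀ (N : ℕ) (z : ℕ → V) (Q : Finset V) (p : V → V), Valid (N + 1) z Q p →
        Q.card = k + 1 → ∀ r ∈ Q, p r = z N → ∀ s ∈ Q, p s = r → Good (RM (N + 1) z Q p) := by
      intro N z Q p hv hk r hr hp s hs hps
      by_cases hno : ∃ v ∈ Q, p v = z (N + 1)
      · obtain ⟨v, hv', e⟩ := hno
        exact top _ _ _ _ hv hk v hv' e
      push Not at hno
      have hz := hv.notMem (N + 1) le_rfl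
      have hrz : r ≠ z (N + 1) := fun e => hz (by rw [← e]; exact hr)
      have hsz : s ≠ z (N + 1) := fun e => hz (by rw [← e]; exact hs)
      have hsr : s ≠ r := by
        intro e
        rw [e, hp] at hps
        exact hv.notMem N (by omega) (by rw [hps]; exact hr)
      have hr1 : r ∈ insert (z (N + 1)) Q := mem_insert_of_mem hr
      rw [← RM_shrink hv, ← RM_extend hr1 (by rw [Function.update_of_ne hrz, hp])]
      refine top _ _ _ _ ((hv.shrink hno).extend hr1) ?_ s
        (mem_erase.mpr ⟨hsr, mem_insert_of_mem hs⟩) ?_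
      · rw [card_erase_of_mem hr1, card_insert_of_notMem hz]; omega
      · rw [Function.update_of_ne hsz, Function.update_self, hps]
    have norm : ∀ (N : ℕ) (z : ℕ → V) (Q : Finset V) (p : V → V), Valid N z Q p →
        Q.card = k + 1 → ∀ r ∈ Q, ∀ i, i ≤ N → p r = z i →
        (∀ v ∈ Q, ∀ t, t ≤ N → p v = z t → t ≤ i) →
        (∀ M m, N = M + 1 → 1 ≤ i → i ≤ M → i + M = 2 * m →
          (∀ s ∈ Q, Function.update p r (z M) s ≠ r) →
          Good (RM N z Q (Function.update p r (z M)))) → Good (RM N z Q p) := by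
      intro N z Q p hv hk r hr i hi hp hmax H
      rcases Nat.eq_zero_or_pos i with h0 | h0
      · exact bot _ _ _ _ hv hk r hr (by rw [hp, h0])
      rcases Nat.even_or_odd' (i + N) with ⟨m, hm | hm⟩
      · exact fun t => (top _ _ _ _ (hv.update r le_rfl) hk r hr (Function.update_self ..) t).trans
          (move hv hr hp hi le_rfl hm (by omega) hmax t)
      · obtain ⟨M, rfl⟩ : ∃ M, N = M + 1 := ⟨N - 1, by omega⟩
        refine fun t => le_trans ?_
          (move (j := M) (m := m) hv hr hp (by omega) (by omega) (by omega) (by omega) hmax t)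
        by_cases hs : ∃ s ∈ Q, Function.update p r (z M) s = r
        · obtain ⟨s, hs, e⟩ := hs
          exact repath _ _ _ _ (hv.update r (by omega)) hk r hr (Function.update_self ..) s hs e t
        · push Not at hs
          exact H M m rfl h0 (by omega) (by omega) hs t
    have maxhang : ∀ (N : ℕ) (z : ℕ → V) (Q : Finset V) (p : V → V), Valid N z Q p →
        ∀ S : Finset V, S ⊆ Q → S.Nonempty → (∀ v ∈ S, p v ∈ Q → p v ∈ S) →
        ∃ r ∈ S, ∃ i, i ≤ N ∧ p r = z i ∧ ∀ v ∈ S, ∀ t, t ≤ N → p v = z t → t ≤ i := by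
      intro N z Q p hv S hS hne hcl
      classical
      obtain ⟨r, hr, i, hi, e⟩ := hv.exists_hang hS hne hcl
      have hP : ∃ r ∈ S, p r = z (Nat.findGreatest (fun i => ∃ r ∈ S, p r = z i) N) :=
        Nat.findGreatest_spec (P := fun i => ∃ r ∈ S, p r = z i) hi ⟨r, hr, e⟩
      obtain ⟨r', hr', e'⟩ := hP
      exact ⟨r', hr', _, Nat.findGreatest_le N, e', fun v hv' t ht e'' =>
        Nat.le_findGreatest (P := fun i => ∃ r ∈ S, p r = z i) ht ⟨v, hv', e''⟩⟩
    have two : ∀ (M : ℕ) (z : ℕ → V) (Q : Finset V) (p : V → V), Valid (M + 1) z Q p →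
        Q.card = k + 1 → 1 ≤ M → ∀ r ∈ Q, ∀ r' ∈ Q, r ≠ r' → p r = z 1 → p r' = z M →
        (∀ s ∈ Q, p s ≠ r) → (∀ s ∈ Q, p s ≠ r') → Good (RM (M + 1) z Q p) := by
      intro M z Q p hv hk hM r hr r' hr' hne hp hp' hl hl'
      by_cases hM1 : M = 1
      · refine good_A hv (by omega) (Or.inl ⟨z 1, ?_⟩)
        have := hv.deg_path one_pos (by omega) (S := {r, r'})
          (by intro v hv'; simp at hv'; rcases hv' with e | e <;> rw [e] <;> assumption)
          (by intro v hv'; simp at hv'; rcases hv' with e | e <;> rw [e]; exacts [hp, hM1 ▸ hp'])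
        rw [card_pair hne] at this
        push_cast at this
        linarith
      by_cases hQ : (Q.erase r).erase r' = ∅
      · have : Q = {r, r'} := by
          ext v
          simp only [mem_insert, mem_singleton]
          constructor
          · intro hv'
            by_contra hc
            push Not at hc
            have : v ∈ (Q.erase r).erase r' := by simp [hc.1, hc.2, hv']
            rw [hQ] at this
            exact notMem_empty _ this
          · rintro (e | e) <;> rw [e] <;> assumption
        subst this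
        obtain ⟨m, rfl⟩ : ∃ m, M = m + 2 := ⟨M - 2, by omega⟩
        exact good_Dt hv hne hp hp'
      obtain ⟨w, hw, j, hj, hpw⟩ := hv.exists_hang (S := (Q.erase r).erase r')
        ((erase_subset _ _).trans (erase_subset _ _)) (nonempty_iff_ne_empty.mpr hQ) (by
          intro v hv' hpv
          have hvQ := mem_of_mem_erase (mem_of_mem_erase hv')
          exact mem_erase.mpr ⟨hl' v hvQ, mem_erase.mpr ⟨hl v hvQ, hpv⟩⟩)
      have hwQ := mem_of_mem_erase (mem_of_mem_erase hw)
      have hwr' := ne_of_mem_erase hw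
      have hwr := ne_of_mem_erase (mem_of_mem_erase hw)
      by_cases j0 : j = 0
      · exact bot _ _ _ _ hv hk w hwQ (by rw [hpw, j0])
      by_cases jN : j = M + 1
      · exact top _ _ _ _ hv hk w hwQ (by rw [hpw, jN])
      have four : ∀ a ∈ Q, w ≠ a → p a = z j → Good (RM (M + 1) z Q p) := by
        intro a ha hwa hpa
        refine good_A hv (by omega) (Or.inl ⟨z j, ?_⟩)
        have := hv.deg_path (t := j) (by omega) (by omega) (S := {w, a})
          (by intro v hv'; simp at hv'; rcases hv' with e | e <;> rw [e] <;> assumption)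
          (by intro v hv'; simp at hv'; rcases hv' with e | e <;> rw [e] <;> assumption)
        rw [card_pair hwa] at this
        push_cast at this
        linarith
      by_cases j1 : j = 1
      · exact four r hr hwr (by rw [hp, j1])
      by_cases jM : j = M
      · exact four r' hr' hwr' (by rw [hp', jM])
      have three : ∀ a ∈ Q, ∀ t, 0 < t → t < M + 1 → p a = z t →
          3 ≤ ∑ y, RM (M + 1) z Q p (z t) y := by
        intro a ha t h0 h1 hpa
        have := hv.deg_path h0 h1 (S := {a}) (by simpa using ha) (by simpa using hpa)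
        rw [card_singleton] at this
        push_cast at this
        linarith
      refine good_A hv (by omega) (Or.inr ⟨{z 1, z M, z j}, ?_, ?_⟩)
      · refine card_eq_three.mpr ⟨_, _, _, fun e => ?_, fun e => ?_, fun e => ?_, rfl⟩ <;>
          have := hv.inj _ _ (by omega) (by omega) e <;> omega
      · intro x hx
        simp only [mem_insert, mem_singleton] at hx
        rcases hx with e | e | e <;> rw [e]
        · exact three r hr 1 (by omega) (by omega) hp
        · exact three r' hr' M (by omega) (by omega) hp'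
        · exact three w hwQ j (by omega) (by omega) hpw
    have one : ∀ (N : ℕ) (z : ℕ → V) (Q : Finset V) (p : V → V), Valid N z Q p →
        Q.card = k + 1 → 2 ≤ N → ∀ r ∈ Q, p r = z 1 → (∀ s ∈ Q, p s ≠ r) →
        Good (RM N z Q p) := by
      intro N z Q p hv hk hN r hr hp hl
      by_cases hQ : Q.erase r = ∅
      · have : Q = {r} := by rw [← insert_erase hr, hQ]; rfl
        subst this
        have hc := hv.card
        rw [card_singleton] at hc
        rcases Nat.even_or_odd' N with ⟨m, hm | hm⟩
        · exact good_D (k := m + 1) hv hp (by omega) (by omega)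
        · refine fun t => (top _ _ _ _ (hv.update r le_rfl) hk r hr
            (Function.update_self ..) t).trans
            (move (m := m + 1) hv hr hp (by omega) le_rfl (by omega) (by omega) ?_ t)
          intro v hv' t ht e
          rw [mem_singleton.mp hv', hp] at e
          exact (hv.inj _ _ (by omega) ht e).ge
      obtain ⟨r', hr', i, hi, hp', hmax⟩ := maxhang N z Q p hv (Q.erase r) (erase_subset _ _)
        (nonempty_iff_ne_empty.mpr hQ)
        (fun v hv' hpv => mem_erase.mpr ⟨hl v (mem_of_mem_erase hv'), hpv⟩)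
      have hr'Q := mem_of_mem_erase hr'
      have hne := ne_of_mem_erase hr'
      rcases Nat.eq_zero_or_pos i with h0 | h0
      · exact bot _ _ _ _ hv hk r' hr'Q (by rw [hp', h0])
      refine norm N z Q p hv hk r' hr'Q i hi hp' (fun v hv' t ht e => ?_) ?_
      · by_cases e' : v = r
        · rw [e', hp] at e
          have := hv.inj _ _ (by omega) ht e
          omega
        · exact hmax v (mem_erase.mpr ⟨e', hv'⟩) t ht e
      · intro M m hM h1 h2 _ hl'
        subst hM
        refine two M z Q _ (hv.update r' (by omega)) hk (by omega) r hr r' hr'Q hne.symm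
          (by rw [Function.update_of_ne hne.symm, hp]) (Function.update_self ..) ?_ hl'
        intro s hs
        by_cases e : s = r'
        · rw [e, Function.update_self]
          exact fun e' => hv.notMem M (by omega) (by rw [e']; exact hr)
        · rw [Function.update_of_ne e]
          exact hl s hs
    intro N z Q p hv hk
    obtain ⟨r, hr, i, hi, hp, hmax⟩ := maxhang N z Q p hv Q subset_rfl
      (card_pos.mp (by omega)) (fun _ _ h => h)
    refine norm N z Q p hv hk r hr i hi hp hmax ?_
    intro M m hM h1 h2 _ hl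
    subst hM
    rw [← RM_reverse]
    exact one _ _ _ _ (hv.update r (by omega)).reverse hk (by omega) r hr
      (by rw [Function.update_self]; rfl) hl

theorem good_connected (h5 : 5 ≤ Fintype.card V) (G : SimpleGraph V) (hG : G.Connected) :
    Good (adj G) := by
  obtain ⟨x⟩ := hG.nonempty
  have hp : ∀ v : V, ∃ w : V, v ≠ x → G.Adj v w ∧ G.dist w x < G.dist v x := by
    intro v
    by_cases e : v = x
    · exact ⟨v, fun h => absurd e h⟩
    obtain ⟨q, hq⟩ := hG.exists_walk_length_eq_dist v x
    cases q with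
    | nil => exact absurd rfl e
    | cons h q =>
      refine ⟨_, fun _ => ⟨h, ?_⟩⟩
      have := G.dist_le q
      rw [SimpleGraph.Walk.length_cons] at hq
      omega
  choose p hp using hp
  have hv : Valid 0 (fun _ => x) (univ.erase x) p :=
    ⟨fun i j hi hj _ => by omega, fun _ _ => notMem_erase _ _,
      fun v hv => ⟨0, le_rfl, by by_contra e; exact hv (mem_erase.mpr ⟨fun e' => e e'.symm, mem_univ _⟩)⟩,
      ⟨fun v => G.dist v x, fun v hv _ => (hp v (ne_of_mem_erase hv)).2⟩⟩
  refine fun t => (good_all h5 _ _ _ _ _ hv rfl t).trans (total_mono RM_nonneg (fun a b => ?_) t)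
  unfold RM Ed
  rw [range_zero, sum_empty, zero_add, sum_add_distrib]
  simp only [ite_and]
  rw [sum_ite_eq]
  have : ∑ v ∈ univ.erase x, (if a = p v then if b = v then (1 : ℝ) else 0 else 0) =
      ∑ v ∈ univ.erase x, (if b = v then if a = p v then (1 : ℝ) else 0 else 0) :=
    sum_congr rfl fun v _ => by split_ifs <;> rfl
  rw [this, sum_ite_eq]
  unfold adj
  by_cases h1 : a ∈ univ.erase x ∧ b = p a <;> by_cases h2 : b ∈ univ.erase x ∧ a = p b
  · have a1 := (hp a (ne_of_mem_erase h1.1)).2
    have a2 := (hp b (ne_of_mem_erase h2.1)).2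
    rw [← h1.2] at a1
    rw [← h2.2] at a2
    omega
  · have a1 := (hp a (ne_of_mem_erase h1.1)).1
    rw [← h1.2] at a1
    rw [← ite_and, ← ite_and, if_pos h1, if_neg h2, if_pos a1, add_zero]
  · have a1 := (hp b (ne_of_mem_erase h2.1)).1
    rw [← h2.2] at a1
    rw [← ite_and, ← ite_and, if_neg h1, if_pos h2, if_pos a1.symm, zero_add]
  · rw [← ite_and, ← ite_and, if_neg h1, if_neg h2, add_zero]
    split_ifs <;> norm_num

theorem main (n : ℕ) (hn : 5 ≤ n) (T : SimpleGraph (Fin n)) (hT : T.Connected) (m : ℕ)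
    (S : SimpleGraph (Fin m)) (hS : S.IsTree) :
    Nat.card (S →g SimpleGraph.pathGraph n) ≤ Nat.card (S →g T) := by
  obtain ⟨t, ht⟩ := tree_RT S hS
  have := good_connected (by simpa using hn) T hT t
  rw [Fintype.card_fin, ← total_path, ← ht, ← ht] at this
  exact_mod_cast this

end Pool.Agent.H766Z.TH
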