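import Pool.Agent.H766Z.THRep

set_option autoImplicit false

namespace Pool.Agent.H766Z.TH

open Finset

theorem maj_mul {a b a' b' c d c' d' : ℝ} (ha : 0 ≤ a) (hb : 0 ≤ b) (hc : 0 ≤ c) (hd : 0 ≤ d)
    (hd' : 0 ≤ d') (h1 : a ≤ a') (h2 : b ≤ a') (h3 : a + b ≤ a' + b')
    (k1 : c ≤ c') (k2 : d ≤ c') (k3 : c + d ≤ c' + d') (k4 : d' ≤ c') :
    a * c + b * d ≤ a' * c' + b' * d' := by
  rcases le_total a b with h | h
  · nlinarith [mul_nonneg (sub_nonneg.mpr k4) (sub_nonneg.mpr h2),
      mul_nonneg hd' (sub_nonneg.mpr h3), mul_nonneg (sub_nonneg.mpr h) (sub_nonneg.mpr k2),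
      mul_nonneg ha (sub_nonneg.mpr k3)]
  · nlinarith [mul_nonneg (sub_nonneg.mpr k4) (sub_nonneg.mpr h1),
      mul_nonneg hd' (sub_nonneg.mpr h3), mul_nonneg (sub_nonneg.mpr h) (sub_nonneg.mpr k1),
      mul_nonneg hb (sub_nonneg.mpr k3)]

variable {V : Type} [Fintype V] [DecidableEq V] {N : ℕ} {z : ℕ → V} {Q : Finset V} {p : V → V}

structure MInv (N L : ℕ) (z : ℕ → V) (Q : Finset V) (u u' : V → ℝ) : Prop where
  nn : ∀ x, 0 ≤ u x
  nn' : ∀ x, 0 ≤ u' x
  q : ∀ v ∈ Q, u v ≤ u' v
  lo : ∀ t, t ≤ N → 2 * t ≤ L → u (z t) ≤ u' (z t)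
  hi : ∀ s t, s + t = L → s ≤ t → t ≤ N →
    u (z t) ≤ u' (z s) ∧ u' (z t) ≤ u' (z s) ∧ u (z s) + u (z t) ≤ u' (z s) + u' (z t)

omit [Fintype V] [DecidableEq V] in
theorem MInv.mul {L : ℕ} {u u' w w' : V → ℝ} (h : MInv N L z Q u u') (k : MInv N L z Q w w') :
    MInv N L z Q (fun x => u x * w x) (fun x => u' x * w' x) := by
  refine ⟨fun x => mul_nonneg (h.nn x) (k.nn x), fun x => mul_nonneg (h.nn' x) (k.nn' x),
    fun v hv => mul_le_mul (h.q v hv) (k.q v hv) (k.nn _) (h.nn' _),
    fun t ht hL => mul_le_mul (h.lo t ht hL) (k.lo t ht hL) (k.nn _) (h.nn' _),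
    fun s t e hst ht => ?_⟩
  obtain ⟨a1, a2, a3⟩ := h.hi s t e hst ht
  obtain ⟨b1, b2, b3⟩ := k.hi s t e hst ht
  exact ⟨mul_le_mul a1 b1 (k.nn _) (h.nn' _), mul_le_mul a2 b2 (k.nn' _) (h.nn' _),
    maj_mul (h.nn _) (h.nn _) (k.nn _) (k.nn _) (k.nn' _) (h.lo s (by omega) (by omega)) a1 a3
      (k.lo s (by omega) (by omega)) b1 b3 b2⟩

theorem MInv.step (hv : Valid N z Q p) {r : V} (hr : r ∈ Q) {i j m : ℕ} (hp : p r = z i)
    (hij : i < j) (hj : j ≤ N) (hm : i + j = 2 * m) (hN : N ≤ i + j)
    (hmax : ∀ v ∈ Q, ∀ t, t ≤ N → p v = z t → t ≤ i) {u u' : V → ℝ}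
    (h : MInv N (i + j) z Q u u') :
    MInv N (i + j) z Q (fun x => ∑ y, RM N z Q (Function.update p r (z j)) x y * u y)
      (fun x => ∑ y, RM N z Q p x y * u' y) := by
  have hv0 := hv.update r hj
  have split : ∀ (x : V) (q : V → V) (w : V → ℝ), (∑ v ∈ Q, if q v = x then w v else 0) =
      (if q r = x then w r else 0) + ∑ v ∈ Q.erase r, if q v = x then w v else 0 :=
    fun x q w => (add_sum_erase Q (fun v => if q v = x then w v else 0) hr).symm
  have rest : ∀ x : V, (∑ v ∈ Q.erase r, if Function.update p r (z j) v = x then u v else 0) ≤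
      ∑ v ∈ Q.erase r, if p v = x then u' v else 0 := by
    intro x
    refine sum_le_sum fun v hv' => ?_
    rw [Function.update_of_ne (ne_of_mem_erase hv')]
    split_ifs
    · exact h.q v (mem_of_mem_erase hv')
    · exact le_rfl
  have rest0 : ∀ x : V, 0 ≤
      ∑ v ∈ Q.erase r, if Function.update p r (z j) v = x then u v else 0 :=
    fun x => sum_nonneg fun v _ => by split_ifs; exacts [h.nn v, le_rfl]
  have top : ∀ t, i < t → t ≤ N → (∑ v ∈ Q.erase r, if p v = z t then u' v else 0) = 0 :=
    fun t h1 h2 => sum_eq_zero fun v hv' =>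
      if_neg fun e => absurd (hmax v (mem_of_mem_erase hv') t h2 e) (by omega)
  have ei : ∀ t, t ≤ N → (if p r = z t then u' r else 0) = if t = i then u' r else 0 := by
    intro t ht
    rw [hp]
    by_cases e : t = i
    · simp [e]
    · rw [if_neg e, if_neg fun e' => e (hv.inj _ _ (by omega) ht e').symm]
  have ej : ∀ t, t ≤ N → (if Function.update p r (z j) r = z t then u r else 0) =
      if t = j then u r else 0 := by
    intro t ht
    rw [Function.update_self]
    by_cases e : t = j
    · simp [e]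
    · rw [if_neg e, if_neg fun e' => e (hv.inj _ _ hj ht e').symm]
  have hur := h.q r hr
  have hlo : ∀ t, t ≤ N → 2 * t ≤ i + j →
      ∑ y, RM N z Q (Function.update p r (z j)) (z t) y * u y ≤
        ∑ y, RM N z Q p (z t) y * u' y := by
    intro t ht hL
    rw [hv0.op_path ht, hv.op_path ht, split, split, ei t ht, ej t ht, if_neg (show ¬ t = j by omega),
      if_pos (show t < N by omega), if_pos (show t < N by omega)]
    have a1 := rest (z t)
    have a2 : 0 ≤ if t = i then u' r else 0 := by split_ifs; exacts [h.nn' r, le_rfl]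
    by_cases e : t = m
    · have := (h.hi (t - 1) (t + 1) (by omega) (by omega) (by omega)).2.2
      rw [if_pos (show 0 < t by omega), if_pos (show 0 < t by omega)]
      linarith
    · have a3 := h.lo (t + 1) (by omega) (by omega)
      have a4 := h.lo (t - 1) (by omega) (by omega)
      by_cases h0 : 0 < t
      · rw [if_pos h0, if_pos h0]; linarith
      · rw [if_neg h0, if_neg h0]; linarith
  refine ⟨fun x => sum_nonneg fun y _ => mul_nonneg (RM_nonneg _ _) (h.nn y),
    fun x => sum_nonneg fun y _ => mul_nonneg (RM_nonneg _ _) (h.nn' y), fun v hv' => ?_, hlo,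
    fun s t e hst ht => ?_⟩
  · rw [hv0.op_Q hv', hv.op_Q hv', split, split, Function.update_self,
      if_neg (fun (e : z j = v) => hv.notMem j hj (by rw [e]; exact hv'))]
    have a1 := rest v
    have a2 : 0 ≤ if p r = v then u' r else 0 := by split_ifs; exacts [h.nn' r, le_rfl]
    have a3 : u (Function.update p r (z j) v) ≤ u' (p v) := by
      by_cases e : v = r
      · rw [e, Function.update_self, hp]
        exact (h.hi i j rfl hij.le hj).1
      · rw [Function.update_of_ne e]
        by_cases e' : p v ∈ Q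
        · exact h.q _ e'
        · obtain ⟨t, ht, e''⟩ := hv.cover _ e'
          have := hmax v hv' t ht e''.symm
          rw [← e'']
          exact h.lo t ht (by omega)
    linarith
  · rcases eq_or_lt_of_le hst with e' | hlt
    · subst e'
      have := hlo s ht (by omega)
      exact ⟨this, le_rfl, by linarith⟩
    have hs : s ≤ N := by omega
    have a1 := rest (z s)
    have a2 := rest (z t)
    have a3 := top t (by omega) ht
    have a4 := rest0 (z s)
    have a5 := rest0 (z t)
    obtain ⟨b1, b2, b3⟩ := h.hi (s + 1) (t - 1) (by omega) (by omega) (by omega)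
    have c : (if t = j then u r else 0) ≤ if s = i then u' r else 0 := by
      split_ifs <;> first | omega | exact hur | exact le_rfl
    have c0 : 0 ≤ if s = i then u' r else 0 := by split_ifs; exacts [h.nn' r, le_rfl]
    rw [hv0.op_path ht, hv.op_path ht, hv0.op_path hs, hv.op_path hs, split, split, split, split,
      ei t ht, ej t ht, ei s hs, ej s hs, if_neg (show ¬ s = j by omega),
      if_neg (show ¬ t = i by omega), if_pos (show s < N by omega), if_pos (show s < N by omega),
      if_pos (show 0 < t by omega), if_pos (show 0 < t by omega)]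
    by_cases htN : t < N
    · obtain ⟨d1, d2, d3⟩ := h.hi (s - 1) (t + 1) (by omega) (by omega) (by omega)
      rw [if_pos htN, if_pos htN, if_pos (show 0 < s by omega), if_pos (show 0 < s by omega)]
      refine ⟨by linarith, by linarith, by linarith⟩
    · rw [if_neg htN, if_neg htN]
      have d1 := h.lo (s - 1) (by omega) (by omega)
      have d2 := h.nn' (z (s - 1))
      by_cases hs0 : 0 < s
      · rw [if_pos hs0, if_pos hs0]
        refine ⟨by linarith, by linarith, by linarith⟩
      · rw [if_neg hs0, if_neg hs0]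
        refine ⟨by linarith, by linarith, by linarith⟩

theorem MInv.sum (hv : Valid N z Q p) {L : ℕ} (hN : N ≤ L) {u u' : V → ℝ}
    (h : MInv N L z Q u u') : ∑ x, u x ≤ ∑ x, u' x := by
  rw [hv.sum_V, hv.sum_V]
  refine add_le_add ?_ (sum_le_sum h.q)
  have refl : ∀ w : V → ℝ, ∑ t ∈ range (N + 1), w (z (if L ≤ N + t then L - t else t)) =
      ∑ t ∈ range (N + 1), w (z t) := by
    intro w
    refine sum_nbij' (fun t => if L ≤ N + t then L - t else t)
      (fun t => if L ≤ N + t then L - t else t) ?_ ?_ ?_ ?_ fun _ _ => rfl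
    all_goals
      intro t ht
      have := mem_range.mp ht
      first
        | (refine mem_range.mpr ?_; split_ifs <;> omega)
        | (split_ifs <;> omega)
  have key : ∑ t ∈ range (N + 1), (u (z t) + u (z (if L ≤ N + t then L - t else t))) ≤
      ∑ t ∈ range (N + 1), (u' (z t) + u' (z (if L ≤ N + t then L - t else t))) := by
    refine sum_le_sum fun t ht => ?_
    have := mem_range.mp ht
    split_ifs with c
    · rcases le_total t (L - t) with c' | c'
      · exact (h.hi t (L - t) (by omega) c' (by omega)).2.2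
      · linarith [(h.hi (L - t) t (by omega) c' (by omega)).2.2]
    · linarith [h.lo t (by omega) (by omega)]
  rw [sum_add_distrib, sum_add_distrib, refl, refl] at key
  linarith

theorem move (hv : Valid N z Q p) {r : V} (hr : r ∈ Q) {i j m : ℕ} (hp : p r = z i)
    (hij : i ≤ j) (hj : j ≤ N) (hm : i + j = 2 * m) (hN : N ≤ i + j)
    (hmax : ∀ v ∈ Q, ∀ t, t ≤ N → p v = z t → t ≤ i) (t : RT) :
    total (RM N z Q (Function.update p r (z j))) t ≤ total (RM N z Q p) t := by
  rcases eq_or_lt_of_le hij with e | hlt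
  · rw [← e, ← hp, Function.update_eq_self]
  have : ∀ t : RT, MInv N (i + j) z Q (vec (RM N z Q (Function.update p r (z j))) t)
      (vec (RM N z Q p) t) := by
    intro t
    induction t with
    | one => exact ⟨fun _ => zero_le_one, fun _ => zero_le_one, fun _ _ => le_rfl,
        fun _ _ _ => le_rfl, fun _ _ _ _ _ => ⟨le_rfl, le_rfl, le_rfl⟩⟩
    | graft s t hs ht => exact hs.mul (ht.step hv hr hp hlt hj hm hN hmax)
  exact (this t).sum hv hN

end Pool.Agent.H766Z.TH
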