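import Mathlib

set_option autoImplicit false

namespace Pool.Agent.H766Z.TH

open Finset

/-- Rooted trees: a single vertex, or a tree with one more subtree attached at the root. -/
inductive RT : Type
  | one : RT
  | graft : RT → RT → RT

/-- Weighted homomorphism counts with prescribed image of the root. -/
def vec {V : Type} [Fintype V] (M : V → V → ℝ) : RT → V → ℝ
  | .one => fun _ => 1
  | .graft s t => fun x => vec M s x * ∑ y, M x y * vec M t y

def total {V : Type} [Fintype V] (M : V → V → ℝ) (t : RT) : ℝ := ∑ x, vec M t x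

theorem vec_nonneg {V : Type} [Fintype V] {M : V → V → ℝ} (hM : ∀ x y, 0 ≤ M x y) :
    ∀ t x, 0 ≤ vec M t x
  | .one, _ => zero_le_one
  | .graft s t, x => mul_nonneg (vec_nonneg hM s x)
      (sum_nonneg fun y _ => mul_nonneg (hM x y) (vec_nonneg hM t y))

theorem vec_mono {V : Type} [Fintype V] {M M' : V → V → ℝ} (hM : ∀ x y, 0 ≤ M x y)
    (h : ∀ x y, M x y ≤ M' x y) : ∀ t x, vec M t x ≤ vec M' t x
  | .one, _ => le_rfl
  | .graft s t, x => by
    have hM' : ∀ x y, 0 ≤ M' x y := fun x y => (hM x y).trans (h x y)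
    exact mul_le_mul (vec_mono hM h s x)
      (sum_le_sum fun y _ => mul_le_mul (h x y) (vec_mono hM h t y) (vec_nonneg hM t y) (hM' x y))
      (sum_nonneg fun y _ => mul_nonneg (hM x y) (vec_nonneg hM t y)) (vec_nonneg hM' s x)

theorem total_mono {V : Type} [Fintype V] {M M' : V → V → ℝ} (hM : ∀ x y, 0 ≤ M x y)
    (h : ∀ x y, M x y ≤ M' x y) (t : RT) : total M t ≤ total M' t :=
  sum_le_sum fun x _ => vec_mono hM h t x

theorem total_swap {V : Type} [Fintype V] {M : V → V → ℝ} (hM : ∀ x y, M x y = M y x)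
    (s t : RT) : total M (.graft s t) = total M (.graft t s) := by
  simp only [total, vec, mul_sum]
  rw [sum_comm]
  refine sum_congr rfl fun x _ => sum_congr rfl fun y _ => ?_
  rw [hM x y]; ring

/-- Every tree with an edge can be rooted at a leaf. -/
theorem reroot (u : RT) : ∀ s : RT, ∃ t : RT, ∀ (V : Type) [Fintype V] (M : V → V → ℝ),
    (∀ x y, M x y = M y x) → total M (.graft s u) = total M (.graft .one t) := by
  induction u with
  | one => exact fun s => ⟨s, fun V _ M hM => total_swap hM _ _⟩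
  | graft u1 u2 _ ih2 =>
    intro s
    obtain ⟨t, ht⟩ := ih2 (.graft u1 s)
    refine ⟨t, fun V _ M hM => ?_⟩
    rw [← ht V M hM, total_swap hM]
    simp only [total, vec]
    refine sum_congr rfl fun x _ => ?_
    ring

open Classical in
/-- Adjacency matrix. -/
noncomputable def adj {V : Type} (G : SimpleGraph V) (x y : V) : ℝ := if G.Adj x y then 1 else 0

theorem adj_symm {V : Type} (G : SimpleGraph V) (x y : V) : adj G x y = adj G y x := by
  unfold adj
  rw [G.adj_comm x y]

theorem adj_nonneg {V : Type} (G : SimpleGraph V) (x y : V) : 0 ≤ adj G x y := by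
  unfold adj; split_ifs <;> norm_num

open Classical in
noncomputable def Zw {α W : Type} [Fintype α] [Fintype W] (S : SimpleGraph α) (τ : α → RT)
    (G : SimpleGraph W) : ℝ :=
  ∑ φ : α → W, (if ∀ u v, S.Adj u v → G.Adj (φ u) (φ v) then 1 else 0) *
    ∏ v, vec (adj G) (τ v) (φ v)

theorem tree_aux (n : ℕ) : ∀ (α : Type) [Fintype α] (S : SimpleGraph α), S.IsTree →
    Fintype.card α = n + 1 → ∀ τ : α → RT, ∃ t : RT,
      ∀ (W : Type) [Fintype W] (G : SimpleGraph W), Zw S τ G = total (adj G) t := by
  classical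
  induction n with
  | zero =>
    intro α _ S _ hc τ
    obtain ⟨a, ha⟩ := Fintype.card_eq_one_iff.mp hc
    refine ⟨τ a, fun W _ G => ?_⟩
    haveI : Unique α := ⟨⟨a⟩, ha⟩
    unfold Zw total
    symm
    refine Finset.sum_equiv (Equiv.funUnique α W).symm (by simp) fun x _ => ?_
    rw [if_pos, one_mul, Fintype.prod_unique]
    · simp [Subsingleton.elim (default : α) a]
    · intro u v h
      exact absurd (Subsingleton.elim u v) h.ne
  | succ n ih =>
    intro α _ S hS hc τ
    haveI : Nontrivial α := Fintype.one_lt_card_iff_nontrivial.mp (by omega)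
    obtain ⟨l, hl⟩ := hS.exists_vert_degree_one_of_nontrivial
    obtain ⟨u, hlu, hu⟩ := SimpleGraph.degree_eq_one_iff_existsUnique_adj.mp hl
    have hconn := hS.connected.induce_compl_singleton_of_degree_eq_one hl
    let S' : SimpleGraph {j // j ≠ l} := S.comap Subtype.val
    have hS' : S'.IsTree := ⟨hconn, hS.isAcyclic.of_comap ⟨Subtype.val, Subtype.val_injective⟩⟩
    have hc' : Fintype.card {j // j ≠ l} = n + 1 := by
      simp [Fintype.card_subtype_compl, hc]
    let u' : {j // j ≠ l} := ⟨u, hlu.ne'⟩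
    obtain ⟨t, ht⟩ := ih _ S' hS' hc'
      (Function.update (fun j => τ j.1) u' (.graft (τ u) (τ l)))
    refine ⟨t, fun W _ G => ?_⟩
    rw [← ht W G]
    unfold Zw
    rw [← (Equiv.funSplitAt l W).symm.sum_comp, Fintype.sum_prod_type, sum_comm]
    refine sum_congr (by ext; simp) fun ψ _ => ?_
    have hφl : ∀ w, (Equiv.funSplitAt l W).symm (w, ψ) l = w := by intro w; simp
    have hφ : ∀ w (j : {j // j ≠ l}), (Equiv.funSplitAt l W).symm (w, ψ) j.1 = ψ j := by
      intro w j; simp [j.2]
    have hiff : ∀ w, (∀ a b, S.Adj a b → G.Adj ((Equiv.funSplitAt l W).symm (w, ψ) a)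
        ((Equiv.funSplitAt l W).symm (w, ψ) b)) ↔
        ((∀ a b, S'.Adj a b → G.Adj (ψ a) (ψ b)) ∧ G.Adj (ψ u') w) := by
      intro w
      constructor
      · intro h
        refine ⟨fun a b hab => ?_, ?_⟩
        · rw [← hφ w a, ← hφ w b]; exact h _ _ hab
        · have := h u l hlu.symm
          rwa [hφl, hφ w u'] at this
      · rintro ⟨h1, h2⟩ a b hab
        by_cases ha : a = l
        · subst ha
          have hb := hu b hab
          subst hb
          rw [hφl, hφ w u']; exact h2.symm
        · by_cases hb : b = l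
          · subst hb
            have ha' := hu a hab.symm
            subst ha'
            rw [hφl, hφ w u']; exact h2
          · rw [hφ w ⟨a, ha⟩, hφ w ⟨b, hb⟩]
            exact h1 _ _ hab
    have hprod : ∀ w, ∏ v, vec (adj G) (τ v) ((Equiv.funSplitAt l W).symm (w, ψ) v) =
        vec (adj G) (τ l) w * ∏ j : {j // j ≠ l}, vec (adj G) (τ j.1) (ψ j) := by
      intro w
      rw [Fintype.prod_eq_mul_prod_compl l, hφl]
      congr 1
      rw [Finset.prod_subtype (p := fun j => j ≠ l) _ (by simp)]
      exact Fintype.prod_congr _ _ fun j => by rw [hφ]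
    have hupd : ∏ j : {j // j ≠ l}, vec (adj G)
        (Function.update (fun j : {j // j ≠ l} => τ j.1) u' (.graft (τ u) (τ l)) j) (ψ j) =
        (∑ w, adj G (ψ u') w * vec (adj G) (τ l) w) *
          ∏ j : {j // j ≠ l}, vec (adj G) (τ j.1) (ψ j) := by
      rw [Fintype.prod_eq_mul_prod_compl u', Fintype.prod_eq_mul_prod_compl u']
      rw [Function.update_self]
      have : ∏ j ∈ ({u'}ᶜ : Finset {j // j ≠ l}), vec (adj G)
          (Function.update (fun j : {j // j ≠ l} => τ j.1) u' (.graft (τ u) (τ l)) j) (ψ j) =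
          ∏ j ∈ ({u'}ᶜ : Finset {j // j ≠ l}), vec (adj G) (τ j.1) (ψ j) := by
        refine prod_congr rfl fun j hj => ?_
        rw [Function.update_of_ne (by simpa using hj)]
      rw [this]
      simp only [vec]
      ring
    rw [hupd, sum_mul, mul_sum]
    refine sum_congr rfl fun w _ => ?_
    rw [hprod]
    simp only [hiff]
    unfold adj
    by_cases h1 : (∀ a b, S'.Adj a b → G.Adj (ψ a) (ψ b)) <;> by_cases h2 : G.Adj (ψ u') w <;>
      simp [h1, h2]

theorem tree_RT {α : Type} [Fintype α] (S : SimpleGraph α) (hS : S.IsTree) : ∃ t : RT,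
    ∀ (W : Type) [Fintype W] (G : SimpleGraph W), (Nat.card (S →g G) : ℝ) = total (adj G) t := by
  classical
  haveI : Nonempty α := hS.connected.nonempty
  obtain ⟨n, hn⟩ : ∃ n, Fintype.card α = n + 1 := ⟨_, (Nat.succ_pred_eq_of_pos Fintype.card_pos).symm⟩
  obtain ⟨t, ht⟩ := tree_aux n α S hS hn (fun _ => .one)
  refine ⟨t, fun W _ G => ?_⟩
  rw [← ht W G]
  unfold Zw
  simp only [vec, prod_const_one, mul_one, sum_boole]
  congr 1
  rw [← Fintype.card_subtype, ← Nat.card_eq_fintype_card]
  exact Nat.card_congr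
    { toFun := fun f => ⟨f, fun u v h => f.map_adj h⟩
      invFun := fun f => ⟨f.1, fun h => f.2 _ _ h⟩
      left_inv := fun _ => rfl
      right_inv := fun _ => rfl }

end Pool.Agent.H766Z.TH
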