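import Pool.Agent.H766Z.THRT

set_option autoImplicit false

namespace Pool.Agent.H766Z.TH

open Finset

variable {V : Type} [Fintype V] [DecidableEq V]

def Ed (a b x y : V) : ℝ := (if x = a ∧ y = b then 1 else 0) + (if x = b ∧ y = a then 1 else 0)

/-- Adjacency matrix of a path `z 0, …, z N` together with the edges `v, p v` for `v ∈ Q`. -/
def RM (N : ℕ) (z : ℕ → V) (Q : Finset V) (p : V → V) (x y : V) : ℝ :=
  ∑ i ∈ range N, Ed (z i) (z (i + 1)) x y + ∑ v ∈ Q, Ed v (p v) x y

structure Valid (N : ℕ) (z : ℕ → V) (Q : Finset V) (p : V → V) : Prop where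
  inj : ∀ i j, i ≤ N → j ≤ N → z i = z j → i = j
  notMem : ∀ i, i ≤ N → z i ∉ Q
  cover : ∀ v, v ∉ Q → ∃ i, i ≤ N ∧ z i = v
  wf : ∃ ord : V → ℕ, ∀ v ∈ Q, p v ∈ Q → ord (p v) < ord v

omit [Fintype V] in
theorem Ed_comm (a b x y : V) : Ed a b x y = Ed b a x y := add_comm _ _

omit [Fintype V] in
theorem Ed_symm (a b x y : V) : Ed a b x y = Ed a b y x := by
  unfold Ed
  rw [add_comm]
  simp only [and_comm]

omit [Fintype V] in
theorem Ed_nonneg (a b x y : V) : 0 ≤ Ed a b x y := by
  unfold Ed; split_ifs <;> norm_num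

variable {N : ℕ} {z : ℕ → V} {Q : Finset V} {p : V → V}

omit [Fintype V] in
theorem RM_symm (x y : V) : RM N z Q p x y = RM N z Q p y x := by
  unfold RM
  simp only [Ed_symm _ _ x y]

omit [Fintype V] in
theorem RM_nonneg (x y : V) : 0 ≤ RM N z Q p x y :=
  add_nonneg (sum_nonneg fun _ _ => Ed_nonneg _ _ _ _) (sum_nonneg fun _ _ => Ed_nonneg _ _ _ _)

theorem Ed_op (a b x : V) (u : V → ℝ) :
    ∑ y, Ed a b x y * u y = (if x = a then u b else 0) + (if x = b then u a else 0) := by
  unfold Ed
  simp only [add_mul, sum_add_distrib, ite_and, ite_mul, one_mul, zero_mul]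
  congr 1 <;> split_ifs <;> simp

theorem RM_op (x : V) (u : V → ℝ) : ∑ y, RM N z Q p x y * u y =
    ∑ i ∈ range N, ((if x = z i then u (z (i + 1)) else 0) + (if x = z (i + 1) then u (z i) else 0)) +
      ∑ v ∈ Q, ((if x = v then u (p v) else 0) + (if x = p v then u v else 0)) := by
  unfold RM
  simp only [add_mul, sum_add_distrib (s := univ), sum_mul]
  rw [sum_comm, sum_comm (s := univ)]
  simp only [Ed_op]

theorem Valid.op_path (h : Valid N z Q p) {t : ℕ} (ht : t ≤ N) (u : V → ℝ) :
    ∑ y, RM N z Q p (z t) y * u y = (if t < N then u (z (t + 1)) else 0) +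
      (if 0 < t then u (z (t - 1)) else 0) + ∑ v ∈ Q, if p v = z t then u v else 0 := by
  rw [RM_op, sum_add_distrib]
  congr 1
  · congr 1
    · have : ∀ i ∈ range N, (if z t = z i then u (z (i + 1)) else 0) =
          if i = t then u (z (t + 1)) else 0 := by
        intro i hi
        have hi' := mem_range.mp hi
        by_cases e : i = t
        · simp [e]
        · rw [if_neg e, if_neg fun e' => e (h.inj _ _ ht (by omega) e').symm]
      rw [sum_congr rfl this, sum_ite_eq']
      simp
    · have : ∀ i ∈ range N, (if z t = z (i + 1) then u (z i) else 0) =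
          if i = t - 1 then (if 0 < t then u (z (t - 1)) else 0) else 0 := by
        intro i hi
        have hi' := mem_range.mp hi
        by_cases e : t = i + 1
        · simp [e]
        · rw [if_neg fun e' => e (h.inj _ _ ht (by omega) e')]
          split_ifs <;> first | rfl | omega
      rw [sum_congr rfl this, sum_ite_eq']
      split_ifs with h1 h2 h2 <;> first | rfl | (exfalso; simp at h1; omega)
  · refine sum_congr rfl fun v hv => ?_
    rw [if_neg fun (e : z t = v) => h.notMem t ht (by rw [e]; exact hv), zero_add]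
    simp only [eq_comm]

theorem Valid.op_Q (h : Valid N z Q p) {x : V} (hx : x ∈ Q) (u : V → ℝ) :
    ∑ y, RM N z Q p x y * u y = u (p x) + ∑ v ∈ Q, if p v = x then u v else 0 := by
  rw [RM_op, sum_eq_zero, zero_add, sum_add_distrib, sum_ite_eq, if_pos hx]
  · simp only [eq_comm]
  · intro i hi
    have hi' := mem_range.mp hi
    rw [if_neg fun (e : x = z i) => h.notMem i (by omega) (by rw [← e]; exact hx),
      if_neg fun (e : x = z (i + 1)) => h.notMem (i + 1) (by omega) (by rw [← e]; exact hx),
      add_zero]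

theorem Valid.sum_V (h : Valid N z Q p) (u : V → ℝ) :
    ∑ x, u x = ∑ i ∈ range (N + 1), u (z i) + ∑ v ∈ Q, u v := by
  rw [← sum_compl_add_sum Q]
  congr 1
  symm
  refine sum_bij (fun i _ => z i) ?_ ?_ ?_ fun _ _ => rfl
  · intro i hi
    exact mem_compl.mpr (h.notMem i (by have := mem_range.mp hi; omega))
  · intro i hi j hj e
    exact h.inj _ _ (by have := mem_range.mp hi; omega) (by have := mem_range.mp hj; omega) e
  · intro v hv
    obtain ⟨i, hi, e⟩ := h.cover v (mem_compl.mp hv)
    exact ⟨i, mem_range.mpr (by omega), e⟩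

theorem Valid.card (h : Valid N z Q p) : Fintype.card V = N + 1 + Q.card := by
  have := h.sum_V (fun _ => 1)
  simp only [sum_const, card_univ, card_range, nsmul_eq_mul, mul_one] at this
  exact_mod_cast this

omit [Fintype V] in
theorem Valid.update (h : Valid N z Q p) (r : V) {j : ℕ} (hj : j ≤ N) :
    Valid N z Q (Function.update p r (z j)) := by
  refine ⟨h.inj, h.notMem, h.cover, ?_⟩
  obtain ⟨ord, ho⟩ := h.wf
  refine ⟨ord, fun v hv hp => ?_⟩
  by_cases e : v = r
  · subst e
    rw [Function.update_self] at hp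
    exact absurd hp (h.notMem j hj)
  · rw [Function.update_of_ne e] at hp ⊢
    exact ho v hv hp

omit [Fintype V] in
theorem Valid.reverse (h : Valid N z Q p) : Valid N (fun i => z (N - i)) Q p := by
  refine ⟨fun i j hi hj e => ?_, fun i _ => h.notMem _ (by omega), fun v hv => ?_, h.wf⟩
  · have := h.inj _ _ (by omega) (by omega) e
    omega
  · obtain ⟨i, hi, e⟩ := h.cover v hv
    exact ⟨N - i, by omega, by rw [show N - (N - i) = i by omega]; exact e⟩

omit [Fintype V] in
theorem RM_reverse : RM N (fun i => z (N - i)) Q p = RM N z Q p := by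
  funext x y
  unfold RM
  congr 1
  rw [← sum_range_reflect]
  refine sum_congr rfl fun i hi => ?_
  have hi' := mem_range.mp hi
  beta_reduce
  rw [Ed_comm, show N - (N - 1 - i + 1) = i by omega, show N - (N - 1 - i) = i + 1 by omega]

omit [Fintype V] in
theorem Valid.extend (h : Valid N z Q p) {r : V} (hr : r ∈ Q) :
    Valid (N + 1) (Function.update z (N + 1) r) (Q.erase r) p := by
  have hz : ∀ i, i ≤ N → Function.update z (N + 1) r i = z i :=
    fun i hi => Function.update_of_ne (by omega) _ _
  refine ⟨fun i j hi hj e => ?_, fun i hi => ?_, fun v hv => ?_, ?_⟩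
  · by_cases e1 : i = N + 1 <;> by_cases e2 : j = N + 1
    · omega
    · rw [e1, Function.update_self, hz j (by omega)] at e
      exact absurd (e ▸ hr) (h.notMem j (by omega))
    · rw [e2, Function.update_self, hz i (by omega)] at e
      exact absurd (e ▸ hr) (h.notMem i (by omega))
    · rw [hz i (by omega), hz j (by omega)] at e
      exact h.inj _ _ (by omega) (by omega) e
  · by_cases e1 : i = N + 1
    · rw [e1, Function.update_self]; simp
    · rw [hz i (by omega)]
      exact fun hm => h.notMem i (by omega) (mem_of_mem_erase hm)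
  · by_cases e : v = r
    · exact ⟨N + 1, le_rfl, by rw [Function.update_self, e]⟩
    · obtain ⟨i, hi, e'⟩ := h.cover v fun hm => hv (mem_erase.mpr ⟨e, hm⟩)
      exact ⟨i, by omega, by rw [hz i hi, e']⟩
  · obtain ⟨ord, ho⟩ := h.wf
    exact ⟨ord, fun v hv hp => ho v (mem_of_mem_erase hv) (mem_of_mem_erase hp)⟩

omit [Fintype V] in
theorem RM_extend {r : V} (hr : r ∈ Q) (hp : p r = z N) :
    RM (N + 1) (Function.update z (N + 1) r) (Q.erase r) p = RM N z Q p := by
  funext x y
  unfold RM
  rw [sum_range_succ, ← add_sum_erase Q _ hr, Function.update_self,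
    Function.update_of_ne (by omega), hp, Ed_comm (z N), add_assoc]
  congr 1
  refine sum_congr rfl fun i hi => ?_
  have hi' := mem_range.mp hi
  rw [Function.update_of_ne (by omega), Function.update_of_ne (by omega)]

omit [Fintype V] in
theorem Valid.shrink (h : Valid (N + 1) z Q p) (hno : ∀ v ∈ Q, p v ≠ z (N + 1)) :
    Valid N z (insert (z (N + 1)) Q) (Function.update p (z (N + 1)) (z N)) := by
  refine ⟨fun i j hi hj e => h.inj _ _ (by omega) (by omega) e, fun i hi hm => ?_,
    fun v hv => ?_, ?_⟩
  · rcases mem_insert.mp hm with e | e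
    · have := h.inj _ _ (by omega) le_rfl e
      omega
    · exact h.notMem i (by omega) e
  · obtain ⟨i, hi, e⟩ := h.cover v fun hm => hv (mem_insert_of_mem hm)
    refine ⟨i, ?_, e⟩
    by_contra hc
    exact hv (mem_insert.mpr (Or.inl (by rw [← e, show i = N + 1 by omega])))
  · obtain ⟨ord, ho⟩ := h.wf
    refine ⟨ord, fun v hv hp => ?_⟩
    by_cases e : v = z (N + 1)
    · rw [e, Function.update_self] at hp
      rcases mem_insert.mp hp with e' | e'
      · have := h.inj _ _ (by omega) le_rfl e'
        omega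
      · exact absurd e' (h.notMem N (by omega))
    · rw [Function.update_of_ne e] at hp ⊢
      have hv' : v ∈ Q := (mem_insert.mp hv).resolve_left e
      exact ho v hv' ((mem_insert.mp hp).resolve_left (hno v hv'))

omit [Fintype V] in
theorem RM_shrink (h : Valid (N + 1) z Q p) :
    RM N z (insert (z (N + 1)) Q) (Function.update p (z (N + 1)) (z N)) = RM (N + 1) z Q p := by
  funext x y
  unfold RM
  rw [sum_range_succ, sum_insert (h.notMem _ le_rfl), Function.update_self, Ed_comm (z N),
    add_assoc]
  congr 2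
  refine sum_congr rfl fun v hv => ?_
  rw [Function.update_of_ne fun (e : v = z (N + 1)) => h.notMem _ le_rfl (by rw [← e]; exact hv)]

omit [Fintype V] in
theorem Valid.exists_hang (h : Valid N z Q p) {S : Finset V} (hS : S ⊆ Q) (hne : S.Nonempty)
    (hcl : ∀ v ∈ S, p v ∈ Q → p v ∈ S) : ∃ r ∈ S, ∃ i, i ≤ N ∧ p r = z i := by
  obtain ⟨ord, ho⟩ := h.wf
  obtain ⟨r, hr, hmin⟩ := exists_min_image S ord hne
  have : p r ∉ Q := fun hm => absurd (hmin _ (hcl r hr hm)) (not_le.mpr (ho r (hS hr) hm))
  obtain ⟨i, hi, e⟩ := h.cover _ this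
  exact ⟨r, hr, i, hi, e.symm⟩

end Pool.Agent.H766Z.TH
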